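import Mathlib

/-!
Analytic functions of two variables by Cauchy's formula, copied (with the namespace changed) from
`Pool.Agent.L7h90.GL.Ext` of helper90.
-/

set_option autoImplicit false

open Filter Topology Set Metric

namespace Pool.Agent.L7h30.NE

section curry

variable {r : ℝ}

/-- the circle -/
abbrev Cir (r : ℝ) : Type := sphere (0 : ℂ) r

noncomputable instance (r : ℝ) : CompactSpace (Cir r) := isCompact_iff_compactSpace.1 (isCompact_sphere _ _)

/-- the integral over the circle, on continuous functions -/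
noncomputable def cint (r : ℝ) (hr : 0 ≤ r) : C(Cir r, ℂ) →L[ℂ] ℂ :=
  LinearMap.mkContinuous
    { toFun := fun φ => ∫ θ in (0 : ℝ)..(2 * Real.pi), deriv (circleMap 0 r) θ *
        φ ⟨circleMap 0 r θ, circleMap_mem_sphere 0 hr θ⟩
      map_add' := fun φ ψ => by
        rw [← intervalIntegral.integral_add]
        · congr 1
          funext θ
          rw [ContinuousMap.add_apply]
          ring
        · apply Continuous.intervalIntegrable
          simp only [deriv_circleMap]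
          fun_prop
        · apply Continuous.intervalIntegrable
          simp only [deriv_circleMap]
          fun_prop
      map_smul' := fun c φ => by
        rw [RingHom.id_apply, smul_eq_mul, ← intervalIntegral.integral_const_mul]
        congr 1
        funext θ
        rw [ContinuousMap.smul_apply, smul_eq_mul]
        ring } (2 * Real.pi * r) (fun φ => by
    have h1 := intervalIntegral.norm_integral_le_of_norm_le_const (a := 0) (b := 2 * Real.pi)
      (C := r * ‖φ‖) (f := fun θ => deriv (circleMap 0 r) θ *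
        φ ⟨circleMap 0 r θ, circleMap_mem_sphere 0 hr θ⟩) (fun θ _ => by
        rw [norm_mul, deriv_circleMap]
        have h2 : ‖circleMap 0 r θ * Complex.I‖ = r := by
          rw [norm_mul, Complex.norm_I, mul_one, norm_circleMap_zero, abs_of_nonneg hr]
        rw [h2]
        exact mul_le_mul_of_nonneg_left (ContinuousMap.norm_coe_le_norm _ _) hr)
    refine h1.trans (le_of_eq ?_)
    rw [sub_zero, abs_of_pos (by positivity)]
    ring)

theorem cint_apply (hr : 0 ≤ r) (φ : C(Cir r, ℂ)) (g : ℂ → ℂ) (h : ∀ z : Cir r, φ z = g z) :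
    cint r hr φ = ∮ z in C(0, r), g z := by
  change (∫ θ in (0 : ℝ)..(2 * Real.pi), deriv (circleMap 0 r) θ *
    φ ⟨circleMap 0 r θ, circleMap_mem_sphere 0 hr θ⟩) = _
  unfold circleIntegral
  congr 1
  funext θ
  rw [h, smul_eq_mul]

/-- the kernel -/
theorem kernel_an (hr : 0 < r) : AnalyticAt ℂ (fun t : ℂ => Ring.inverse
    ((⟨Subtype.val, continuous_subtype_val⟩ : C(Cir r, ℂ)) - algebraMap ℂ C(Cir r, ℂ) t)) 0 := by
  set ι : C(Cir r, ℂ) := ⟨Subtype.val, continuous_subtype_val⟩ with hι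
  have hu : IsUnit (ι - algebraMap ℂ C(Cir r, ℂ) 0) := by
    rw [map_zero, sub_zero]
    refine ⟨⟨ι, ⟨fun z => (z : ℂ)⁻¹, ?_⟩, ?_, ?_⟩, rfl⟩
    · apply Continuous.inv₀ continuous_subtype_val
      intro z hz
      have := z.2
      rw [mem_sphere_zero_iff_norm, hz, norm_zero] at this
      exact hr.ne this
    · ext z
      have hz : (z : ℂ) ≠ 0 := by
        intro hz
        have := z.2
        rw [mem_sphere_zero_iff_norm, hz, norm_zero] at this
        exact hr.ne this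
      exact mul_inv_cancel₀ hz
    · ext z
      have hz : (z : ℂ) ≠ 0 := by
        intro hz
        have := z.2
        rw [mem_sphere_zero_iff_norm, hz, norm_zero] at this
        exact hr.ne this
      exact inv_mul_cancel₀ hz
  obtain ⟨u, hu⟩ := hu
  have h1 : AnalyticAt ℂ (fun t : ℂ => ι - algebraMap ℂ C(Cir r, ℂ) t) 0 := by
    apply AnalyticAt.sub analyticAt_const
    exact (Algebra.linearMap ℂ C(Cir r, ℂ)).toContinuousLinearMap.analyticAt 0
  have h2 : AnalyticAt ℂ (Ring.inverse : C(Cir r, ℂ) → C(Cir r, ℂ)) (ι - algebraMap ℂ C(Cir r, ℂ) 0) := by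
    rw [← hu]
    exact analyticAt_inverse u
  exact AnalyticAt.comp (g := (Ring.inverse : C(Cir r, ℂ) → C(Cir r, ℂ)))
    (f := fun t : ℂ => ι - algebraMap ℂ C(Cir r, ℂ) t) h2 h1

theorem kernel_apply {t : ℂ} (ht : t ∈ ball (0 : ℂ) r) (z : Cir r) : (Ring.inverse
    ((⟨Subtype.val, continuous_subtype_val⟩ : C(Cir r, ℂ)) - algebraMap ℂ C(Cir r, ℂ) t)) z =
      ((z : ℂ) - t)⁻¹ := by
  have hne : ∀ z : Cir r, (z : ℂ) - t ≠ 0 := by
    intro z h
    have h1 := z.2
    rw [sub_eq_zero.1 h, mem_sphere_zero_iff_norm] at h1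
    rw [mem_ball_zero_iff] at ht
    linarith
  let w : C(Cir r, ℂ)ˣ := ⟨(⟨Subtype.val, continuous_subtype_val⟩ : C(Cir r, ℂ)) -
    algebraMap ℂ C(Cir r, ℂ) t, ⟨fun z => ((z : ℂ) - t)⁻¹, Continuous.inv₀ (by fun_prop) hne⟩,
    by ext z; exact mul_inv_cancel₀ (hne z), by ext z; exact inv_mul_cancel₀ (hne z)⟩
  have h1 : ((⟨Subtype.val, continuous_subtype_val⟩ : C(Cir r, ℂ)) - algebraMap ℂ C(Cir r, ℂ) t) =
    (w : C(Cir r, ℂ)) := rfl
  rw [h1, Ring.inverse_unit]
  rfl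

/-- analytic functions of two variables, by Cauchy's formula -/
theorem two_cauchy {r ρ : ℝ} (hr : 0 < r) (hρ : 0 < ρ) {hh : ℂ → ℂ → ℂ}
    (hcont : ContinuousOn (fun x : ℂ × ℂ => hh x.1 x.2) (closedBall 0 ρ ×ˢ sphere 0 r))
    (hs : ∀ τ ∈ sphere (0 : ℂ) r, ∀ s ∈ closedBall (0 : ℂ) ρ, DifferentiableAt ℂ (fun s => hh s τ) s)
    {Q : ℂ → ℂ → ℂ} (hQ : ∀ s ∈ ball (0 : ℂ) ρ, ∀ t ∈ closedBall (0 : ℂ) r,
      DifferentiableAt ℂ (Q s) t)
    (hQh : ∀ s ∈ ball (0 : ℂ) ρ, ∀ τ ∈ sphere (0 : ℂ) r, Q s τ = hh s τ) :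
    ∃ ξ : ℂ × ℂ → ℂ, AnalyticAt ℂ ξ 0 ∧ ∀ s ∈ ball (0 : ℂ) ρ, ∀ t ∈ ball (0 : ℂ) r,
      ξ (s, t) = Q s t := by
  have hcon : Continuous fun x : Cir ρ × Cir r => hh x.1 x.2 := by
    have h1 : Continuous fun x : Cir ρ × Cir r => (⟨((x.1 : ℂ), (x.2 : ℂ)),
        ⟨sphere_subset_closedBall x.1.2, x.2.2⟩⟩ : closedBall (0 : ℂ) ρ ×ˢ sphere (0 : ℂ) r) := by
      fun_prop
    exact (continuousOn_iff_continuous_domRestrict.1 hcont).comp h1
  let H : C(Cir ρ, C(Cir r, ℂ)) := (⟨fun x : Cir ρ × Cir r => hh x.1 x.2, hcon⟩ :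
    C(Cir ρ × Cir r, ℂ)).curry
  classical
  let Φ : ℂ → C(Cir r, ℂ) := fun s => if hs : s ∈ sphere (0 : ℂ) ρ then H ⟨s, hs⟩ else 0
  have hΦ : ∀ (s : ℂ) (hs : s ∈ sphere (0 : ℂ) ρ), Φ s = H ⟨s, hs⟩ := fun s hs => dif_pos hs
  have hΦi : CircleIntegrable Φ 0 ρ := by
    apply Continuous.intervalIntegrable
    have h1 : (fun θ : ℝ => Φ (circleMap 0 ρ θ)) = fun θ : ℝ =>
        H ⟨circleMap 0 ρ θ, circleMap_mem_sphere 0 hρ.le θ⟩ := by
      funext θ
      exact hΦ _ _
    rw [h1]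
    fun_prop
  lift ρ to NNReal using hρ.le
  have hΨ := (hasFPowerSeriesOn_cauchy_integral hΦi (by exact_mod_cast hρ)).analyticAt
  set Ψ : ℂ → C(Cir r, ℂ) := fun w => (2 * Real.pi * Complex.I : ℂ)⁻¹ •
    ∮ z in C(0, ρ), (z - w)⁻¹ • Φ z with hΨd
  have hΨv : ∀ s ∈ ball (0 : ℂ) ρ, ∀ τ : Cir r, Ψ s τ = hh s τ := by
    intro s hsb τ
    have hcl : DiffContOnCl ℂ (fun s => hh s τ) (ball (0 : ℂ) ρ) := by
      apply DifferentiableOn.diffContOnCl
      intro t ht
      rw [closure_ball _ hρ.ne'] at ht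
      exact (hs τ τ.2 t ht).differentiableWithinAt
    have h1 := hcl.two_pi_i_inv_smul_circleIntegral_sub_inv_smul hsb
    rw [← h1, hΨd]
    change (2 * Real.pi * Complex.I : ℂ)⁻¹ • (∮ z in C(0, ρ), (z - s)⁻¹ • Φ z) τ = _
    congr 1
    have h2 : (∮ z in C(0, ρ), (z - s)⁻¹ • Φ z) τ = (ContinuousMap.evalCLM ℂ τ)
        (∮ z in C(0, ρ), (z - s)⁻¹ • Φ z) := rfl
    rw [h2]
    unfold circleIntegral
    rw [← ContinuousLinearMap.intervalIntegral_comp_comm]
    · congr 1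
      funext θ
      rw [map_smul, map_smul, hΦ _ (circleMap_mem_sphere 0 hρ.le θ)]
      rfl
    · have hne : ∀ θ : ℝ, circleMap 0 (ρ : ℝ) θ - s ≠ 0 := by
        intro θ h
        have h3 := circleMap_mem_sphere (0 : ℂ) hρ.le θ
        rw [sub_eq_zero.1 h, mem_sphere_zero_iff_norm] at h3
        rw [mem_ball_zero_iff] at hsb
        linarith
      apply Continuous.intervalIntegrable
      have h3 : (fun θ : ℝ => deriv (circleMap 0 (ρ : ℝ)) θ • (circleMap 0 (ρ : ℝ) θ - s)⁻¹ •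
          Φ (circleMap 0 ρ θ)) = fun θ : ℝ => deriv (circleMap 0 (ρ : ℝ)) θ •
            (circleMap 0 (ρ : ℝ) θ - s)⁻¹ • H ⟨circleMap 0 ρ θ, circleMap_mem_sphere 0 hρ.le θ⟩ := by
        funext θ
        rw [hΦ _ (circleMap_mem_sphere 0 hρ.le θ)]
      rw [h3]
      simp only [deriv_circleMap]
      have h4 : Continuous fun θ : ℝ => (circleMap 0 (ρ : ℝ) θ - s)⁻¹ :=
        Continuous.inv₀ (by fun_prop) hne
      fun_prop
  refine ⟨fun p => (2 * Real.pi * Complex.I : ℂ)⁻¹ * cint r hr.le (Ring.inverse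
    ((⟨Subtype.val, continuous_subtype_val⟩ : C(Cir r, ℂ)) - algebraMap ℂ C(Cir r, ℂ) p.2) *
      Ψ p.1), ?_, ?_⟩
  · apply AnalyticAt.mul analyticAt_const
    apply ((cint r hr.le).analyticAt _).comp
    apply AnalyticAt.mul
    · exact AnalyticAt.comp (f := Prod.snd) (x := ((0 : ℂ), (0 : ℂ))) (kernel_an hr) analyticAt_snd
    · exact AnalyticAt.comp (f := Prod.fst) (x := ((0 : ℂ), (0 : ℂ))) hΨ analyticAt_fst
  · intro s hsb t htb
    have hcl : DiffContOnCl ℂ (Q s) (ball (0 : ℂ) r) := by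
      apply DifferentiableOn.diffContOnCl
      intro t ht
      rw [closure_ball _ hr.ne'] at ht
      exact (hQ s hsb t ht).differentiableWithinAt
    have h1 := hcl.two_pi_i_inv_smul_circleIntegral_sub_inv_smul htb
    rw [← h1, smul_eq_mul]
    change (2 * Real.pi * Complex.I : ℂ)⁻¹ * _ = _
    congr 1
    rw [cint_apply hr.le _ (fun z => (z - t)⁻¹ • hh s z)]
    · apply circleIntegral.integral_congr hr.le
      intro z hz
      change (z - t)⁻¹ • hh s z = (z - t)⁻¹ • Q s z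
      rw [hQh s hsb z hz]
    · intro z
      rw [ContinuousMap.mul_apply, kernel_apply htb, hΨv s hsb, smul_eq_mul]

end curry

end Pool.Agent.L7h30.NE
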