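import Pool.Agent.L7h30.NE.Lines
import Pool.Agent.L7h30.NE.Cauchy2

/-!
# Entire functions of two variables with spectrum in the disc: division by linear forms
-/

set_option autoImplicit false

open Complex Filter Topology Metric Set
open scoped ComplexConjugate
open Pool.Agent.Helper797.Bs
open Pool.Agent.K7.H38.MD

namespace Pool.Agent.L7h30.NE

/-- bounded functions with spectrum in the disc, as entire functions -/
structure Cls (F : ℂ × ℂ → ℂ) : Prop where
  diff : Differentiable ℂ F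
  growth : ∀ ε > 0, ∃ C : ℝ, ∀ z : ℂ × ℂ,
    ‖F z‖ ≤ C * Real.exp (√(z.1.im ^ 2 + z.2.im ^ 2) + ε * ‖z‖)
  bdd : ∃ M : ℝ, ∀ x y : ℝ, ‖F ((x : ℂ), (y : ℂ))‖ ≤ M

/-- Osgood's lemma -/
lemma osgood {F : ℂ × ℂ → ℂ} (hF : Differentiable ℂ F) : AnalyticOnNhd ℂ F univ := by
  intro p0 _
  obtain ⟨ξ, hξ, hξF⟩ := two_cauchy (r := 1) (ρ := 1) one_pos one_pos
    (hh := fun s τ => F (p0.1 + s, p0.2 + τ)) (Q := fun s τ => F (p0.1 + s, p0.2 + τ))
    (by
      apply Continuous.continuousOn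
      exact hF.continuous.comp (by fun_prop))
    (fun τ _ s _ => (hF _).comp s (f := fun s : ℂ => (p0.1 + s, p0.2 + τ)) (by fun_prop))
    (fun s _ t _ => (hF _).comp t (f := fun t : ℂ => (p0.1 + s, p0.2 + t)) (by fun_prop))
    (fun _ _ _ _ => rfl)
  have h1 : AnalyticAt ℂ (fun p : ℂ × ℂ => p - p0) p0 := analyticAt_id.sub analyticAt_const
  have h2 : AnalyticAt ℂ (fun p : ℂ × ℂ => ξ (p - p0)) p0 := by
    apply AnalyticAt.fun_comp (g := ξ) (f := fun p : ℂ × ℂ => p - p0) _ h1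
    rw [sub_self]; exact hξ
  refine h2.congr ?_
  have hb : ball p0 1 ∈ 𝓝 p0 := ball_mem_nhds p0 one_pos
  filter_upwards [hb] with p hp
  rw [mem_ball, dist_eq_norm] at hp
  have h3 := hξF (p - p0).1 (by
    rw [mem_ball_zero_iff]; exact (norm_fst_le _).trans_lt hp) (p - p0).2 (by
    rw [mem_ball_zero_iff]; exact (norm_snd_le _).trans_lt hp)
  rw [Prod.mk.eta] at h3
  rw [h3]
  simp

lemma Cls.spec {F : ℂ × ℂ → ℂ} (h : Cls F) : SpecDisc F := ⟨osgood h.diff, h.growth⟩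

lemma mem_B {f : ℝ × ℝ → ℂ} :
    f ∈ B ↔ ∃ F, Cls F ∧ ∀ x y : ℝ, f (x, y) = F ((x : ℂ), (y : ℂ)) := by
  constructor
  · rintro ⟨⟨M, hM⟩, F, hF, hf⟩
    exact ⟨F, ⟨fun z => (hF.1 z (mem_univ z)).differentiableAt, hF.2,
      ⟨M, fun x y => by rw [← hf]; exact hM _⟩⟩, hf⟩
  · rintro ⟨F, hF, hf⟩
    obtain ⟨M, hM⟩ := hF.bdd
    refine ⟨⟨M, ?_⟩, F, hF.spec, hf⟩
    rintro ⟨x, y⟩
    rw [hf]; exact hM x y

lemma growth_nonneg {F : ℂ × ℂ → ℂ} {C ε : ℝ}
    (h : ∀ z : ℂ × ℂ, ‖F z‖ ≤ C * Real.exp (√(z.1.im ^ 2 + z.2.im ^ 2) + ε * ‖z‖)) : 0 ≤ C := by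
  have h0 := (norm_nonneg _).trans (h 0)
  by_contra hneg
  rw [not_le] at hneg
  have : C * Real.exp (√((0 : ℂ × ℂ).1.im ^ 2 + (0 : ℂ × ℂ).2.im ^ 2) + ε * ‖(0 : ℂ × ℂ)‖) < 0 :=
    mul_neg_of_neg_of_pos hneg (Real.exp_pos _)
  linarith

lemma Cls.add {F G : ℂ × ℂ → ℂ} (hF : Cls F) (hG : Cls G) : Cls (fun z => F z + G z) := by
  refine ⟨hF.diff.add hG.diff, fun ε hε => ?_, ?_⟩
  · obtain ⟨C, hC⟩ := hF.growth ε hε
    obtain ⟨D, hD⟩ := hG.growth ε hε
    refine ⟨C + D, fun z => ?_⟩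
    rw [add_mul]
    exact (norm_add_le _ _).trans (add_le_add (hC z) (hD z))
  · obtain ⟨M, hM⟩ := hF.bdd
    obtain ⟨N, hN⟩ := hG.bdd
    exact ⟨M + N, fun x y => (norm_add_le _ _).trans (add_le_add (hM x y) (hN x y))⟩

lemma Cls.const_mul {F : ℂ × ℂ → ℂ} (hF : Cls F) (c : ℂ) : Cls (fun z => c * F z) := by
  refine ⟨hF.diff.const_mul c, fun ε hε => ?_, ?_⟩
  · obtain ⟨C, hC⟩ := hF.growth ε hε
    refine ⟨‖c‖ * C, fun z => ?_⟩
    rw [norm_mul, mul_assoc]
    exact mul_le_mul_of_nonneg_left (hC z) (norm_nonneg c)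
  · obtain ⟨M, hM⟩ := hF.bdd
    refine ⟨‖c‖ * M, fun x y => ?_⟩
    rw [norm_mul]
    exact mul_le_mul_of_nonneg_left (hM x y) (norm_nonneg c)

lemma Cls.sub {F G : ℂ × ℂ → ℂ} (hF : Cls F) (hG : Cls G) : Cls (fun z => F z - G z) := by
  have h := hF.add (hG.const_mul (-1))
  have e : (fun z => F z - G z) = fun z => F z + -1 * G z := by ext z; ring
  rw [e]; exact h

/-- the conjugate function -/
noncomputable def cj2 (F : ℂ × ℂ → ℂ) (z : ℂ × ℂ) : ℂ := conj (F (conj z.1, conj z.2))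

lemma Cls.cj2 {F : ℂ × ℂ → ℂ} (hF : Cls F) : Cls (cj2 F) := by
  refine ⟨?_, fun ε hε => ?_, ?_⟩
  · intro z
    have h1 : DifferentiableAt ℂ F (star z) := hF.diff _
    have h2 := h1.star_star
    rw [star_star] at h2
    exact h2
  · obtain ⟨C, hC⟩ := hF.growth ε hε
    refine ⟨C, fun z => ?_⟩
    unfold NE.cj2
    rw [Complex.norm_conj]
    have h := hC (conj z.1, conj z.2)
    simp only [Complex.conj_im, neg_sq] at h
    have e : ‖(conj z.1, conj z.2)‖ = ‖z‖ := by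
      rw [Prod.norm_def, Prod.norm_def, Complex.norm_conj, Complex.norm_conj]
    rw [e] at h
    exact h
  · obtain ⟨M, hM⟩ := hF.bdd
    refine ⟨M, fun x y => ?_⟩
    unfold NE.cj2
    rw [Complex.norm_conj]
    simp only [Complex.conj_ofReal]
    exact hM x y

lemma re_mem {f : ℝ × ℝ → ℂ} (hf : f ∈ B) : (fun p => ((f p).re : ℂ)) ∈ B := by
  obtain ⟨F, hF, hfF⟩ := mem_B.1 hf
  refine mem_B.2 ⟨fun z => (1 / 2) * (F z + cj2 F z), (hF.add hF.cj2).const_mul _, fun x y => ?_⟩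
  simp only [cj2, Complex.conj_ofReal]
  rw [← hfF, Complex.add_conj]
  push_cast; ring

lemma im_mem {f : ℝ × ℝ → ℂ} (hf : f ∈ B) : (fun p => ((f p).im : ℂ)) ∈ B := by
  obtain ⟨F, hF, hfF⟩ := mem_B.1 hf
  refine mem_B.2 ⟨fun z => (-I / 2) * (F z - cj2 F z), (hF.sub hF.cj2).const_mul _, fun x y => ?_⟩
  simp only [cj2, Complex.conj_ofReal]
  rw [← hfF, Complex.sub_conj]
  push_cast
  linear_combination (((f (x, y)).im : ℝ) : ℂ) * I_mul_I

/-- permutation of the variables -/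
lemma Cls.swap {F : ℂ × ℂ → ℂ} (hF : Cls F) : Cls (fun z => F (z.2, z.1)) := by
  refine ⟨hF.diff.comp (f := fun z : ℂ × ℂ => (z.2, z.1)) (by fun_prop), fun ε hε => ?_, ?_⟩
  · obtain ⟨C, hC⟩ := hF.growth ε hε
    refine ⟨C, fun z => ?_⟩
    have h := hC (z.2, z.1)
    have e : ‖(z.2, z.1)‖ = ‖z‖ := by
      rw [Prod.norm_def, Prod.norm_def]; exact max_comm _ _
    simp only [e] at h
    rw [add_comm (z.2.im ^ 2)] at h
    exact h
  · obtain ⟨M, hM⟩ := hF.bdd
    exact ⟨M, fun x y => hM y x⟩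

/-- the rotation (a reflection) to the coordinates along the diagonals -/
noncomputable def rot (z : ℂ × ℂ) : ℂ × ℂ := ((hs : ℂ) * (z.1 + z.2), (hs : ℂ) * (z.1 - z.2))

lemma rot_rot (z : ℂ × ℂ) : rot (rot z) = z := by
  unfold rot
  apply Prod.ext
  · simp only
    linear_combination (2 * z.1) * hs_sqC
  · simp only
    linear_combination (2 * z.2) * hs_sqC

lemma Cls.rot {F : ℂ × ℂ → ℂ} (hF : Cls F) : Cls (fun z => F (rot z)) := by
  have hlin : Differentiable ℂ NE.rot := by unfold NE.rot; fun_prop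
  refine ⟨hF.diff.comp hlin, fun ε hε => ?_, ?_⟩
  · obtain ⟨C, hC⟩ := hF.growth (ε / 2) (by positivity)
    have hC0 := growth_nonneg hC
    refine ⟨C, fun z => ?_⟩
    refine (hC _).trans ?_
    apply mul_le_mul_of_nonneg_left _ hC0
    apply Real.exp_le_exp.2
    have h1 : (NE.rot z).1.im ^ 2 + (NE.rot z).2.im ^ 2 = z.1.im ^ 2 + z.2.im ^ 2 := by
      simp only [NE.rot, Complex.im_ofReal_mul, Complex.add_im, Complex.sub_im]
      linear_combination (2 * (z.1.im ^ 2 + z.2.im ^ 2)) * hs_sq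
    rw [h1]
    have h2 : ‖NE.rot z‖ ≤ 2 * ‖z‖ := by
      have hh : hs ≤ 1 := by
        have := hs_sq; have := hs_pos; nlinarith
      have a1 := norm_fst_le z
      have a2 := norm_snd_le z
      rw [Prod.norm_def]
      simp only [NE.rot, norm_mul, Complex.norm_real, Real.norm_eq_abs, abs_of_pos hs_pos]
      apply max_le
      · have := norm_add_le z.1 z.2
        have := norm_nonneg (z.1 + z.2)
        nlinarith [hs_pos]
      · have := norm_sub_le z.1 z.2
        have := norm_nonneg (z.1 - z.2)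
        nlinarith [hs_pos]
    nlinarith
  · obtain ⟨M, hM⟩ := hF.bdd
    refine ⟨M, fun x y => ?_⟩
    have := hM (hs * (x + y)) (hs * (x - y))
    unfold NE.rot
    push_cast at this
    exact this

/-- the quotient by the second variable -/
noncomputable def dv (D : ℂ × ℂ → ℂ) (p : ℂ × ℂ) : ℂ := dslope (fun t => D (p.1, t)) 0 p.2

lemma dv_ne {D : ℂ × ℂ → ℂ} (h0 : ∀ s, D (s, 0) = 0) {p : ℂ × ℂ} (hp : p.2 ≠ 0) :
    dv D p = D p / p.2 := by
  unfold dv
  rw [dslope_of_ne _ hp, slope_def_field, h0, sub_zero, sub_zero]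

lemma dv_mul {D : ℂ × ℂ → ℂ} (h0 : ∀ s, D (s, 0) = 0) (p : ℂ × ℂ) : p.2 * dv D p = D p := by
  by_cases hp : p.2 = 0
  · rw [hp, zero_mul]
    have : p = (p.1, 0) := Prod.ext rfl hp
    rw [this, h0]
  · rw [dv_ne h0 hp]; field_simp

lemma dv_sec {D : ℂ × ℂ → ℂ} (hD : Differentiable ℂ D) (s : ℂ) :
    Differentiable ℂ (fun t => dv D (s, t)) := by
  have h1 : Differentiable ℂ (fun t => D (s, t)) := hD.comp (f := fun t : ℂ => (s, t)) (by fun_prop)
  have h : DifferentiableOn ℂ (dslope (fun t => D (s, t)) 0) univ :=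
    (Complex.differentiableOn_dslope (by simp)).2 h1.differentiableOn
  exact fun z => (h z (mem_univ z)).differentiableAt (by simp)

lemma dv_diff {D : ℂ × ℂ → ℂ} (hD : Differentiable ℂ D) (h0 : ∀ s, D (s, 0) = 0) :
    Differentiable ℂ (dv D) := by
  intro p0
  by_cases hp : p0.2 = 0
  · obtain ⟨ξ, hξ, hξF⟩ := two_cauchy (r := 1) (ρ := 1) one_pos one_pos
      (hh := fun s τ => D (p0.1 + s, τ) / τ) (Q := fun s τ => dv D (p0.1 + s, τ))
      (by
        intro x hx
        have hx2 : x.2 ≠ 0 := by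
          have := hx.2
          rw [mem_sphere_zero_iff_norm] at this
          intro h; rw [h, norm_zero] at this; norm_num at this
        apply ContinuousAt.continuousWithinAt
        apply ContinuousAt.div _ _ hx2
        · exact (hD.continuous.comp (f := fun x : ℂ × ℂ => (p0.1 + x.1, x.2))
            (by fun_prop)).continuousAt
        · exact continuous_snd.continuousAt)
      (fun τ _ s _ => by
        apply DifferentiableAt.div_const
        exact (hD _).comp s (f := fun s : ℂ => (p0.1 + s, τ)) (by fun_prop))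
      (fun s _ t _ => dv_sec hD _ t)
      (fun s _ τ hτ => by
        have hτ2 : τ ≠ 0 := by
          rw [mem_sphere_zero_iff_norm] at hτ
          intro h; rw [h, norm_zero] at hτ; norm_num at hτ
        exact dv_ne h0 (p := (p0.1 + s, τ)) hτ2)
    have h1 : AnalyticAt ℂ (fun p : ℂ × ℂ => p - p0) p0 := analyticAt_id.sub analyticAt_const
    have h2 : AnalyticAt ℂ (fun p : ℂ × ℂ => ξ (p - p0)) p0 := by
      apply AnalyticAt.fun_comp (g := ξ) (f := fun p : ℂ × ℂ => p - p0) _ h1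
      rw [sub_self]; exact hξ
    apply AnalyticAt.differentiableAt
    refine h2.congr ?_
    have hb : ball p0 1 ∈ 𝓝 p0 := ball_mem_nhds p0 one_pos
    filter_upwards [hb] with p hpb
    rw [mem_ball, dist_eq_norm] at hpb
    have h3 := hξF (p - p0).1 (by
      rw [mem_ball_zero_iff]; exact (norm_fst_le _).trans_lt hpb) (p - p0).2 (by
      rw [mem_ball_zero_iff]; exact (norm_snd_le _).trans_lt hpb)
    rw [Prod.mk.eta] at h3
    rw [h3]
    simp [hp]
  · have h1 : DifferentiableAt ℂ (fun p : ℂ × ℂ => D p / p.2) p0 := by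
      simp only [div_eq_mul_inv]
      have h2 : DifferentiableAt ℂ (fun p : ℂ × ℂ => (p.2)⁻¹) p0 := by
        fun_prop (disch := exact hp)
      exact (hD p0).mul h2
    refine h1.congr_of_eventuallyEq ?_
    have : ∀ᶠ p : ℂ × ℂ in 𝓝 p0, p.2 ≠ 0 := continuous_snd.continuousAt.eventually_ne hp
    filter_upwards [this] with p hp2
    exact dv_ne h0 hp2

lemma dv_max {D : ℂ × ℂ → ℂ} (hD : Differentiable ℂ D) (h0 : ∀ s, D (s, 0) = 0) {s t : ℂ}
    (ht : ‖t‖ ≤ 1) {C : ℝ} (hC : ∀ τ : ℂ, ‖τ‖ = 1 → ‖D (s, τ)‖ ≤ C) : ‖dv D (s, t)‖ ≤ C := by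
  have h := Complex.norm_le_of_forall_mem_frontier_norm_le (U := ball (0:ℂ) 1) isBounded_ball
    (f := fun t => dv D (s, t)) (dv_sec hD s).diffContOnCl (C := C) (z := t) (by
    intro z hz
    rw [frontier_ball _ one_ne_zero, mem_sphere_zero_iff_norm] at hz
    have hz0 : z ≠ 0 := by
      intro h; rw [h, norm_zero] at hz; norm_num at hz
    rw [dv_ne h0 (p := (s, z)) hz0, norm_div, hz, div_one]
    exact hC z hz) (by
    rw [closure_ball _ one_ne_zero, mem_closedBall_zero_iff]; exact ht)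
  exact h

/-- **Division by the second variable.** -/
theorem Cls.dv {D : ℂ × ℂ → ℂ} (hD : Cls D) (h0 : ∀ s, D (s, 0) = 0) : Cls (dv D) := by
  refine ⟨dv_diff hD.diff h0, fun ε hε => ?_, ?_⟩
  · obtain ⟨C, hC⟩ := hD.growth ε hε
    have hC0 := growth_nonneg hC
    refine ⟨C * Real.exp (2 + 2 * ε), fun z => ?_⟩
    obtain ⟨s, t⟩ := z
    rcases le_total ‖t‖ 1 with ht | ht
    · apply dv_max hD.diff h0 ht
      intro τ hτ
      refine (hC _).trans ?_
      rw [mul_assoc, ← Real.exp_add]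
      apply mul_le_mul_of_nonneg_left _ hC0
      apply Real.exp_le_exp.2
      simp only
      have h1 := sqrt_add_le s.im t.im 0 (τ.im - t.im)
      rw [add_zero, abs_zero, zero_add] at h1
      have e1 : t.im + (τ.im - t.im) = τ.im := by ring
      rw [e1] at h1
      have h2 : |τ.im - t.im| ≤ 2 := by
        rw [← Complex.sub_im]
        refine (Complex.abs_im_le_norm _).trans ((norm_sub_le _ _).trans ?_)
        linarith
      have h3 : ‖(s, τ)‖ ≤ ‖(s, t)‖ + 2 := by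
        have e2 : (s, τ) = (s, t) + (0, τ - t) := by simp
        rw [e2]
        refine (norm_add_le _ _).trans ?_
        gcongr
        rw [Prod.norm_def, norm_zero]
        apply max_le (by norm_num)
        refine (norm_sub_le _ _).trans ?_
        linarith
      nlinarith
    · have ht0 : t ≠ 0 := by
        intro h; rw [h, norm_zero] at ht; linarith
      rw [dv_ne h0 (p := (s, t)) ht0, norm_div]
      have h1 : ‖D (s, t)‖ / ‖t‖ ≤ ‖D (s, t)‖ := div_le_self (norm_nonneg _) ht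
      have h2 := hC (s, t)
      have h3 : 1 ≤ Real.exp (2 + 2 * ε) := Real.one_le_exp (by positivity)
      refine (h1.trans h2).trans ?_
      apply mul_le_mul_of_nonneg_right _ (Real.exp_pos _).le
      nlinarith
  · obtain ⟨M, hM⟩ := hD.bdd
    have hM0 : 0 ≤ M := (norm_nonneg _).trans (hM 0 0)
    refine ⟨M * Real.exp 1, fun x y => ?_⟩
    have he : 1 ≤ Real.exp 1 := Real.one_le_exp zero_le_one
    rcases le_total ‖(y:ℂ)‖ 1 with hy | hy
    · apply dv_max hD.diff h0 hy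
      intro τ hτ
      have h1 := line_growth hD.spec hM x 0 0 1 (by norm_num) τ
      have e : line D ((x:ℂ), ((0:ℝ):ℂ)) (((0:ℝ):ℂ), ((1:ℝ):ℂ)) τ = D ((x:ℂ), τ) := by
        simp [line]
      rw [e] at h1
      refine h1.trans ?_
      apply mul_le_mul_of_nonneg_left _ hM0
      apply Real.exp_le_exp.2
      exact (Complex.abs_im_le_norm _).trans hτ.le
    · have hy0 : (y:ℂ) ≠ 0 := by
        intro h; rw [h, norm_zero] at hy; linarith
      rw [dv_ne h0 (p := ((x:ℂ), (y:ℂ))) hy0, norm_div]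
      have h1 : ‖D ((x:ℂ), (y:ℂ))‖ / ‖(y:ℂ)‖ ≤ ‖D ((x:ℂ), (y:ℂ))‖ := div_le_self (norm_nonneg _) hy
      have h2 := hM x y
      nlinarith

lemma div_snd {D : ℂ × ℂ → ℂ} (hD : Cls D) (h0 : ∀ s, D (s, 0) = 0) :
    ∃ E, Cls E ∧ ∀ p q, D (p, q) = q * E (p, q) :=
  ⟨NE.dv D, hD.dv h0, fun p q => (dv_mul h0 (p, q)).symm⟩

lemma div_fst {D : ℂ × ℂ → ℂ} (hD : Cls D) (h0 : ∀ s, D (0, s) = 0) :
    ∃ E, Cls E ∧ ∀ p q, D (p, q) = p * E (p, q) := by
  obtain ⟨E, hE, h⟩ := div_snd hD.swap h0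
  refine ⟨fun z => E (z.2, z.1), hE.swap, fun p q => ?_⟩
  exact h q p

/-- a continuous function vanishing off `q = 0` -/
lemma zero_of_mul {f : ℂ → ℂ} (hf : Continuous f) (h : ∀ p, p ≠ 0 → f p = 0) (p : ℂ) : f p = 0 := by
  have hcl : IsClosed {p | f p = 0} := isClosed_eq hf continuous_const
  have hd : Dense ({0}ᶜ : Set ℂ) := dense_compl_singleton 0
  have hsub : ({0}ᶜ : Set ℂ) ⊆ {p | f p = 0} := fun p hp => h p hp
  have := hcl.closure_subset_iff.2 hsub
  rw [hd.closure_eq] at this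
  exact this (mem_univ p)

/-- functions vanishing on both axes -/
theorem div_axes {D : ℂ × ℂ → ℂ} (hD : Cls D) (h1 : ∀ s, D (0, s) = 0) (h2 : ∀ s, D (s, 0) = 0) :
    ∃ E, Cls E ∧ ∀ p q, D (p, q) = p * q * E (p, q) := by
  obtain ⟨E1, hE1, e1⟩ := div_fst hD h1
  have h3 : ∀ s, E1 (s, 0) = 0 := by
    intro s
    refine zero_of_mul (f := fun s => E1 (s, 0)) ?_ ?_ s
    · exact hE1.diff.continuous.comp (by fun_prop)
    · intro p hp
      have := e1 p 0
      rw [h2] at this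
      exact (mul_eq_zero.1 this.symm).resolve_left hp
  obtain ⟨E2, hE2, e2⟩ := div_snd hE1 h3
  refine ⟨E2, hE2, fun p q => ?_⟩
  rw [e1, e2]; ring

/-- functions vanishing to second order on both axes -/
theorem div_axes2 {D : ℂ × ℂ → ℂ} (hD : Cls D) (h1 : ∀ s, D (0, s) = 0) (h2 : ∀ s, D (s, 0) = 0)
    (h3 : ∀ s, deriv (fun t => D (t, s)) 0 = 0) (h4 : ∀ s, deriv (fun t => D (s, t)) 0 = 0) :
    ∃ E, Cls E ∧ ∀ p q, D (p, q) = p ^ 2 * q ^ 2 * E (p, q) := by
  obtain ⟨E1, hE1, e1⟩ := div_axes hD h1 h2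
  have hc1 : ∀ s, E1 (0, s) = 0 := by
    intro s
    refine zero_of_mul (f := fun s => E1 (0, s)) ?_ ?_ s
    · exact hE1.diff.continuous.comp (by fun_prop)
    · intro q hq
      have hd : HasDerivAt (fun t : ℂ => D (t, q)) (q * E1 (0, q)) 0 := by
        have e : (fun t : ℂ => D (t, q)) = fun t => t * (q * E1 (t, q)) := by
          ext t; rw [e1]; ring
        rw [e]
        have hdf : Differentiable ℂ (fun t : ℂ => q * E1 (t, q)) :=
          (hE1.diff.comp (f := fun t : ℂ => (t, q)) (by fun_prop)).const_mul q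
        exact hasDerivAt_mul_zero (hdf 0)
      have := hd.deriv
      rw [h3] at this
      exact (mul_eq_zero.1 this.symm).resolve_left hq
  have hc2 : ∀ s, E1 (s, 0) = 0 := by
    intro s
    refine zero_of_mul (f := fun s => E1 (s, 0)) ?_ ?_ s
    · exact hE1.diff.continuous.comp (by fun_prop)
    · intro q hq
      have hd : HasDerivAt (fun t : ℂ => D (q, t)) (q * E1 (q, 0)) 0 := by
        have e : (fun t : ℂ => D (q, t)) = fun t => t * (q * E1 (q, t)) := by
          ext t; rw [e1]; ring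
        rw [e]
        have hdf : Differentiable ℂ (fun t : ℂ => q * E1 (q, t)) :=
          (hE1.diff.comp (f := fun t : ℂ => (q, t)) (by fun_prop)).const_mul q
        exact hasDerivAt_mul_zero (hdf 0)
      have := hd.deriv
      rw [h4] at this
      exact (mul_eq_zero.1 this.symm).resolve_left hq
  obtain ⟨E2, hE2, e2⟩ := div_axes hE1 hc1 hc2
  refine ⟨E2, hE2, fun p q => ?_⟩
  rw [e1, e2]; ring

end Pool.Agent.L7h30.NE
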