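import Pool.Agent.L7h30.NE.Par

/-!
# Explicit normal extremals
-/

set_option autoImplicit false

open Complex Filter Topology Metric Set
open scoped ComplexConjugate
open Pool.Agent.Helper797.Bs
open Pool.Agent.K7.H38.MD

namespace Pool.Agent.L7h30.NE

/-- entire functions with the growth of the spectrum disc -/
structure Gr (F : ℂ × ℂ → ℂ) : Prop where
  diff : Differentiable ℂ F
  growth : ∀ ε > 0, ∃ C : ℝ, ∀ z : ℂ × ℂ,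
    ‖F z‖ ≤ C * Real.exp (√(z.1.im ^ 2 + z.2.im ^ 2) + ε * ‖z‖)

lemma Cls.gr {F : ℂ × ℂ → ℂ} (h : Cls F) : Gr F := ⟨h.diff, h.growth⟩

lemma Gr.add {F G : ℂ × ℂ → ℂ} (hF : Gr F) (hG : Gr G) : Gr (fun z => F z + G z) := by
  refine ⟨hF.diff.add hG.diff, fun ε hε => ?_⟩
  obtain ⟨C, hC⟩ := hF.growth ε hε
  obtain ⟨D, hD⟩ := hG.growth ε hε
  refine ⟨C + D, fun z => ?_⟩
  rw [add_mul]
  exact (norm_add_le _ _).trans (add_le_add (hC z) (hD z))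

lemma Gr.const_mul {F : ℂ × ℂ → ℂ} (hF : Gr F) (c : ℂ) : Gr (fun z => c * F z) := by
  refine ⟨hF.diff.const_mul c, fun ε hε => ?_⟩
  obtain ⟨C, hC⟩ := hF.growth ε hε
  refine ⟨‖c‖ * C, fun z => ?_⟩
  rw [norm_mul, mul_assoc]
  exact mul_le_mul_of_nonneg_left (hC z) (norm_nonneg c)

/-- multiplication by a linear form -/
lemma Gr.lin_mul {F : ℂ × ℂ → ℂ} (hF : Gr F) {L : ℂ × ℂ → ℂ} (hL : Differentiable ℂ L) {A : ℝ}
    (hA : 0 ≤ A) (hb : ∀ z, ‖L z‖ ≤ A * ‖z‖) : Gr (fun z => L z * F z) := by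
  refine ⟨hL.mul hF.diff, fun ε hε => ?_⟩
  obtain ⟨C, hC⟩ := hF.growth (ε / 2) (by positivity)
  have hC0 := growth_nonneg hC
  refine ⟨A * (2 / ε) * C, fun z => ?_⟩
  have h2 : ‖z‖ ≤ 2 / ε * Real.exp (ε / 2 * ‖z‖) := by
    have := Real.add_one_le_exp (ε / 2 * ‖z‖)
    rw [div_mul_eq_mul_div, le_div_iff₀ hε]
    linarith
  rw [norm_mul]
  have e : √(z.1.im ^ 2 + z.2.im ^ 2) + ε * ‖z‖
      = ε / 2 * ‖z‖ + (√(z.1.im ^ 2 + z.2.im ^ 2) + ε / 2 * ‖z‖) := by ring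
  rw [e, Real.exp_add]
  calc ‖L z‖ * ‖F z‖ ≤ (A * (2 / ε * Real.exp (ε / 2 * ‖z‖))) *
        (C * Real.exp (√(z.1.im ^ 2 + z.2.im ^ 2) + ε / 2 * ‖z‖)) := by
          gcongr
          · exact (hb z).trans (by gcongr)
          · exact hC z
    _ = _ := by ring

lemma Gr.fst_mul {F : ℂ × ℂ → ℂ} (hF : Gr F) : Gr (fun z => z.1 * F z) :=
  hF.lin_mul (by fun_prop) zero_le_one (fun z => by rw [one_mul]; exact norm_fst_le z)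

lemma Gr.snd_mul {F : ℂ × ℂ → ℂ} (hF : Gr F) : Gr (fun z => z.2 * F z) :=
  hF.lin_mul (by fun_prop) zero_le_one (fun z => by rw [one_mul]; exact norm_snd_le z)

lemma Gr.sq_mul {F : ℂ × ℂ → ℂ} (hF : Gr F) : Gr (fun z => (z.1 ^ 2 - z.2 ^ 2) * F z) := by
  have h := (hF.fst_mul.fst_mul).add ((hF.snd_mul.snd_mul).const_mul (-1))
  have e : (fun z : ℂ × ℂ => (z.1 ^ 2 - z.2 ^ 2) * F z)
      = fun z => z.1 * (z.1 * F z) + -1 * (z.2 * (z.2 * F z)) := by ext z; ring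
  rw [e]; exact h

lemma Gr.of_even {G : ℂ → ℂ} (hG : Differentiable ℂ G) {K : ℝ} (hK : 0 ≤ K)
    (hb : ∀ z1 z2 : ℂ, ‖G (z1 ^ 2 + z2 ^ 2)‖ ≤ K * Real.exp √(z1.im ^ 2 + z2.im ^ 2)) :
    Gr (fun z => G (z.1 ^ 2 + z.2 ^ 2)) := by
  refine ⟨hG.comp (f := fun z : ℂ × ℂ => z.1 ^ 2 + z.2 ^ 2) (by fun_prop), fun ε hε => ?_⟩
  refine ⟨K, fun z => (hb z.1 z.2).trans ?_⟩
  gcongr
  have := norm_nonneg z
  nlinarith

lemma B_of_gr {f : ℝ × ℝ → ℂ} {F : ℂ × ℂ → ℂ} (hF : Gr F)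
    (hf : ∀ x y : ℝ, f (x, y) = F ((x : ℂ), (y : ℂ))) {M : ℝ} (hM : ∀ p, ‖f p‖ ≤ M) : f ∈ B :=
  mem_B.2 ⟨F, ⟨hF.diff, hF.growth, ⟨M, fun x y => by rw [← hf]; exact hM _⟩⟩, hf⟩

/-- `V(w) = (sin s / s + 2 cos s / w) / w`, `s² = w + π²/4` -/
noncomputable def V : ℂ → ℂ := dslope (fun w => sw w + 2 * H w) 0

lemma swH_zero : sw 0 + 2 * H 0 = 0 := by
  have ha : (a : ℂ) ≠ 0 := by exact_mod_cast a_pos.ne'
  rw [H_zero, sw_eq (s := (a:ℂ)) (by ring), snc_ne ha, sin_a]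
  field_simp
  ring

lemma V_diff : Differentiable ℂ V := by
  have h1 : Differentiable ℂ (fun w => sw w + 2 * H w) := sw_diff.add (H_diff.const_mul 2)
  have h : DifferentiableOn ℂ V univ :=
    (Complex.differentiableOn_dslope (by simp)).2 h1.differentiableOn
  exact fun z => (h z (mem_univ z)).differentiableAt (by simp)

lemma V_ne {w : ℂ} (hw : w ≠ 0) : V w = (sw w + 2 * H w) / w := by
  unfold V
  rw [dslope_of_ne _ hw, slope_def_field, swH_zero]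
  simp

lemma V_growth : ∃ K : ℝ, 0 ≤ K ∧ ∀ z1 z2 : ℂ,
    ‖V (z1 ^ 2 + z2 ^ 2)‖ ≤ K * Real.exp √(z1.im ^ 2 + z2.im ^ 2) := by
  obtain ⟨C, hC⟩ := (isCompact_closedBall (0 : ℂ) 1).exists_bound_of_continuousOn
    V_diff.continuous.continuousOn
  obtain ⟨K1, hK1, hb1⟩ := sw_growth
  obtain ⟨K2, hK2, hb2⟩ := H_growth
  refine ⟨max C (K1 + 2 * K2), le_max_of_le_right (by positivity), fun z1 z2 => ?_⟩
  have he : 1 ≤ Real.exp √(z1.im ^ 2 + z2.im ^ 2) := Real.one_le_exp (Real.sqrt_nonneg _)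
  have h3 : (0:ℝ) ≤ max C (K1 + 2 * K2) := le_max_of_le_right (by positivity)
  rcases le_total ‖z1 ^ 2 + z2 ^ 2‖ 1 with h | h
  · have h1 := hC (z1 ^ 2 + z2 ^ 2) (by simpa using h)
    have h2 : C ≤ max C (K1 + 2 * K2) := le_max_left _ _
    nlinarith
  · have hne : z1 ^ 2 + z2 ^ 2 ≠ 0 := by
      intro h0; rw [h0, norm_zero] at h; linarith
    rw [V_ne hne, norm_div]
    have h1 := hb1 z1 z2
    have h2 := hb2 z1 z2
    have h4 : ‖sw (z1 ^ 2 + z2 ^ 2) + 2 * H (z1 ^ 2 + z2 ^ 2)‖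
        ≤ (K1 + 2 * K2) * Real.exp √(z1.im ^ 2 + z2.im ^ 2) := by
      refine (norm_add_le _ _).trans ?_
      rw [norm_mul]
      have : ‖(2:ℂ)‖ = 2 := by norm_num
      rw [this]
      linarith
    have h5 : ‖sw (z1 ^ 2 + z2 ^ 2) + 2 * H (z1 ^ 2 + z2 ^ 2)‖ / ‖z1 ^ 2 + z2 ^ 2‖
        ≤ ‖sw (z1 ^ 2 + z2 ^ 2) + 2 * H (z1 ^ 2 + z2 ^ 2)‖ := div_le_self (norm_nonneg _) h
    have h6 : K1 + 2 * K2 ≤ max C (K1 + 2 * K2) := le_max_right _ _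
    nlinarith [Real.exp_pos √(z1.im ^ 2 + z2.im ^ 2)]

/-- the imaginary part of the explicit extremal with parameters `b, c, d` -/
noncomputable def Jx (b c d : ℝ) (p : ℝ × ℝ) : ℝ :=
  (b + c * p.1 + d * p.2) * sgm p + (p.1 ^ 2 - p.2 ^ 2) / (2 * (p.1 ^ 2 + p.2 ^ 2)) *
    (b * (c ^ 2 - d ^ 2) / (a ^ 2 - b ^ 2) * Real.cos √(p.1 ^ 2 + p.2 ^ 2 + a ^ 2)
      - (c * p.1 - d * p.2) * (sgm p
        + 2 * Real.cos √(p.1 ^ 2 + p.2 ^ 2 + a ^ 2) / (p.1 ^ 2 + p.2 ^ 2)))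

/-- its entire extension -/
noncomputable def JF (b c d : ℝ) (z : ℂ × ℂ) : ℂ :=
  ((b:ℂ) + c * z.1 + d * z.2) * sw (z.1 ^ 2 + z.2 ^ 2) + (z.1 ^ 2 - z.2 ^ 2) *
    ((((b * (c ^ 2 - d ^ 2) / (a ^ 2 - b ^ 2) / 2 : ℝ)) : ℂ) * H (z.1 ^ 2 + z.2 ^ 2)
      + ((-c / 2 : ℝ) : ℂ) * (z.1 * V (z.1 ^ 2 + z.2 ^ 2))
      + ((d / 2 : ℝ) : ℂ) * (z.2 * V (z.1 ^ 2 + z.2 ^ 2)))

lemma JF_gr (b c d : ℝ) : Gr (JF b c d) := by
  obtain ⟨K2, hK2, hb2⟩ := H_growth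
  obtain ⟨K3, hK3, hb3⟩ := V_growth
  have hH := Gr.of_even H_diff hK2 hb2
  have hV := Gr.of_even V_diff hK3 hb3
  exact (Cls_lin b c d).gr.add (((hH.const_mul _).add (hV.fst_mul.const_mul _)).add
    (hV.snd_mul.const_mul _)).sq_mul

lemma H_real {r : ℝ} (hr : 0 < r) : H (r:ℂ) = ((Real.cos √(r + a ^ 2) / r : ℝ) : ℂ) := by
  rw [H_ne (by exact_mod_cast hr.ne'), cw_real hr.le]
  push_cast; rfl

lemma JF_real (b c d x y : ℝ) : JF b c d ((x:ℂ), (y:ℂ)) = ((Jx b c d (x, y) : ℝ) : ℂ) := by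
  rcases eq_or_ne (x ^ 2 + y ^ 2) 0 with h | h
  · have hx : x = 0 := by nlinarith [sq_nonneg x, sq_nonneg y]
    have hy : y = 0 := by nlinarith [sq_nonneg x, sq_nonneg y]
    subst hx; subst hy
    have := sw_real2 0 0
    unfold JF Jx
    simp only [Complex.ofReal_zero] at this ⊢
    rw [this]
    push_cast
    simp
  · have hpos : 0 < x ^ 2 + y ^ 2 := lt_of_le_of_ne (by positivity) (Ne.symm h)
    have hc : (x : ℂ) ^ 2 + (y : ℂ) ^ 2 ≠ 0 := by exact_mod_cast h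
    have e : (x : ℂ) ^ 2 + (y : ℂ) ^ 2 = ((x ^ 2 + y ^ 2 : ℝ) : ℂ) := by push_cast; ring
    unfold JF Jx
    simp only
    rw [V_ne hc, sw_real2, e, H_real hpos]
    have hpc : ((x ^ 2 + y ^ 2 : ℝ) : ℂ) ≠ 0 := by exact_mod_cast hpos.ne'
    push_cast at hpc ⊢
    field_simp
    ring

/-- the explicit normal extremal with parameters `b, c, d` -/
noncomputable def fex (b c d : ℝ) (p : ℝ × ℝ) : ℂ := fs p + I * (Jx b c d p : ℂ)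

lemma wt_div {r2 : ℝ} (hr : 0 < r2) : 1 / (1 + r2 ^ 2) ≤ wt r2 / r2 ^ 2 := by
  rw [div_le_div_iff₀ (by positivity) (by positivity)]
  unfold wt
  rcases le_total 1 (r2 ^ 2) with h | h
  · rw [min_eq_left h]; linarith
  · rw [min_eq_right h]; nlinarith [sq_nonneg r2]

lemma fex_gap {b c d : ℝ} (h1 : b ^ 2 / a ^ 2 + (c + d) ^ 2 / 2 ≤ 1)
    (h2 : b ^ 2 / a ^ 2 + (c - d) ^ 2 / 2 ≤ 1) (p : ℝ × ℝ) : ‖fex b c d p‖ ≤
      1 - 1 / 8000 * ((p.1 ^ 2 - p.2 ^ 2) ^ 2 * (1 / (1 + (p.1 ^ 2 + p.2 ^ 2) ^ 2))) := by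
  obtain ⟨x, y⟩ := p
  have ha := a_pos
  simp only
  set t : ℝ := (x ^ 2 - y ^ 2) ^ 2 * (1 / (1 + (x ^ 2 + y ^ 2) ^ 2)) with ht
  have ht0 : 0 ≤ t := by positivity
  have ht1 : t ≤ 1 := by
    rw [ht, mul_one_div, div_le_one (by positivity)]
    nlinarith [mul_nonneg (sq_nonneg x) (sq_nonneg y)]
  have key : ‖fex b c d (x, y)‖ ^ 2 ≤ 1 - 1 / 4000 * t := by
    unfold fex fs
    rw [mul_comm I]
    rw [Complex.sq_norm, Complex.normSq_add_mul_I, neg_sq]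
    rcases eq_or_ne (x ^ 2 + y ^ 2) 0 with h | h
    · have hx : x = 0 := by nlinarith [sq_nonneg x, sq_nonneg y]
      have hy : y = 0 := by nlinarith [sq_nonneg x, sq_nonneg y]
      have ht00 : t = 0 := by rw [ht, hx, hy]; simp
      rw [ht00]
      subst hx; subst hy
      unfold Jx sgm
      simp only [mul_zero, zero_mul, ne_eq, OfNat.ofNat_ne_zero, not_false_eq_true, zero_pow,
        zero_add, add_zero, div_zero, sub_self, sub_zero]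
      rw [Real.sqrt_sq ha.le]
      have : Real.sin a = 1 := by unfold a; exact Real.sin_pi_div_two
      rw [this]
      have h3 := sq_nonneg (c + d)
      have h4 : (b * (1 / a)) ^ 2 = b ^ 2 / a ^ 2 := by field_simp
      rw [h4]
      linarith
    · have hpos : 0 < x ^ 2 + y ^ 2 := lt_of_le_of_ne (by positivity) (Ne.symm h)
      have hsp : 0 < x ^ 2 + y ^ 2 + a ^ 2 := by positivity
      set s := √(x ^ 2 + y ^ 2 + a ^ 2) with hs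
      have hs0 : 0 < s := Real.sqrt_pos.2 hsp
      have hs2 : s ^ 2 = x ^ 2 + y ^ 2 + a ^ 2 := Real.sq_sqrt hsp.le
      have k := general (x := x) (y := y) (r2 := x ^ 2 + y ^ 2)
        (m := (x ^ 2 - y ^ 2) / (2 * (x ^ 2 + y ^ 2))) (s := s) hpos hs2 hs0
        (by field_simp; ring) (by field_simp; ring) h1 h2
      have e1 : Jx b c d (x, y) = (b + c * x + d * y) * (Real.sin s / s)
          + (x ^ 2 - y ^ 2) / (2 * (x ^ 2 + y ^ 2)) *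
            (b * (c ^ 2 - d ^ 2) / (a ^ 2 - b ^ 2) * Real.cos s
        - (c * x - d * y) * (Real.sin s / s + 2 * Real.cos s / (x ^ 2 + y ^ 2))) := rfl
      rw [e1]
      have e2 : (2 * x * y / (x ^ 2 + y ^ 2) * Real.cos s) ^ 2
          = (1 - 4 * ((x ^ 2 - y ^ 2) / (2 * (x ^ 2 + y ^ 2))) ^ 2) * Real.cos s ^ 2 := by
        rw [mul_pow]
        congr 1
        field_simp
        ring
      simp only
      rw [e2]
      have h3 := Real.sin_sq_add_cos_sq s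
      have h4 : 1 / 4000 * t ≤ 1 / 1000 * ((x ^ 2 - y ^ 2) / (2 * (x ^ 2 + y ^ 2))) ^ 2
          * wt (x ^ 2 + y ^ 2) := by
        have h5 := wt_div hpos
        have h6 := mul_le_mul_of_nonneg_left h5 (sq_nonneg (x ^ 2 - y ^ 2))
        have e3 : 1 / 1000 * ((x ^ 2 - y ^ 2) / (2 * (x ^ 2 + y ^ 2))) ^ 2 * wt (x ^ 2 + y ^ 2)
            = 1 / 4000 * ((x ^ 2 - y ^ 2) ^ 2 * (wt (x ^ 2 + y ^ 2) / (x ^ 2 + y ^ 2) ^ 2)) := by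
          field_simp
          ring
        rw [e3, ht]
        linarith
      linarith
  have h5 : (0:ℝ) ≤ 1 - 1 / 8000 * t := by linarith
  have h6 : ‖fex b c d (x, y)‖ ^ 2 ≤ (1 - 1 / 8000 * t) ^ 2 := by nlinarith [sq_nonneg t]
  exact le_of_sq_le_sq h6 h5

lemma fex_le {b c d : ℝ} (h1 : b ^ 2 / a ^ 2 + (c + d) ^ 2 / 2 ≤ 1)
    (h2 : b ^ 2 / a ^ 2 + (c - d) ^ 2 / 2 ≤ 1) (p : ℝ × ℝ) : ‖fex b c d p‖ ≤ 1 := by
  have h := fex_gap h1 h2 p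
  have : 0 ≤ (p.1 ^ 2 - p.2 ^ 2) ^ 2 * (1 / (1 + (p.1 ^ 2 + p.2 ^ 2) ^ 2)) := by positivity
  linarith

lemma fex_mem {b c d : ℝ} (h1 : b ^ 2 / a ^ 2 + (c + d) ^ 2 / 2 ≤ 1)
    (h2 : b ^ 2 / a ^ 2 + (c - d) ^ 2 / 2 ≤ 1) : fex b c d ∈ B :=
  B_of_gr (Cls_Fs.gr.add ((JF_gr b c d).const_mul I)) (fun x y => by
    unfold fex; rw [fs_eq, JF_real]) (fex_le h1 h2)

/-- perturbations of the explicit extremals -/
lemma fexe_le {b c d : ℝ} (h1 : b ^ 2 / a ^ 2 + (c + d) ^ 2 / 2 ≤ 1)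
    (h2 : b ^ 2 / a ^ 2 + (c - d) ^ 2 / 2 ≤ 1) {e : ℝ × ℝ → ℂ}
    (he : ∀ p : ℝ × ℝ, (1 + (p.1 ^ 2 + p.2 ^ 2) ^ 2) * ‖e p‖ ≤ 1 / 8000) (p : ℝ × ℝ) :
    ‖fex b c d p + (((p.1 ^ 2 - p.2 ^ 2) ^ 2 : ℝ) : ℂ) * e p‖ ≤ 1 := by
  have h := fex_gap h1 h2 p
  have hep := he p
  have h3 : ‖(((p.1 ^ 2 - p.2 ^ 2) ^ 2 : ℝ) : ℂ) * e p‖
      ≤ 1 / 8000 * ((p.1 ^ 2 - p.2 ^ 2) ^ 2 * (1 / (1 + (p.1 ^ 2 + p.2 ^ 2) ^ 2))) := by
    rw [norm_mul, Complex.norm_real, Real.norm_eq_abs, abs_of_nonneg (by positivity)]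
    have hpos : 0 < 1 + (p.1 ^ 2 + p.2 ^ 2) ^ 2 := by positivity
    have h4 : ‖e p‖ ≤ 1 / 8000 * (1 / (1 + (p.1 ^ 2 + p.2 ^ 2) ^ 2)) := by
      rw [mul_one_div, le_div_iff₀ hpos]
      linarith
    have h5 := mul_le_mul_of_nonneg_left h4 (sq_nonneg (p.1 ^ 2 - p.2 ^ 2))
    linarith
  exact (norm_add_le _ _).trans (by linarith)

lemma fexe_mem {b c d : ℝ} (h1 : b ^ 2 / a ^ 2 + (c + d) ^ 2 / 2 ≤ 1)
    (h2 : b ^ 2 / a ^ 2 + (c - d) ^ 2 / 2 ≤ 1) {e : ℝ × ℝ → ℂ} (he0 : e ∈ B)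
    (he : ∀ p : ℝ × ℝ, (1 + (p.1 ^ 2 + p.2 ^ 2) ^ 2) * ‖e p‖ ≤ 1 / 8000) :
    (fun p : ℝ × ℝ => fex b c d p + (((p.1 ^ 2 - p.2 ^ 2) ^ 2 : ℝ) : ℂ) * e p) ∈ B := by
  obtain ⟨E, hE, hEe⟩ := mem_B.1 he0
  refine B_of_gr ((Cls_Fs.gr.add ((JF_gr b c d).const_mul I)).add hE.gr.sq_mul.sq_mul)
    (fun x y => ?_) (fexe_le h1 h2 he)
  simp only
  unfold fex
  rw [fs_eq, JF_real, hEe]
  push_cast
  ring

/-- the second family -/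
lemma fe_le {e : ℝ × ℝ → ℂ} (he : ∀ p : ℝ × ℝ, (p.1 ^ 2 + p.2 ^ 2) ^ 2 * ‖e p‖ ≤ 1 / 2)
    (p : ℝ × ℝ) : ‖fs p + (((p.1 ^ 2 - p.2 ^ 2) ^ 2 : ℝ) : ℂ) * e p‖ ≤ 1 := by
  obtain ⟨x, y⟩ := p
  have hep := he (x, y)
  simp only at hep ⊢
  rcases eq_or_ne (x ^ 2 + y ^ 2) 0 with h | h
  · have hx : x = 0 := by nlinarith [sq_nonneg x, sq_nonneg y]
    have hy : y = 0 := by nlinarith [sq_nonneg x, sq_nonneg y]
    subst hx; subst hy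
    unfold fs
    simp
  · have hpos : 0 < x ^ 2 + y ^ 2 := lt_of_le_of_ne (by positivity) (Ne.symm h)
    have h1 : ‖fs (x, y)‖ ≤ 1 - (x ^ 2 - y ^ 2) ^ 2 / (2 * (x ^ 2 + y ^ 2) ^ 2) := by
      unfold fs
      rw [Complex.norm_real, Real.norm_eq_abs, abs_neg, abs_mul]
      simp only
      have h2 := Real.abs_cos_le_one √(x ^ 2 + y ^ 2 + a ^ 2)
      set t := (x ^ 2 - y ^ 2) ^ 2 / (2 * (x ^ 2 + y ^ 2) ^ 2) with ht
      have ht0 : 0 ≤ t := by positivity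
      have ht1 : 2 * t = 1 - (2 * x * y / (x ^ 2 + y ^ 2)) ^ 2 := by
        rw [ht]; field_simp; ring
      have ht2 : t ≤ 1 / 2 := by nlinarith [sq_nonneg (2 * x * y / (x ^ 2 + y ^ 2))]
      have h3 : |2 * x * y / (x ^ 2 + y ^ 2)| ≤ 1 - t := by
        apply abs_le_of_sq_le_sq _ (by linarith)
        nlinarith [sq_nonneg t]
      calc |2 * x * y / (x ^ 2 + y ^ 2)| * |Real.cos √(x ^ 2 + y ^ 2 + a ^ 2)|
          ≤ (1 - t) * 1 := by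
            apply mul_le_mul h3 h2 (abs_nonneg _) (by linarith)
        _ = 1 - t := mul_one _
    have h4 : ‖(((x ^ 2 - y ^ 2) ^ 2 : ℝ) : ℂ) * e (x, y)‖
        ≤ (x ^ 2 - y ^ 2) ^ 2 / (2 * (x ^ 2 + y ^ 2) ^ 2) := by
      rw [norm_mul, Complex.norm_real, Real.norm_eq_abs, abs_of_nonneg (by positivity),
        le_div_iff₀ (by positivity)]
      have h5 := mul_le_mul_of_nonneg_left hep (sq_nonneg (x ^ 2 - y ^ 2))
      nlinarith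
    have := norm_add_le (fs (x, y)) ((((x ^ 2 - y ^ 2) ^ 2 : ℝ) : ℂ) * e (x, y))
    linarith

lemma fe_mem {e : ℝ × ℝ → ℂ} (he0 : e ∈ B)
    (he : ∀ p : ℝ × ℝ, (p.1 ^ 2 + p.2 ^ 2) ^ 2 * ‖e p‖ ≤ 1 / 2) :
    (fun p : ℝ × ℝ => fs p + (((p.1 ^ 2 - p.2 ^ 2) ^ 2 : ℝ) : ℂ) * e p) ∈ B := by
  obtain ⟨E, hE, hEe⟩ := mem_B.1 he0
  refine B_of_gr (Cls_Fs.gr.add hE.gr.sq_mul.sq_mul) (fun x y => ?_) (fe_le he)
  simp only
  rw [fs_eq, hEe]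
  push_cast
  ring

end Pool.Agent.L7h30.NE
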