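import Pool.Agent.L7h30.NE.Exs

/-!
# Characterisation, uniqueness and range of the parameters
-/

set_option autoImplicit false

open Complex Filter Topology Metric Set
open scoped ComplexConjugate
open Pool.Agent.Helper797.Bs
open Pool.Agent.K7.H38.MD

namespace Pool.Agent.L7h30.NE

/-- `x_k = π √((k² - 1/4) / 2)` -/
noncomputable def xk (k : ℕ) : ℝ := Real.pi * √(((k:ℝ) ^ 2 - 1 / 4) / 2)

lemma xk_eq (k : ℕ) : xk k = hs * tk k := by
  unfold xk tk hs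
  have h2 : √(1 / 2 : ℝ) * √((k:ℝ) ^ 2 - 1 / 4) = √(((k:ℝ) ^ 2 - 1 / 4) / 2) := by
    rw [← Real.sqrt_mul (by norm_num)]
    congr 1; ring
  rw [← h2]; ring

/-- the values at the nodes -/
def NodesR (f : ℝ × ℝ → ℂ) : Prop := ∀ k : ℕ, 1 ≤ k →
  (f (xk k, xk k) = (-1) ^ (k + 1) ∧ f (-xk k, -xk k) = (-1) ^ (k + 1)) ∧
  (f (xk k, -xk k) = (-1) ^ k ∧ f (-xk k, xk k) = (-1) ^ k)

lemma nodes_nodesR {f : ℝ × ℝ → ℂ} {F : ℂ × ℂ → ℂ}
    (hf : ∀ x y : ℝ, f (x, y) = F ((x : ℂ), (y : ℂ))) : Nodes F ↔ NodesR f := by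
  have e1 : ∀ k, F (rot ((tk k : ℝ), 0)) = f (xk k, xk k) := by
    intro k
    rw [hf, xk_eq]
    unfold rot
    push_cast
    simp
  have e2 : ∀ k, F (rot (-(tk k : ℝ), 0)) = f (-xk k, -xk k) := by
    intro k
    rw [hf, xk_eq]
    unfold rot
    push_cast
    simp
  have e3 : ∀ k, F (rot (0, (tk k : ℝ))) = f (xk k, -xk k) := by
    intro k
    rw [hf, xk_eq]
    unfold rot
    push_cast
    simp
  have e4 : ∀ k, F (rot (0, -(tk k : ℝ))) = f (-xk k, xk k) := by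
    intro k
    rw [hf, xk_eq]
    unfold rot
    push_cast
    simp
  unfold Nodes NodesR
  simp only [e1, e2, e3, e4]

/-- the form of `f` on the diagonals -/
def Diag (f : ℝ × ℝ → ℂ) (b c d : ℝ) : Prop := ∀ x : ℝ,
  f (x, x) = ((-Real.cos √(x ^ 2 + x ^ 2 + a ^ 2) : ℝ) : ℂ)
    + I * (((b + (c + d) * x) * sgm (x, x) : ℝ) : ℂ) ∧
  f (x, -x) = ((Real.cos √(x ^ 2 + x ^ 2 + a ^ 2) : ℝ) : ℂ)
    + I * (((b + (c - d) * x) * sgm (x, x) : ℝ) : ℂ)

/-- the structure of `f` -/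
def Form (f : ℝ × ℝ → ℂ) (b c d : ℝ) (e k : ℝ × ℝ → ℝ) : Prop :=
  (fun p => (e p : ℂ)) ∈ B ∧ (fun p => (k p : ℂ)) ∈ B ∧
  ∀ x y : ℝ, f (x, y) = fs (x, y) + (((x ^ 2 - y ^ 2) ^ 2 * e (x, y) : ℝ) : ℂ) +
        I * (((b + c * x + d * y) * sgm (x, y) + (x ^ 2 - y ^ 2) * k (x, y) : ℝ) : ℂ)

lemma fs_diag (x : ℝ) : fs (x, x) = ((-Real.cos √(x ^ 2 + x ^ 2 + a ^ 2) : ℝ) : ℂ) ∧
    fs (x, -x) = ((Real.cos √(x ^ 2 + x ^ 2 + a ^ 2) : ℝ) : ℂ) := by
  unfold fs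
  simp only [neg_sq]
  rcases eq_or_ne x 0 with rfl | hx
  · have : Real.cos √((0:ℝ) ^ 2 + 0 ^ 2 + a ^ 2) = 0 := by
      rw [zero_pow two_ne_zero, zero_add, zero_add, Real.sqrt_sq a_pos.le]
      unfold a; exact Real.cos_pi_div_two
    rw [this]
    simp
  · have hxx : x ^ 2 + x ^ 2 ≠ 0 := by positivity
    constructor
    · congr 1
      field_simp
      ring
    · congr 1
      field_simp
      ring

lemma sgm_neg (x y : ℝ) : sgm (x, -y) = sgm (x, y) := by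
  unfold sgm; simp only [neg_sq]

lemma diag_of_form {f : ℝ × ℝ → ℂ} {b c d : ℝ} {e k : ℝ × ℝ → ℝ} (h : Form f b c d e k) :
    Diag f b c d := by
  intro x
  constructor
  · rw [h.2.2 x x, (fs_diag x).1, sub_self]
    have : b + c * x + d * x = b + (c + d) * x := by ring
    rw [this]
    push_cast
    ring
  · rw [h.2.2 x (-x), (fs_diag x).2, neg_sq, sub_self, sgm_neg]
    have : b + c * x + d * -x = b + (c - d) * x := by ring
    rw [this]
    push_cast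
    ring

lemma sqrt_node {k : ℕ} (hk : 1 ≤ k) {x : ℝ} (hx : x ^ 2 = xk k ^ 2) :
    √(x ^ 2 + x ^ 2 + a ^ 2) = k * Real.pi := by
  have h1 : x ^ 2 + x ^ 2 + a ^ 2 = ((k:ℝ) * Real.pi) ^ 2 := by
    rw [hx, xk_eq, mul_pow]
    have := tk_sq hk
    have h2 := hs_sq
    have h3 : hs ^ 2 = 1 / 2 := by rw [sq]; exact h2
    rw [h3]
    linarith
  rw [h1, Real.sqrt_sq (by have := Real.pi_pos; positivity)]

lemma nodes_of_diag {f : ℝ × ℝ → ℂ} {b c d : ℝ} (h : Diag f b c d) : NodesR f := by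
  intro k hk
  have key : ∀ x : ℝ, x ^ 2 = xk k ^ 2 → f (x, x) = (-1) ^ (k + 1) ∧ f (x, -x) = (-1) ^ k := by
    intro x hx
    have h1 := sqrt_node hk hx
    have h2 : sgm (x, x) = 0 := by
      unfold sgm
      simp only
      rw [h1, Real.sin_nat_mul_pi, zero_div]
    have h3 : Real.cos √(x ^ 2 + x ^ 2 + a ^ 2) = (-1) ^ k := by
      rw [h1]; exact Real.cos_nat_mul_pi k
    obtain ⟨h4, h5⟩ := h x
    rw [h2, h3, mul_zero] at h4 h5
    rw [h4, h5, pow_succ]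
    push_cast
    constructor <;> ring
  obtain ⟨h1, h2⟩ := key (xk k) rfl
  obtain ⟨h3, h4⟩ := key (-xk k) (neg_sq _)
  rw [neg_neg] at h4
  exact ⟨⟨h1, h3⟩, ⟨h2, h4⟩⟩

/-- **The characterisation.** -/
theorem char {f : ℝ × ℝ → ℂ} (hf : f ∈ B) (hM : ∀ p, ‖f p‖ ≤ 1) :
    (T f 0 = ((2 / Real.pi : ℝ) : ℂ) ↔ NodesR f) ∧
    (T f 0 = ((2 / Real.pi : ℝ) : ℂ) ↔ ∃ b c d, Diag f b c d) ∧
    (T f 0 = ((2 / Real.pi : ℝ) : ℂ) ↔ ∃ b c d e k, Form f b c d e k) := by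
  obtain ⟨F, hF, hfF⟩ := mem_B.1 hf
  have h1 := T_iff hF hfF hM
  have h2 := nodes_nodesR hfF
  have h3 : Nodes F → ∃ b c d e k, Form f b c d e k := by
    intro hN
    obtain ⟨b, c, d, e, k, he, hk, h⟩ := structure_thm hF (fun x y => by rw [← hfF]; exact hM _) hN
    exact ⟨b, c, d, e, k, he, hk, fun x y => by rw [hfF]; exact h x y⟩
  have h4 : (∃ b c d e k, Form f b c d e k) → ∃ b c d, Diag f b c d := by
    rintro ⟨b, c, d, e, k, h⟩
    exact ⟨b, c, d, diag_of_form h⟩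
  have h5 : (∃ b c d, Diag f b c d) → NodesR f := by
    rintro ⟨b, c, d, h⟩
    exact nodes_of_diag h
  refine ⟨h1.trans h2, ⟨fun h => h4 (h3 (h1.1 h)), fun h => h1.2 (h2.2 (h5 h))⟩,
    ⟨fun h => h3 (h1.1 h), fun h => h1.2 (h2.2 (h5 (h4 h)))⟩⟩

lemma sgm_diag_zero : sgm ((0:ℝ), (0:ℝ)) ≠ 0 := by
  unfold sgm
  have := sw_real_ne0
  simpa using this

lemma sgm_diag_one : ∃ x : ℝ, x ≠ 0 ∧ sgm (x, x) ≠ 0 := by
  have ha := a_pos
  refine ⟨a / √2, by positivity, ?_⟩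
  unfold sgm
  simp only
  have : (a / √2) ^ 2 + (a / √2) ^ 2 = a ^ 2 := by
    rw [div_pow, Real.sq_sqrt (by norm_num)]; ring
  rw [this]
  exact sw_real_nea

/-- the parameters are determined by `f` -/
lemma diag_unique {f : ℝ × ℝ → ℂ} {b c d b' c' d' : ℝ} (h : Diag f b c d) (h' : Diag f b' c' d') :
    b = b' ∧ c = c' ∧ d = d' := by
  have key : ∀ x : ℝ, (b + (c + d) * x) * sgm (x, x) = (b' + (c' + d') * x) * sgm (x, x) ∧
      (b + (c - d) * x) * sgm (x, x) = (b' + (c' - d') * x) * sgm (x, x) := by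
    intro x
    obtain ⟨h1, h2⟩ := h x
    obtain ⟨h3, h4⟩ := h' x
    rw [h1] at h3
    rw [h2] at h4
    have h5 := mul_left_cancel₀ I_ne_zero (add_left_cancel h3)
    have h6 := mul_left_cancel₀ I_ne_zero (add_left_cancel h4)
    exact ⟨by exact_mod_cast h5, by exact_mod_cast h6⟩
  have hb : b = b' := by
    have := mul_right_cancel₀ sgm_diag_zero (key 0).1
    simpa using this
  obtain ⟨x, hx0, hx⟩ := sgm_diag_one
  have h1 := mul_right_cancel₀ hx (key x).1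
  have h2 := mul_right_cancel₀ hx (key x).2
  rw [hb] at h1 h2
  have h3 : c + d = c' + d' := mul_right_cancel₀ hx0 (add_left_cancel h1)
  have h4 : c - d = c' - d' := mul_right_cancel₀ hx0 (add_left_cancel h2)
  exact ⟨hb, by linarith, by linarith⟩

lemma B_cont {f : ℝ × ℝ → ℂ} (hf : f ∈ B) : Continuous f := by
  obtain ⟨F, hF, hfF⟩ := mem_B.1 hf
  have e : f = fun p : ℝ × ℝ => F ((p.1 : ℂ), (p.2 : ℂ)) := by
    ext p; exact hfF p.1 p.2
  rw [e]
  exact hF.diff.continuous.comp (by fun_prop)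

lemma eq_off_diag {e e' : ℝ × ℝ → ℝ} (he : (fun p => (e p : ℂ)) ∈ B)
    (he' : (fun p => (e' p : ℂ)) ∈ B) (h : ∀ x y : ℝ, x ^ 2 - y ^ 2 ≠ 0 → e (x, y) = e' (x, y)) :
    e = e' := by
  ext ⟨x, y⟩
  have hc : Continuous e := by
    have := Complex.continuous_re.comp (B_cont he)
    exact this
  have hc' : Continuous e' := by
    have := Complex.continuous_re.comp (B_cont he')
    exact this
  have hcl : IsClosed {t : ℝ | e (t, y) = e' (t, y)} :=
    isClosed_eq (hc.comp (by fun_prop)) (hc'.comp (by fun_prop))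
  have hd : Dense ({y, -y}ᶜ : Set ℝ) := (Set.toFinite {y, -y}).countable.dense_compl ℝ
  have hsub : ({y, -y}ᶜ : Set ℝ) ⊆ {t : ℝ | e (t, y) = e' (t, y)} := by
    intro t ht
    apply h
    intro h0
    apply ht
    have h1 : (t - y) * (t + y) = 0 := by linear_combination h0
    rcases mul_eq_zero.1 h1 with h2 | h2
    · left; linarith
    · right
      rw [mem_singleton_iff]; linarith
  have := hcl.closure_subset_iff.2 hsub
  rw [hd.closure_eq] at this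
  exact this (mem_univ x)

/-- **Uniqueness of the representation.** -/
theorem form_unique {f : ℝ × ℝ → ℂ} {b c d b' c' d' : ℝ} {e k e' k' : ℝ × ℝ → ℝ}
    (h : Form f b c d e k) (h' : Form f b' c' d' e' k') :
    b = b' ∧ c = c' ∧ d = d' ∧ e = e' ∧ k = k' := by
  obtain ⟨hb, hc, hd⟩ := diag_unique (diag_of_form h) (diag_of_form h')
  subst hb; subst hc; subst hd
  have key : ∀ x y : ℝ, (x ^ 2 - y ^ 2) ^ 2 * e (x, y) = (x ^ 2 - y ^ 2) ^ 2 * e' (x, y) ∧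
      (x ^ 2 - y ^ 2) * k (x, y) = (x ^ 2 - y ^ 2) * k' (x, y) := by
    intro x y
    have h1 := h.2.2 x y
    rw [h'.2.2 x y] at h1
    have hfsr : fs (x, y) = (((fs (x, y)).re : ℝ) : ℂ) := by
      unfold fs; rw [Complex.ofReal_re]
    rw [hfsr] at h1
    constructor
    · have h2 := congrArg Complex.re h1
      simp only [Complex.add_re, Complex.ofReal_re, Complex.mul_re, Complex.I_re, zero_mul,
        Complex.I_im, Complex.ofReal_im, mul_zero, sub_self, add_zero] at h2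
      linarith
    · have h2 := congrArg Complex.im h1
      simp only [Complex.add_im, Complex.ofReal_im, Complex.mul_im, Complex.I_re,
        Complex.I_im, Complex.ofReal_re, one_mul, zero_add, add_zero, mul_zero] at h2
      linarith
  refine ⟨rfl, rfl, rfl, eq_off_diag h.1 h'.1 fun x y hxy => ?_,
    eq_off_diag h.2.1 h'.2.1 fun x y hxy => ?_⟩
  · exact mul_left_cancel₀ (pow_ne_zero 2 hxy) (key x y).1
  · exact mul_left_cancel₀ hxy (key x y).2

/-- the zero set of the sine on a diagonal is countable -/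
lemma sin_dense : Dense {x : ℝ | Real.sin √(x ^ 2 + x ^ 2 + a ^ 2) ≠ 0} := by
  have hcount : ({x : ℝ | Real.sin √(x ^ 2 + x ^ 2 + a ^ 2) = 0}).Countable := by
    have hsub : {x : ℝ | Real.sin √(x ^ 2 + x ^ 2 + a ^ 2) = 0} ⊆
        ⋃ n : ℤ, {√((((n:ℝ) * Real.pi) ^ 2 - a ^ 2) / 2), -√((((n:ℝ) * Real.pi) ^ 2 - a ^ 2) / 2)} := by
      intro x hx
      obtain ⟨n, hn⟩ := Real.sin_eq_zero_iff.1 hx
      rw [mem_iUnion]
      refine ⟨n, ?_⟩
      have hpos : 0 ≤ x ^ 2 + x ^ 2 + a ^ 2 := by positivity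
      have h1 : ((n:ℝ) * Real.pi) ^ 2 = x ^ 2 + x ^ 2 + a ^ 2 := by
        rw [hn, Real.sq_sqrt hpos]
      have h2 : (((n:ℝ) * Real.pi) ^ 2 - a ^ 2) / 2 = x ^ 2 := by rw [h1]; ring
      rw [h2, Real.sqrt_sq_eq_abs]
      rcases abs_choice x with h | h
      · left; exact h.symm
      · right; rw [mem_singleton_iff, h]; ring
    exact (countable_iUnion fun n => (Set.toFinite _).countable).mono hsub
  have := hcount.dense_compl ℝ
  exact this

/-- the constraint on the parameters -/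
lemma quad {b u : ℝ} (h : ∀ x : ℝ, ‖((Real.cos √(x ^ 2 + x ^ 2 + a ^ 2) : ℝ) : ℂ)
    + I * (((b + u * x) * sgm (x, x) : ℝ) : ℂ)‖ ≤ 1) : b ^ 2 / a ^ 2 + u ^ 2 / 2 ≤ 1 := by
  have ha := a_pos
  have h1 : ∀ x : ℝ, Real.sin √(x ^ 2 + x ^ 2 + a ^ 2) ≠ 0 →
      (b + u * x) ^ 2 ≤ x ^ 2 + x ^ 2 + a ^ 2 := by
    intro x hx
    have hpos : 0 < x ^ 2 + x ^ 2 + a ^ 2 := by positivity
    have h2 := h x
    rw [mul_comm I] at h2
    have h3 : ‖((Real.cos √(x ^ 2 + x ^ 2 + a ^ 2) : ℝ) : ℂ)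
      + (((b + u * x) * sgm (x, x) : ℝ) : ℂ) * I‖ ^ 2 ≤ 1 := by
      have := norm_nonneg (((Real.cos √(x ^ 2 + x ^ 2 + a ^ 2) : ℝ) : ℂ)
        + (((b + u * x) * sgm (x, x) : ℝ) : ℂ) * I)
      nlinarith
    rw [Complex.sq_norm, Complex.normSq_add_mul_I] at h3
    unfold sgm at h3
    simp only at h3
    set s := √(x ^ 2 + x ^ 2 + a ^ 2) with hs
    have hs0 : 0 < s := Real.sqrt_pos.2 hpos
    have hs2 : s ^ 2 = x ^ 2 + x ^ 2 + a ^ 2 := Real.sq_sqrt hpos.le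
    have h4 := Real.sin_sq_add_cos_sq s
    have h5 : ((b + u * x) * (Real.sin s / s)) ^ 2 = (b + u * x) ^ 2 * Real.sin s ^ 2 / s ^ 2 := by
      field_simp
    rw [h5] at h3
    have h6 : (b + u * x) ^ 2 * Real.sin s ^ 2 / s ^ 2 ≤ Real.sin s ^ 2 := by linarith
    rw [div_le_iff₀ (by positivity)] at h6
    rw [← hs2]
    have h7 : 0 < Real.sin s ^ 2 := by positivity
    have h8 : Real.sin s ^ 2 * (b + u * x) ^ 2 ≤ Real.sin s ^ 2 * s ^ 2 := by linarith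
    exact le_of_mul_le_mul_left h8 h7
  have h2 : ∀ x : ℝ, (b + u * x) ^ 2 ≤ x ^ 2 + x ^ 2 + a ^ 2 := by
    intro x
    have hcl : IsClosed {x : ℝ | (b + u * x) ^ 2 ≤ x ^ 2 + x ^ 2 + a ^ 2} :=
      isClosed_le (by fun_prop) (by fun_prop)
    have hsub : {x : ℝ | Real.sin √(x ^ 2 + x ^ 2 + a ^ 2) ≠ 0} ⊆
        {x : ℝ | (b + u * x) ^ 2 ≤ x ^ 2 + x ^ 2 + a ^ 2} := fun x hx => h1 x hx
    have := hcl.closure_subset_iff.2 hsub
    rw [sin_dense.closure_eq] at this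
    exact this (mem_univ x)
  have h3 := discrim_le_zero (a := 2 - u ^ 2) (b := -(2 * b * u)) (c := a ^ 2 - b ^ 2) (by
    intro x
    have := h2 x
    nlinarith)
  unfold discrim at h3
  have h4 : 2 * b ^ 2 + u ^ 2 * a ^ 2 ≤ 2 * a ^ 2 := by nlinarith
  have e : b ^ 2 / a ^ 2 + u ^ 2 / 2 = (2 * b ^ 2 + u ^ 2 * a ^ 2) / (2 * a ^ 2) := by
    field_simp
  rw [e, div_le_one (by positivity)]
  exact h4

theorem range_nec {f : ℝ × ℝ → ℂ} {b c d : ℝ} (hM : ∀ p, ‖f p‖ ≤ 1) (h : Diag f b c d) :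
    b ^ 2 / a ^ 2 + (c + d) ^ 2 / 2 ≤ 1 ∧ b ^ 2 / a ^ 2 + (c - d) ^ 2 / 2 ≤ 1 := by
  constructor
  · apply quad
    intro x
    have h1 := hM (x, x)
    rw [(h x).1] at h1
    have e : ((Real.cos √(x ^ 2 + x ^ 2 + a ^ 2) : ℝ) : ℂ)
        + I * (((b + (c + d) * x) * sgm (x, x) : ℝ) : ℂ)
        = -conj (((-Real.cos √(x ^ 2 + x ^ 2 + a ^ 2) : ℝ) : ℂ)
        + I * (((b + (c + d) * x) * sgm (x, x) : ℝ) : ℂ)) := by
      rw [map_add, map_mul, Complex.conj_ofReal, Complex.conj_ofReal, Complex.conj_I]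
      push_cast
      ring
    rw [e, norm_neg, Complex.norm_conj]
    exact h1
  · apply quad
    intro x
    have h1 := hM (x, -x)
    rw [(h x).2] at h1
    exact h1

lemma fex_diag (b c d : ℝ) : Diag (fex b c d) b c d := by
  intro x
  unfold fex
  constructor
  · rw [(fs_diag x).1]
    congr 3
    unfold Jx
    simp only
    rw [sub_self, zero_div, zero_mul, add_zero]
    ring
  · rw [(fs_diag x).2]
    congr 3
    unfold Jx
    simp only
    rw [neg_sq, sub_self, zero_div, zero_mul, add_zero, sgm_neg]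
    ring

end Pool.Agent.L7h30.NE
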