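import Pool.Agent.L7h30.NE.InfDim

/-!
# The normal extremals of `∂² / ∂x₁ ∂x₂`: final statements
-/

set_option autoImplicit false

open Complex Filter Topology Metric Set
open scoped ComplexConjugate
open Pool.Agent.Helper797.Bs
open Pool.Agent.K7.H38.MD

namespace Pool.Agent.L7h30.NE

/-- normal extremals -/
def NormExt (S : (ℝ × ℝ → ℂ) → ℝ × ℝ → ℂ) (f : ℝ × ℝ → ℂ) : Prop :=
  f ∈ B ∧ supNorm f ≤ 1 ∧ S f 0 = (opNorm S : ℂ)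

/-- the general normal extremal -/
noncomputable def build (b c d : ℝ) (e k : ℝ × ℝ → ℝ) (p : ℝ × ℝ) : ℂ :=
  fs p + (((p.1 ^ 2 - p.2 ^ 2) ^ 2 * e p : ℝ) : ℂ) +
    I * (((b + c * p.1 + d * p.2) * sgm p + (p.1 ^ 2 - p.2 ^ 2) * k p : ℝ) : ℂ)

lemma normExt_iff {f : ℝ × ℝ → ℂ} :
    NormExt T f ↔ f ∈ B ∧ supNorm f ≤ 1 ∧ T f 0 = ((2 / Real.pi : ℝ) : ℂ) := by
  unfold NormExt
  rw [opNorm_T]

lemma pt {f : ℝ × ℝ → ℂ} (hf : f ∈ B) (h : supNorm f ≤ 1) (p : ℝ × ℝ) : ‖f p‖ ≤ 1 :=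
  (le_supNorm hf p).trans h

theorem fin1 (f : ℝ × ℝ → ℂ) : NormExt T f ↔ f ∈ B ∧ supNorm f ≤ 1 ∧ NodesR f := by
  rw [normExt_iff]
  constructor
  · rintro ⟨h1, h2, h3⟩
    exact ⟨h1, h2, (char h1 (pt h1 h2)).1.1 h3⟩
  · rintro ⟨h1, h2, h3⟩
    exact ⟨h1, h2, (char h1 (pt h1 h2)).1.2 h3⟩

theorem fin2 (f : ℝ × ℝ → ℂ) : NormExt T f ↔ f ∈ B ∧ supNorm f ≤ 1 ∧ ∃ b c d, Diag f b c d := by
  rw [normExt_iff]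
  constructor
  · rintro ⟨h1, h2, h3⟩
    exact ⟨h1, h2, (char h1 (pt h1 h2)).2.1.1 h3⟩
  · rintro ⟨h1, h2, h3⟩
    exact ⟨h1, h2, (char h1 (pt h1 h2)).2.1.2 h3⟩

lemma build_mem {b c d : ℝ} {e k : ℝ × ℝ → ℝ} (he : (fun p => (e p : ℂ)) ∈ B)
    (hk : (fun p => (k p : ℂ)) ∈ B) (hM : ∀ p, ‖build b c d e k p‖ ≤ 1) : build b c d e k ∈ B := by
  obtain ⟨E, hE, e1⟩ := mem_B.1 he
  obtain ⟨K, hK, e2⟩ := mem_B.1 hk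
  refine B_of_gr ((Cls_Fs.gr.add hE.gr.sq_mul.sq_mul).add
    (((Cls_lin b c d).gr.add hK.gr.sq_mul).const_mul I)) (fun x y => ?_) hM
  have e3 := e1 x y
  have e4 := e2 x y
  unfold build
  simp only at e3 e4 ⊢
  rw [← e3, ← e4, sw_real2, fs_eq]
  push_cast
  ring

lemma form_build {f : ℝ × ℝ → ℂ} {b c d : ℝ} {e k : ℝ × ℝ → ℝ} :
    Form f b c d e k ↔ (fun p => (e p : ℂ)) ∈ B ∧ (fun p => (k p : ℂ)) ∈ B ∧ f = build b c d e k := by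
  unfold Form
  constructor
  · rintro ⟨h1, h2, h3⟩
    refine ⟨h1, h2, ?_⟩
    ext ⟨x, y⟩
    exact h3 x y
  · rintro ⟨h1, h2, h3⟩
    refine ⟨h1, h2, fun x y => ?_⟩
    rw [h3]
    rfl

theorem fin3 (f : ℝ × ℝ → ℂ) : NormExt T f ↔ ∃ (b c d : ℝ) (e k : ℝ × ℝ → ℝ),
    (fun p => (e p : ℂ)) ∈ B ∧ (fun p => (k p : ℂ)) ∈ B ∧ (∀ p, ‖build b c d e k p‖ ≤ 1) ∧
    f = build b c d e k := by
  rw [normExt_iff]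
  constructor
  · rintro ⟨h1, h2, h3⟩
    obtain ⟨b, c, d, e, k, h⟩ := (char h1 (pt h1 h2)).2.2.1 h3
    obtain ⟨he, hk, hf⟩ := form_build.1 h
    exact ⟨b, c, d, e, k, he, hk, fun p => by rw [← hf]; exact pt h1 h2 p, hf⟩
  · rintro ⟨b, c, d, e, k, he, hk, hM, rfl⟩
    have hB := build_mem he hk hM
    exact ⟨hB, supNorm_le hM, (char hB hM).2.2.2 ⟨b, c, d, e, k, form_build.2 ⟨he, hk, rfl⟩⟩⟩

theorem fin4 {b c d b' c' d' : ℝ} {e k e' k' : ℝ × ℝ → ℝ} (he : (fun p => (e p : ℂ)) ∈ B)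
    (hk : (fun p => (k p : ℂ)) ∈ B) (he' : (fun p => (e' p : ℂ)) ∈ B)
    (hk' : (fun p => (k' p : ℂ)) ∈ B) (h : build b c d e k = build b' c' d' e' k') :
    b = b' ∧ c = c' ∧ d = d' ∧ e = e' ∧ k = k' :=
  form_unique (f := build b c d e k) (form_build.2 ⟨he, hk, rfl⟩) (form_build.2 ⟨he', hk', h⟩)

theorem fin5 {b c d : ℝ} (h1 : b ^ 2 / a ^ 2 + (c + d) ^ 2 / 2 ≤ 1)
    (h2 : b ^ 2 / a ^ 2 + (c - d) ^ 2 / 2 ≤ 1) : NormExt T (fex b c d) ∧ Diag (fex b c d) b c d :=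
  ⟨(fin2 _).2 ⟨fex_mem h1 h2, supNorm_le (fex_le h1 h2), b, c, d, fex_diag b c d⟩,
    fex_diag b c d⟩

theorem fin6 (b c d : ℝ) : (∃ f, NormExt T f ∧ Diag f b c d) ↔
    b ^ 2 / a ^ 2 + (c + d) ^ 2 / 2 ≤ 1 ∧ b ^ 2 / a ^ 2 + (c - d) ^ 2 / 2 ≤ 1 := by
  constructor
  · rintro ⟨f, hf, hd⟩
    exact range_nec (pt hf.1 hf.2.1) hd
  · rintro ⟨h1, h2⟩
    exact ⟨_, fin5 h1 h2⟩

theorem fin9 {b c d : ℝ} (h1 : b ^ 2 / a ^ 2 + (c + d) ^ 2 / 2 ≤ 1)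
    (h2 : b ^ 2 / a ^ 2 + (c - d) ^ 2 / 2 ≤ 1) {e : ℝ × ℝ → ℂ} (he0 : e ∈ B)
    (he : ∀ p : ℝ × ℝ, (1 + (p.1 ^ 2 + p.2 ^ 2) ^ 2) * ‖e p‖ ≤ 1 / 8000) :
    NormExt T (fun p : ℝ × ℝ => fex b c d p + (((p.1 ^ 2 - p.2 ^ 2) ^ 2 : ℝ) : ℂ) * e p) ∧
    Diag (fun p : ℝ × ℝ => fex b c d p + (((p.1 ^ 2 - p.2 ^ 2) ^ 2 : ℝ) : ℂ) * e p) b c d := by
  have hD : Diag (fun p : ℝ × ℝ => fex b c d p + (((p.1 ^ 2 - p.2 ^ 2) ^ 2 : ℝ) : ℂ) * e p)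
      b c d := by
    intro x
    obtain ⟨h5, h6⟩ := fex_diag b c d x
    constructor
    · simp only
      rw [h5, sub_self]
      simp
    · simp only
      rw [h6, neg_sq, sub_self]
      simp
  exact ⟨(fin2 _).2 ⟨fexe_mem h1 h2 he0 he, supNorm_le (fexe_le h1 h2 he), b, c, d, hD⟩, hD⟩

theorem fin7 {b c d : ℝ} (h1 : b ^ 2 / a ^ 2 + (c + d) ^ 2 / 2 ≤ 1)
    (h2 : b ^ 2 / a ^ 2 + (c - d) ^ 2 / 2 ≤ 1) (V : Submodule ℝ (ℝ × ℝ → ℂ))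
    (hV : FiniteDimensional ℝ V) :
    ¬ {f | NormExt T f ∧ Diag f b c d} ⊆ (V : Set (ℝ × ℝ → ℂ)) := by
  refine inf_dim (g0 := fex b c d) one_pos (fun e he hed => ?_) V
  obtain ⟨k1, k2⟩ := fin9 h1 h2 he hed
  have e1 : (fun p : ℝ × ℝ => fex b c d p + ((1 * (p.1 ^ 2 - p.2 ^ 2) ^ 2 : ℝ) : ℂ) * e p)
      = fun p : ℝ × ℝ => fex b c d p + (((p.1 ^ 2 - p.2 ^ 2) ^ 2 : ℝ) : ℂ) * e p := by
    ext p; rw [one_mul]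
  rw [e1]
  exact ⟨k1, k2⟩

theorem fin8 {e : ℝ × ℝ → ℂ} (he0 : e ∈ B)
    (he : ∀ p : ℝ × ℝ, (p.1 ^ 2 + p.2 ^ 2) ^ 2 * ‖e p‖ ≤ 1 / 2) :
    NormExt T (fun p : ℝ × ℝ => fs p + (((p.1 ^ 2 - p.2 ^ 2) ^ 2 : ℝ) : ℂ) * e p) := by
  refine (fin2 _).2 ⟨fe_mem he0 he, supNorm_le (fe_le he), 0, 0, 0, fun x => ?_⟩
  obtain ⟨h5, h6⟩ := fs_diag x
  constructor
  · simp only
    rw [h5, sub_self]
    simp
  · simp only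
    rw [h6, neg_sq, sub_self]
    simp

lemma par_eq (b : ℝ) : b ^ 2 / a ^ 2 = (2 * b / Real.pi) ^ 2 := by
  unfold a
  have := Real.pi_ne_zero
  field_simp

end Pool.Agent.L7h30.NE
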