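import Pool.Agent.L7h30.NE.Fin

/-!
# The set of the normal extremals is infinite dimensional
-/

set_option autoImplicit false

open Complex Filter Topology Metric Set
open scoped ComplexConjugate
open Pool.Agent.Helper797.Bs
open Pool.Agent.K7.H38.MD

namespace Pool.Agent.L7h30.NE

lemma mul_snc (z : ℂ) : z * snc z = Complex.sin z := by
  by_cases hz : z = 0
  · rw [hz, zero_mul, Complex.sin_zero]
  · rw [snc_ne hz]; field_simp

/-- the test functions -/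
noncomputable def psi (τ : ℝ) (z : ℂ × ℂ) : ℂ := (snc ((z.1 - τ) / 16) * snc (z.2 / 16)) ^ 4

lemma psi_cls (τ : ℝ) : Cls (psi τ) := by
  obtain ⟨K, hK, hb⟩ := snc_bound
  have hmain : ∀ z : ℂ × ℂ, ‖psi τ z‖ ≤ (K * K) ^ 4 * Real.exp √(z.1.im ^ 2 + z.2.im ^ 2) := by
    intro z
    unfold psi
    have h1 := hb ((z.1 - τ) / 16)
    have h2 := hb (z.2 / 16)
    have e1 : ((z.1 - (τ:ℂ)) / 16).im = z.1.im / 16 := by
      rw [Complex.div_ofNat_im]; simp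
    have e2 : (z.2 / 16).im = z.2.im / 16 := by
      rw [Complex.div_ofNat_im]
    rw [e1] at h1
    rw [e2] at h2
    rw [norm_pow, norm_mul]
    have h3 : ‖snc ((z.1 - τ) / 16)‖ * ‖snc (z.2 / 16)‖
        ≤ (K * K) * Real.exp (√(z.1.im ^ 2 + z.2.im ^ 2) / 4) := by
      calc _ ≤ (K * Real.exp |z.1.im / 16|) * (K * Real.exp |z.2.im / 16|) := by gcongr
        _ = (K * K) * Real.exp (|z.1.im / 16| + |z.2.im / 16|) := by rw [Real.exp_add]; ring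
        _ ≤ _ := by
          gcongr
          have a1 : |z.1.im| ≤ √(z.1.im ^ 2 + z.2.im ^ 2) :=
            Real.abs_le_sqrt (by nlinarith [sq_nonneg z.2.im])
          have a2 : |z.2.im| ≤ √(z.1.im ^ 2 + z.2.im ^ 2) :=
            Real.abs_le_sqrt (by nlinarith [sq_nonneg z.1.im])
          rw [abs_div, abs_div]
          have : |(16:ℝ)| = 16 := by norm_num
          rw [this]
          have := Real.sqrt_nonneg (z.1.im ^ 2 + z.2.im ^ 2)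
          linarith
    calc _ ≤ ((K * K) * Real.exp (√(z.1.im ^ 2 + z.2.im ^ 2) / 4)) ^ 4 := by gcongr
      _ = _ := by
        rw [mul_pow, ← Real.exp_nat_mul]
        congr 2
        push_cast
        ring
  refine ⟨?_, fun ε hε => ⟨(K * K) ^ 4, fun z => ?_⟩, ⟨(K * K) ^ 4, fun x y => ?_⟩⟩
  · unfold psi
    have h1 : Differentiable ℂ (fun z : ℂ × ℂ => snc ((z.1 - τ) / 16)) :=
      snc_diff.comp (f := fun z : ℂ × ℂ => (z.1 - τ) / 16) (by fun_prop)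
    have h2 : Differentiable ℂ (fun z : ℂ × ℂ => snc (z.2 / 16)) :=
      snc_diff.comp (f := fun z : ℂ × ℂ => z.2 / 16) (by fun_prop)
    exact (h1.mul h2).pow 4
  · refine (hmain z).trans ?_
    gcongr
    have := norm_nonneg z
    nlinarith
  · have := hmain ((x:ℂ), (y:ℂ))
    simpa using this

lemma psi_decay (τ : ℝ) : ∃ C : ℝ, 0 < C ∧ ∀ p : ℝ × ℝ,
    (1 + (p.1 ^ 2 + p.2 ^ 2) ^ 2) * ‖psi τ ((p.1 : ℂ), (p.2 : ℂ))‖ ≤ C := by
  obtain ⟨K, hK, hb⟩ := snc_bound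
  have hbr : ∀ x : ℝ, ‖snc (x:ℂ)‖ ≤ K := by
    intro x
    have := hb x
    simpa using this
  have hsin : ∀ x : ℝ, |x| * ‖snc (x:ℂ)‖ ≤ 1 := by
    intro x
    rw [← Real.norm_eq_abs, ← Complex.norm_real, ← norm_mul, mul_snc]
    have := norm_sin_le (x:ℂ)
    simpa using this
  set A : ℝ := 16 + |τ| * K with hA
  have hA0 : 0 ≤ A := by positivity
  refine ⟨(K * K) ^ 4 + 2 * (A ^ 4 * K ^ 4 + 16 ^ 4 * K ^ 4) + 1, by positivity, ?_⟩
  rintro ⟨x, y⟩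
  unfold psi
  have e1 : ((x:ℂ) - (τ:ℂ)) / 16 = (((x - τ) / 16 : ℝ) : ℂ) := by push_cast; rfl
  have e2 : (y:ℂ) / 16 = ((y / 16 : ℝ) : ℂ) := by push_cast; rfl
  simp only
  rw [e1, e2, norm_pow, norm_mul]
  set s1 := ‖snc (((x - τ) / 16 : ℝ) : ℂ)‖ with hs1
  set s2 := ‖snc ((y / 16 : ℝ) : ℂ)‖ with hs2
  have h10 : 0 ≤ s1 := norm_nonneg _
  have h20 : 0 ≤ s2 := norm_nonneg _
  have h11 : s1 ≤ K := hbr _
  have h21 : s2 ≤ K := hbr _
  have h12 : |x| * s1 ≤ A := by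
    have h := hsin ((x - τ) / 16)
    rw [← hs1, abs_div] at h
    have : |(16:ℝ)| = 16 := by norm_num
    rw [this] at h
    have h3 : |x| ≤ |x - τ| + |τ| := by
      have := abs_add_le (x - τ) τ
      rwa [sub_add_cancel] at this
    have h4 : |x| * s1 ≤ (|x - τ| + |τ|) * s1 := by gcongr
    have h5 : |τ| * s1 ≤ |τ| * K := by gcongr
    rw [hA]
    nlinarith
  have h22 : |y| * s2 ≤ 16 := by
    have h := hsin (y / 16)
    rw [← hs2, abs_div] at h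
    have : |(16:ℝ)| = 16 := by norm_num
    rw [this] at h
    linarith
  have k1 : (|x| * s1) ^ 4 * s2 ^ 4 ≤ A ^ 4 * K ^ 4 := by gcongr
  have k2 : (|y| * s2) ^ 4 * s1 ^ 4 ≤ 16 ^ 4 * K ^ 4 := by gcongr
  have k3 : (x ^ 2 + y ^ 2) ^ 2 ≤ 2 * (|x| ^ 4 + |y| ^ 4) := by
    have e3 : |x| ^ 4 = (x ^ 2) ^ 2 := by rw [← sq_abs x]; ring
    have e4 : |y| ^ 4 = (y ^ 2) ^ 2 := by rw [← sq_abs y]; ring
    rw [e3, e4]
    nlinarith [sq_nonneg (x ^ 2 - y ^ 2)]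
  have k4 : (s1 * s2) ^ 4 ≤ (K * K) ^ 4 := by gcongr
  calc (1 + (x ^ 2 + y ^ 2) ^ 2) * (s1 * s2) ^ 4
      ≤ (1 + 2 * (|x| ^ 4 + |y| ^ 4)) * (s1 * s2) ^ 4 := by gcongr
    _ = (s1 * s2) ^ 4 + 2 * ((|x| * s1) ^ 4 * s2 ^ 4 + (|y| * s2) ^ 4 * s1 ^ 4) := by ring
    _ ≤ (K * K) ^ 4 + 2 * (A ^ 4 * K ^ 4 + 16 ^ 4 * K ^ 4) := by linarith
    _ ≤ _ := by linarith

lemma psi_eval (i j : ℕ) : psi (16 * Real.pi * j) (((16 * Real.pi * i : ℝ) : ℂ), 0)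
    = if i = j then 1 else 0 := by
  unfold psi
  simp only
  have e : ((((16 * Real.pi * i : ℝ) : ℂ)) - ((16 * Real.pi * j : ℝ) : ℂ)) / 16
      = (((i:ℤ) - (j:ℤ) : ℤ) : ℂ) * Real.pi := by
    push_cast; ring
  rw [e, zero_div, snc_zero, mul_one]
  split_ifs with h
  · rw [h]; simp [snc_zero]
  · have h1 : (((i:ℤ) - (j:ℤ) : ℤ) : ℂ) * Real.pi ≠ 0 := by
      apply mul_ne_zero
      · have : (i:ℤ) - (j:ℤ) ≠ 0 := by omega
        exact_mod_cast this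
      · exact_mod_cast Real.pi_ne_zero
    have h2 : Complex.sin ((((i:ℤ) - (j:ℤ) : ℤ) : ℂ) * Real.pi) = 0 :=
      Complex.sin_eq_zero_iff.mpr ⟨_, rfl⟩
    rw [snc_ne h1, h2, zero_div, zero_pow (by norm_num)]

lemma small_e (j : ℕ) : ∃ c : ℝ, 0 < c ∧ ∃ e : ℝ × ℝ → ℂ, e ∈ B ∧
    (∀ p : ℝ × ℝ, (1 + (p.1 ^ 2 + p.2 ^ 2) ^ 2) * ‖e p‖ ≤ 1 / 8000) ∧
    ∀ i : ℕ, e (16 * Real.pi * i, 0) = if i = j then (c:ℂ) else 0 := by
  obtain ⟨C, hC, hb⟩ := psi_decay (16 * Real.pi * j)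
  refine ⟨1 / (8000 * C), by positivity, fun p => ((1 / (8000 * C) : ℝ) : ℂ) *
    psi (16 * Real.pi * j) ((p.1 : ℂ), (p.2 : ℂ)), ?_, ?_, ?_⟩
  · exact mem_B.2 ⟨_, (psi_cls _).const_mul _, fun x y => rfl⟩
  · intro p
    rw [norm_mul, Complex.norm_real, Real.norm_eq_abs, abs_of_pos (by positivity)]
    have := hb p
    have h2 : (1 + (p.1 ^ 2 + p.2 ^ 2) ^ 2) *
        (1 / (8000 * C) * ‖psi (16 * Real.pi * j) ((p.1 : ℂ), (p.2 : ℂ))‖)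
        = (1 / (8000 * C)) * ((1 + (p.1 ^ 2 + p.2 ^ 2) ^ 2) *
          ‖psi (16 * Real.pi * j) ((p.1 : ℂ), (p.2 : ℂ))‖) := by ring
    rw [h2]
    calc _ ≤ (1 / (8000 * C)) * C := by gcongr
      _ = 1 / 8000 := by field_simp
  · intro i
    simp only [Complex.ofReal_zero]
    rw [psi_eval]
    split_ifs <;> simp

theorem inf_dim {S : Set (ℝ × ℝ → ℂ)} {g0 : ℝ × ℝ → ℂ} {κ : ℝ} (hκ : 0 < κ)
    (h : ∀ e ∈ B, (∀ p : ℝ × ℝ, (1 + (p.1 ^ 2 + p.2 ^ 2) ^ 2) * ‖e p‖ ≤ 1 / 8000) →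
      (fun p : ℝ × ℝ => g0 p + ((κ * (p.1 ^ 2 - p.2 ^ 2) ^ 2 : ℝ) : ℂ) * e p) ∈ S)
    (V : Submodule ℝ (ℝ × ℝ → ℂ)) [FiniteDimensional ℝ V] : ¬ S ⊆ (V : Set (ℝ × ℝ → ℂ)) := by
  intro hS
  choose c hc e he hed hev using small_e
  have h0B : (fun _ : ℝ × ℝ => (0:ℂ)) ∈ B := by
    refine mem_B.2 ⟨fun _ => 0, ⟨by fun_prop, fun ε _ => ⟨0, fun z => by simp⟩, ⟨0, by simp⟩⟩,
      fun _ _ => rfl⟩
  have hg0 := hS (h _ h0B (fun p => by simp))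
  set n := Module.finrank ℝ V with hn
  have hmem : ∀ j : Fin (n + 1), (fun p : ℝ × ℝ =>
      ((κ * (p.1 ^ 2 - p.2 ^ 2) ^ 2 : ℝ) : ℂ) * e (j + 1) p) ∈ V := by
    intro j
    have h1 := hS (h _ (he (j + 1)) (hed (j + 1)))
    have h2 := V.sub_mem h1 hg0
    have e1 : ((fun p : ℝ × ℝ => g0 p + ((κ * (p.1 ^ 2 - p.2 ^ 2) ^ 2 : ℝ) : ℂ) * e (j + 1) p)
        - fun p : ℝ × ℝ => g0 p + ((κ * (p.1 ^ 2 - p.2 ^ 2) ^ 2 : ℝ) : ℂ) * (0:ℂ))
        = fun p : ℝ × ℝ => ((κ * (p.1 ^ 2 - p.2 ^ 2) ^ 2 : ℝ) : ℂ) * e (j + 1) p := by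
      ext p
      simp
    rw [e1] at h2
    exact h2
  let v : Fin (n + 1) → V := fun j => ⟨_, hmem j⟩
  have hli : LinearIndependent ℝ v := by
    rw [Fintype.linearIndependent_iff]
    intro g hg i
    have h1 := congrArg (fun w : V => (w : ℝ × ℝ → ℂ) (16 * Real.pi * ((i:ℕ) + 1 : ℕ), 0)) hg
    simp only [Submodule.coe_sum, Submodule.coe_smul, Finset.sum_apply, Pi.smul_apply,
      Submodule.coe_zero, Pi.zero_apply, v] at h1
    rw [Finset.sum_eq_single i] at h1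
    · rw [hev (i + 1) (i + 1)] at h1
      simp only [if_true, Complex.real_smul] at h1
      have hx : (16 * Real.pi * (((i:ℕ) + 1 : ℕ) : ℝ)) ^ 2 - (0:ℝ) ^ 2 ≠ 0 := by
        have := Real.pi_pos
        have h3 : (0:ℝ) < (((i:ℕ) + 1 : ℕ) : ℝ) := by positivity
        rw [zero_pow two_ne_zero, sub_zero]
        positivity
      have h4 : ((κ * ((16 * Real.pi * (((i:ℕ) + 1 : ℕ) : ℝ)) ^ 2 - (0:ℝ) ^ 2) ^ 2 : ℝ) : ℂ) *
          ((c (i + 1) : ℝ) : ℂ) ≠ 0 := by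
        apply mul_ne_zero
        · exact_mod_cast mul_ne_zero hκ.ne' (pow_ne_zero 2 hx)
        · exact_mod_cast (hc (i + 1)).ne'
      have h5 := (mul_eq_zero.1 h1).resolve_right h4
      exact_mod_cast h5
    · intro j _ hji
      rw [hev (j + 1) (i + 1)]
      have : ¬ ((i:ℕ) + 1 = (j:ℕ) + 1) := by
        intro h6
        apply hji
        apply Fin.ext
        omega
      rw [if_neg this, mul_zero, smul_zero]
    · intro h6
      exact absurd (Finset.mem_univ i) h6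
  have h7 := hli.fintype_card_le_finrank
  rw [Fintype.card_fin] at h7
  omega

end Pool.Agent.L7h30.NE
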