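import Pool.Agent.K7.H38.MD.Norm

/-!
# The interpolation formula on the diagonals, and the case of equality

For an entire function `F` with `‖F z‖ ≤ exp |Im z|` we show that `F''(0) + (4/π²) F(0) = 2/π` if and
only if `F (± t_k) = (-1)^(k+1)` for all `k ≥ 1`, `t_k = π √(k² - 1/4)`. (The plan of the proof of the
whole project is due to helper85.)
-/

set_option autoImplicit false

open Complex Filter Topology Metric Set
open Pool.Agent.Helper797.Bs
open Pool.Agent.K7.H38.MD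

namespace Pool.Agent.L7h30.NE

/-- the interpolation formula with remainder -/
lemma SN_bound {g : ℂ → ℂ} (hg : Differentiable ℂ g) (hev : ∀ s, g (-s) = g s) {C : ℝ}
    (hC : 0 ≤ C) (hgC : ∀ s, ‖g s‖ ≤ C * Real.exp |s.im|) {z w : ℝ}
    (hz0 : 0 < z) (hz1 : z < Real.pi) (hw0 : 0 < w) (hw1 : w < Real.pi) (hzw : z ≠ w)
    {N : ℕ} (hN : 1 ≤ N) :
    ‖SN g z w N + (hfun g z - hfun g w) / ((z:ℂ) ^ 2 - (w:ℂ) ^ 2)‖ ≤ C * (9 / N) := by
  have hpi := Real.pi_pos
  have h1 := circle_bound hC hgC hz0 hz1 hw0 hw1 hN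
  rw [circle_eval hg hev hz0 hz1 hw0 hw1 hzw hN, norm_mul] at h1
  have h2 : ‖(2 * Real.pi * I : ℂ)‖ = 2 * Real.pi := by
    rw [norm_mul, norm_mul, Complex.norm_I, Complex.norm_real, Real.norm_eq_abs, abs_of_pos hpi]
    simp
  rw [h2] at h1
  exact le_of_mul_le_mul_left h1 (by positivity)

lemma cos_int_ne (k : ℤ) : Complex.cos ((k : ℂ) * Real.pi) ≠ 0 := by
  intro h
  have := norm_cos_int k
  rw [h, norm_zero] at this
  norm_num at this

/-- the interpolation formula with remainder, confluent form -/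
lemma SN_lim {g : ℂ → ℂ} (hg : Differentiable ℂ g) (hev : ∀ s, g (-s) = g s) {C : ℝ}
    (hC : 0 ≤ C) (hgC : ∀ s, ‖g s‖ ≤ C * Real.exp |s.im|) {z : ℝ}
    (hz0 : 0 < z) (hz1 : z < Real.pi) {N : ℕ} (hN : 1 ≤ N) {h' : ℂ}
    (hh : HasDerivAt (fun x : ℝ => hfun g x) h' z) :
    ‖SN g z z N + h' / (2 * z)‖ ≤ C * (9 / N) := by
  have hzc : (z:ℂ) ≠ 0 := by exact_mod_cast hz0.ne'
  have t1 : Tendsto (fun w : ℝ => SN g z w N) (𝓝[≠] z) (𝓝 (SN g z z N)) := by
    have hc : ContinuousAt (fun w : ℝ => SN g z w N) z := by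
      unfold SN
      apply tendsto_finsetSum
      intro k _
      apply Tendsto.div
      · exact tendsto_const_nhds
      · have : Continuous (fun w : ℝ => Complex.cos ((k:ℂ) * Real.pi) *
            ((((k:ℂ) * Real.pi) ^ 2 - (z:ℂ) ^ 2) * (((k:ℂ) * Real.pi) ^ 2 - (w:ℂ) ^ 2))) := by
          fun_prop
        exact this.tendsto z
      · exact mul_ne_zero (cos_int_ne k) (mul_ne_zero (int_pi_ne hz0 hz1 k) (int_pi_ne hz0 hz1 k))
    exact hc.tendsto.mono_left nhdsWithin_le_nhds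
  have t2 : Tendsto (fun w : ℝ => (hfun g z - hfun g w) / ((z:ℂ) ^ 2 - (w:ℂ) ^ 2)) (𝓝[≠] z)
      (𝓝 (h' / (2 * z))) := by
    have s1 := hh.tendsto_slope
    have s2 : Tendsto (fun w : ℝ => ((w:ℂ) + z)⁻¹) (𝓝[≠] z) (𝓝 (((z:ℂ) + z)⁻¹)) := by
      have : ContinuousAt (fun w : ℝ => ((w:ℂ) + z)⁻¹) z := by
        apply ContinuousAt.inv₀ (by fun_prop)
        intro h
        apply hzc
        have : (2:ℂ) * z = 0 := by linear_combination h
        simpa using this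
      exact this.tendsto.mono_left nhdsWithin_le_nhds
    have s3 := s1.mul s2
    have e : h' * ((z:ℂ) + z)⁻¹ = h' / (2 * z) := by rw [← two_mul, div_eq_mul_inv]
    rw [e] at s3
    refine s3.congr' ?_
    have hpos : ∀ᶠ w : ℝ in 𝓝 z, 0 < w := lt_mem_nhds hz0
    filter_upwards [self_mem_nhdsWithin, hpos.filter_mono nhdsWithin_le_nhds] with w hw hw0
    have hw' : w ≠ z := hw
    have hwz : (w:ℂ) - z ≠ 0 := by
      rw [sub_ne_zero]; exact_mod_cast hw'
    have hwz2 : (w:ℂ) + z ≠ 0 := by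
      have : (w + z : ℝ) ≠ 0 := by linarith
      exact_mod_cast this
    have hzw3 : (z:ℂ) ^ 2 - (w:ℂ) ^ 2 ≠ 0 := by
      have : (z:ℂ) ^ 2 - (w:ℂ) ^ 2 = -(((w:ℂ) - z) * (w + z)) := by ring
      rw [this]
      exact neg_ne_zero.mpr (mul_ne_zero hwz hwz2)
    rw [slope_def_module, Complex.real_smul]
    push_cast
    field_simp
    ring
  refine le_of_tendsto ((t1.add t2).norm) ?_
  have hev1 : ∀ᶠ x in 𝓝 z, 0 < x ∧ x < Real.pi := by
    have : Ioo (0:ℝ) Real.pi ∈ 𝓝 z := Ioo_mem_nhds hz0 hz1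
    filter_upwards [this] with x hx
    exact hx
  filter_upwards [hev1.filter_mono nhdsWithin_le_nhds, self_mem_nhdsWithin] with w hw hwz
  exact SN_bound hg hev hC hgC hz0 hz1 hw.1 hw.2 (fun h => hwz h.symm) hN

/-- the substitution `z² = s² - a²` -/
noncomputable def gg (F : ℂ → ℂ) (s : ℂ) : ℂ := ev F (s ^ 2 - (a : ℂ) ^ 2)

lemma gg_diff {F : ℂ → ℂ} (hF : Differentiable ℂ F) (hev : ∀ s, F (-s) = F s) :
    Differentiable ℂ (gg F) := (ev_differentiable hF hev).comp (by fun_prop)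

lemma gg_even (F : ℂ → ℂ) (s : ℂ) : gg F (-s) = gg F s := by simp only [gg, neg_sq]

lemma gg_eq {F : ℂ → ℂ} (hev : ∀ s, F (-s) = F s) {z s : ℂ} (h : z ^ 2 = s ^ 2 - (a:ℂ) ^ 2) :
    gg F s = F z := ev_eq hev h

lemma gg_bound {F : ℂ → ℂ} {M : ℝ} (hM : 0 ≤ M) (hb : ∀ z, ‖F z‖ ≤ M * Real.exp |z.im|) (s : ℂ) :
    ‖gg F s‖ ≤ (M * Real.exp a) * Real.exp |s.im| := by
  have h1 : gg F s = F (Complex.sqrt (s ^ 2 - (a:ℂ) ^ 2)) := rfl
  rw [h1]
  refine (hb _).trans ?_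
  rw [mul_assoc, ← Real.exp_add]
  apply mul_le_mul_of_nonneg_left _ hM
  apply Real.exp_le_exp.mpr
  have := im_le_of_sub (sq_sqrt (s ^ 2 - (a:ℂ) ^ 2))
  rw [abs_of_pos a_pos] at this
  linarith

/-- the nodes `t_k = π √(k² - 1/4)` -/
noncomputable def tk (k : ℕ) : ℝ := Real.pi * √((k:ℝ) ^ 2 - 1 / 4)

lemma tk_sq {k : ℕ} (hk : 1 ≤ k) : (tk k) ^ 2 = ((k:ℝ) * Real.pi) ^ 2 - a ^ 2 := by
  have h1 : (1:ℝ) ≤ k := by exact_mod_cast hk
  unfold tk a
  rw [mul_pow, Real.sq_sqrt (by nlinarith)]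
  ring

lemma tk_pos {k : ℕ} (hk : 1 ≤ k) : 0 < tk k := by
  have h1 : (1:ℝ) ≤ k := by exact_mod_cast hk
  unfold tk
  have := Real.pi_pos
  have : 0 < √((k:ℝ) ^ 2 - 1 / 4) := Real.sqrt_pos.2 (by nlinarith)
  positivity

lemma tk_sqC {k : ℕ} (hk : 1 ≤ k) : ((tk k : ℝ) : ℂ) ^ 2 = ((k:ℂ) * Real.pi) ^ 2 - (a:ℂ) ^ 2 := by
  have := tk_sq hk
  exact_mod_cast congrArg (fun x : ℝ => (x : ℂ)) this

lemma tk_sqC' {k : ℤ} (hk : k ≠ 0) :
    ((tk k.natAbs : ℝ) : ℂ) ^ 2 = ((k:ℂ) * Real.pi) ^ 2 - (a:ℂ) ^ 2 := by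
  have h : 1 ≤ k.natAbs := Int.one_le_abs hk |> fun h => by omega
  rw [tk_sqC h]
  have : ((k.natAbs : ℂ)) ^ 2 = (k : ℂ) ^ 2 := by
    rcases Int.natAbs_eq k with h | h
    · conv_rhs => rw [h, Int.cast_natCast]
    · conv_rhs => rw [h, Int.cast_neg, Int.cast_natCast, neg_sq]
  rw [mul_pow, mul_pow, this]

lemma gg_int {F : ℂ → ℂ} (hev : ∀ s, F (-s) = F s) {k : ℤ} (hk : k ≠ 0) :
    gg F ((k:ℂ) * Real.pi) = F (tk k.natAbs : ℝ) := gg_eq hev (tk_sqC' hk)

lemma a_lt_pi : a < Real.pi := by unfold a; linarith [Real.pi_pos]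

lemma deriv2_ev {F : ℂ → ℂ} (hF : Differentiable ℂ F) (hev : ∀ s, F (-s) = F s) :
    deriv (deriv F) 0 = 2 * deriv (ev F) 0 := by
  have hGd : Differentiable ℂ (ev F) := ev_differentiable hF hev
  have hdF : deriv F = fun z => 2 * z * deriv (ev F) (z ^ 2) := by
    ext z
    have h1 : HasDerivAt (fun s : ℂ => s ^ 2) (2 * z) z := by
      simpa using hasDerivAt_pow 2 z
    have h2 : HasDerivAt (ev F) (deriv (ev F) (z ^ 2)) (z ^ 2) := (hGd _).hasDerivAt
    have h3 := h2.comp z h1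
    have h4 : (ev F) ∘ (fun s : ℂ => s ^ 2) = F := by ext s; exact ev_eq hev rfl
    rw [h4] at h3
    rw [h3.deriv]; ring
  rw [hdF]
  have hGd2 : Differentiable ℂ (deriv (ev F)) := hGd.deriv
  have h1 : HasDerivAt (fun z : ℂ => 2 * z) 2 (0:ℂ) := by
    simpa using (hasDerivAt_id (0:ℂ)).const_mul 2
  have h2 : DifferentiableAt ℂ (fun z : ℂ => deriv (ev F) (z ^ 2)) 0 :=
    (hGd2.comp (by fun_prop)) 0
  have h3 := h1.mul h2.hasDerivAt
  have h4 := h3.deriv
  have e : ((fun z : ℂ => 2 * z) * fun z => deriv (ev F) (z ^ 2))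
      = fun z => 2 * z * deriv (ev F) (z ^ 2) := rfl
  rw [e] at h4
  rw [h4]; norm_num

lemma hfun_deriv {F : ℂ → ℂ} (hF : Differentiable ℂ F) (hev : ∀ s, F (-s) = F s) :
    HasDerivAt (fun x : ℝ => hfun (gg F) x) ((a:ℂ) ^ 2 * U F) a := by
  have hGd : Differentiable ℂ (ev F) := ev_differentiable hF hev
  have hga : HasDerivAt (gg F) (2 * a * deriv (ev F) 0) (a:ℂ) := by
    have h1 : HasDerivAt (fun s : ℂ => s ^ 2 - (a:ℂ) ^ 2) (2 * (a:ℂ)) (a:ℂ) := by
      have := ((hasDerivAt_id (a:ℂ)).pow 2).sub_const ((a:ℂ) ^ 2)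
      simpa using this
    have h2 : HasDerivAt (ev F) (deriv (ev F) 0) ((a:ℂ) ^ 2 - (a:ℂ) ^ 2) := by
      rw [sub_self]; exact (hGd 0).hasDerivAt
    have h3 := h2.comp (a:ℂ) h1
    rw [mul_comm] at h3
    exact h3
  have hga0 : gg F a = F 0 := gg_eq hev (by ring)
  have h := hasDeriv_hfun hga (sin_ne a_pos a_lt_pi)
  rw [hga0, sin_a, cos_a] at h
  have e : ((F 0 + a * (2 * a * deriv (ev F) 0)) * 1 - a * F 0 * 0) / (1:ℂ) ^ 2
      = (a:ℂ) ^ 2 * U F := by
    unfold U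
    rw [deriv2_ev hF hev]
    have ha : ((4 / Real.pi ^ 2 : ℝ) : ℂ) = 1 / (a:ℂ) ^ 2 := by
      unfold a
      push_cast
      have hpi : (Real.pi : ℂ) ≠ 0 := by exact_mod_cast Real.pi_ne_zero
      field_simp
      norm_num
    have hac : (a:ℂ) ≠ 0 := by exact_mod_cast a_pos.ne'
    rw [ha]
    field_simp
    ring
  rw [e] at h
  exact h

lemma U_bound {F : ℂ → ℂ} (hF : Differentiable ℂ F) (hev : ∀ s, F (-s) = F s) {M : ℝ} (hM : 0 ≤ M)
    (hb : ∀ z, ‖F z‖ ≤ M * Real.exp |z.im|) {N : ℕ} (hN : 1 ≤ N) :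
    ‖SN (gg F) a a N + a * U F / 2‖ ≤ M * Real.exp a * (9 / N) := by
  have h := SN_lim (gg_diff hF hev) (gg_even F) (by positivity) (gg_bound hM hb) a_pos a_lt_pi hN
    (hfun_deriv hF hev)
  have hac : (a:ℂ) ≠ 0 := by exact_mod_cast a_pos.ne'
  have e : (a:ℂ) ^ 2 * U F / (2 * a) = a * U F / 2 := by field_simp
  rw [e] at h
  exact h

/-- the weights -/
noncomputable def W (k : ℤ) : ℝ := ((k:ℝ) * Real.pi) ^ 2 / (((k:ℝ) * Real.pi) ^ 2 - a ^ 2) ^ 2

lemma W_nonneg (k : ℤ) : 0 ≤ W k := by unfold W; positivity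

lemma W_pos {k : ℤ} (hk : k ≠ 0) : 0 < W k := by
  unfold W
  have h := int_pi_ne a_pos a_lt_pi k
  have h2 : ((k:ℝ) * Real.pi) ^ 2 - a ^ 2 ≠ 0 := by exact_mod_cast h
  have hk' : (k:ℝ) ≠ 0 := by exact_mod_cast hk
  have := Real.pi_pos
  positivity

lemma W_zero : W 0 = 0 := by unfold W; simp

lemma cos_int_sq (k : ℤ) : Real.cos ((k:ℝ) * Real.pi) * Real.cos ((k:ℝ) * Real.pi) = 1 := by
  have h1 : Real.sin ((k:ℝ) * Real.pi) = 0 := Real.sin_int_mul_pi k
  have h2 := Real.sin_sq_add_cos_sq ((k:ℝ) * Real.pi)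
  rw [h1] at h2
  nlinarith

lemma SN_eq (g : ℂ → ℂ) (N : ℕ) : SN g a a N = ∑ k ∈ Finset.Icc (-(N:ℤ)) N,
    ((W k : ℝ) : ℂ) * (((Real.cos ((k:ℝ) * Real.pi) : ℝ) : ℂ) * g ((k:ℂ) * Real.pi)) := by
  unfold SN
  apply Finset.sum_congr rfl
  intro k _
  have hc := cos_int_sq k
  have hcc : Complex.cos ((k:ℂ) * Real.pi) = ((Real.cos ((k:ℝ) * Real.pi) : ℝ) : ℂ) := by
    push_cast; rfl
  have hcC : ((Real.cos ((k:ℝ) * Real.pi) : ℝ) : ℂ) * ((Real.cos ((k:ℝ) * Real.pi) : ℝ) : ℂ) = 1 := by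
    exact_mod_cast congrArg (fun x : ℝ => (x : ℂ)) hc
  have hne := cos_int_ne k
  rw [hcc] at hne ⊢
  have h2 := int_pi_ne a_pos a_lt_pi k
  have hinv : ((Real.cos ((k:ℝ) * Real.pi) : ℝ) : ℂ)⁻¹ = ((Real.cos ((k:ℝ) * Real.pi) : ℝ) : ℂ) :=
    inv_eq_of_mul_eq_one_left hcC
  have hW : ((W k : ℝ) : ℂ) = ((k:ℂ) * Real.pi) ^ 2 / (((k:ℂ) * Real.pi) ^ 2 - (a:ℂ) ^ 2) ^ 2 := by
    unfold W; push_cast; rfl
  rw [hW, div_eq_mul_inv, mul_inv, hinv]
  field_simp

/-- the reference function `-cos √(z² + a²)` -/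
noncomputable def F0 (z : ℂ) : ℂ := -cw (z ^ 2)

lemma F0_diff : Differentiable ℂ F0 := by
  have : Differentiable ℂ (fun z : ℂ => cw (z ^ 2)) := cw_diff.comp (by fun_prop)
  exact this.neg

lemma F0_even (s : ℂ) : F0 (-s) = F0 s := by simp only [F0, neg_sq]

lemma F0_bound (z : ℂ) : ‖F0 z‖ ≤ 1 * Real.exp |z.im| := by
  have h := cw_growth z 0
  simp only [zero_im, ne_eq, OfNat.ofNat_ne_zero, not_false_eq_true, zero_pow, add_zero] at h
  rw [Real.sqrt_sq_eq_abs] at h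
  unfold F0
  rw [norm_neg, one_mul]
  exact h

lemma U_F0 : U F0 = ((2 / Real.pi : ℝ) : ℂ) := by
  unfold U
  rw [deriv2_ev F0_diff F0_even]
  have e1 : ev F0 = fun w => -cw w := by
    ext w
    unfold ev F0
    rw [sq_sqrt]
  have e2 : deriv (ev F0) 0 = -(-(1 / (2 * (a : ℂ)))) := by
    rw [e1, ← H_zero]
    unfold H
    rw [dslope_same]
    exact (cw_diff 0).hasDerivAt.neg.deriv
  have e3 : F0 0 = 0 := by simp [F0, cw_zero]
  rw [e2, e3]
  unfold a
  have hpi : (Real.pi : ℂ) ≠ 0 := by exact_mod_cast Real.pi_ne_zero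
  push_cast
  field_simp
  ring

lemma F0_node {z s : ℂ} (h : z ^ 2 = s ^ 2 - (a:ℂ) ^ 2) : F0 z = -Complex.cos s := by
  unfold F0
  rw [cw_eq (s := s) (by rw [h]; ring)]

lemma cos_natAbs (k : ℤ) : Real.cos ((k.natAbs : ℝ) * Real.pi) = Real.cos ((k:ℝ) * Real.pi) := by
  rcases Int.natAbs_eq k with h | h
  · conv_rhs => rw [h, Int.cast_natCast]
  · conv_rhs => rw [h, Int.cast_neg, Int.cast_natCast, neg_mul, Real.cos_neg]

lemma cos_nat (k : ℕ) : Real.cos ((k:ℝ) * Real.pi) = (-1) ^ k := Real.cos_nat_mul_pi k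

/-- the case of equality, even functions -/
theorem even_nodes {F : ℂ → ℂ} (hF : Differentiable ℂ F) (hev : ∀ s, F (-s) = F s)
    (hb : ∀ z, ‖F z‖ ≤ 1 * Real.exp |z.im|) :
    U F = ((2 / Real.pi : ℝ) : ℂ) ↔ ∀ k : ℕ, 1 ≤ k → F (tk k) = (-1) ^ (k + 1) := by
  have hdiff : ∀ N : ℕ, 1 ≤ N → ‖(SN (gg F) a a N - SN (gg F0) a a N)
      + a * (U F - U F0) / 2‖ ≤ 18 * Real.exp a / N := by
    intro N hN
    have h1 := U_bound hF hev zero_le_one hb hN
    have h2 := U_bound F0_diff F0_even zero_le_one F0_bound hN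
    have h3 := norm_sub_le (SN (gg F) a a N + a * U F / 2) (SN (gg F0) a a N + a * U F0 / 2)
    have e : (SN (gg F) a a N - SN (gg F0) a a N) + a * (U F - U F0) / 2
        = (SN (gg F) a a N + a * U F / 2) - (SN (gg F0) a a N + a * U F0 / 2) := by ring
    rw [e]
    calc _ ≤ 1 * Real.exp a * (9 / N) + 1 * Real.exp a * (9 / N) := by linarith
      _ = _ := by ring
  have ht : Tendsto (fun N : ℕ => 18 * Real.exp a / (N:ℝ)) atTop (𝓝 0) :=
    tendsto_const_div_atTop_nhds_zero_nat _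
  have hdS : ∀ N : ℕ, SN (gg F) a a N - SN (gg F0) a a N = ∑ k ∈ Finset.Icc (-(N:ℤ)) N,
      ((W k : ℝ) : ℂ) * (((Real.cos ((k:ℝ) * Real.pi) : ℝ) : ℂ) * F (tk k.natAbs) + 1) := by
    intro N
    rw [SN_eq, SN_eq, ← Finset.sum_sub_distrib]
    apply Finset.sum_congr rfl
    intro k _
    by_cases hk : k = 0
    · subst hk
      rw [W_zero]; simp
    · rw [gg_int hev hk, gg_int F0_even hk, F0_node (tk_sqC' hk)]
      have hcc : Complex.cos ((k:ℂ) * Real.pi) = ((Real.cos ((k:ℝ) * Real.pi) : ℝ) : ℂ) := by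
        push_cast; rfl
      have hcC : ((Real.cos ((k:ℝ) * Real.pi) : ℝ) : ℂ) * ((Real.cos ((k:ℝ) * Real.pi) : ℝ) : ℂ)
          = 1 := by
        exact_mod_cast congrArg (fun x : ℝ => (x : ℂ)) (cos_int_sq k)
      rw [hcc]
      linear_combination ((W k : ℝ) : ℂ) * hcC
  have hnode : ∀ k : ℕ, 1 ≤ k → ‖F (tk k)‖ ≤ 1 := by
    intro k _
    have := hb (tk k)
    simpa using this
  constructor
  · intro hU k hk
    -- the real part
    have hterm : ∀ j : ℤ, 0 ≤ (((W j : ℝ) : ℂ) * (((Real.cos ((j:ℝ) * Real.pi) : ℝ) : ℂ) *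
        F (tk j.natAbs) + 1)).re := by
      intro j
      by_cases hj : j = 0
      · subst hj; rw [W_zero]; simp
      · rw [Complex.re_ofReal_mul]
        apply mul_nonneg (W_nonneg j)
        rw [Complex.add_re, Complex.re_ofReal_mul, Complex.one_re]
        have h1 := hnode j.natAbs (by omega)
        have h2 := Complex.abs_re_le_norm (F (tk j.natAbs))
        have h3 := cos_int_sq j
        have h4 : |Real.cos ((j:ℝ) * Real.pi) * (F (tk j.natAbs)).re| ≤ 1 := by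
          rw [abs_mul]
          have := Real.abs_cos_le_one ((j:ℝ) * Real.pi)
          have h5 := abs_nonneg (F (tk j.natAbs)).re
          nlinarith [abs_nonneg (Real.cos ((j:ℝ) * Real.pi))]
        have := (abs_le.1 h4).1
        linarith
    have hk0 : ((k:ℤ)) ≠ 0 := by omega
    have hle : W k * ((Real.cos ((k:ℝ) * Real.pi)) * (F (tk k)).re + 1) ≤ 0 := by
      refine ge_of_tendsto ht ?_
      filter_upwards [eventually_ge_atTop (max 1 k)] with N hN
      have hN1 : 1 ≤ N := le_trans (le_max_left _ _) hN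
      have hNk : k ≤ N := le_trans (le_max_right _ _) hN
      have h1 := hdiff N hN1
      rw [hU, U_F0, sub_self, mul_zero, zero_div, add_zero] at h1
      have h2 := (Complex.re_le_norm _).trans h1
      rw [hdS N, Complex.re_sum] at h2
      refine le_trans ?_ h2
      have h3 := Finset.single_le_sum (f := fun j : ℤ => (((W j : ℝ) : ℂ) *
        (((Real.cos ((j:ℝ) * Real.pi) : ℝ) : ℂ) * F (tk j.natAbs) + 1)).re)
        (s := Finset.Icc (-(N:ℤ)) N) (fun j _ => hterm j) (a := (k:ℤ)) (by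
          rw [Finset.mem_Icc]; constructor <;> omega)
      refine le_trans (le_of_eq ?_) h3
      rw [Complex.re_ofReal_mul, Complex.add_re, Complex.re_ofReal_mul, Complex.one_re]
      simp
    have hW := W_pos hk0
    have h5 : (Real.cos ((k:ℝ) * Real.pi)) * (F (tk k)).re + 1 ≤ 0 := by
      by_contra hcon
      rw [not_le] at hcon
      have := mul_pos hW hcon
      linarith
    rw [cos_nat] at h5
    -- `F (t_k)` has modulus at most one
    have h6 := hnode k hk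
    have hsgn : ((-1:ℝ)) ^ k * (-1) ^ k = 1 := by
      rw [← mul_pow]; norm_num
    have hre : ((-1:ℝ)) ^ k * (F (tk k)).re = -1 := by
      have h7 : |((-1:ℝ)) ^ k * (F (tk k)).re| ≤ 1 := by
        rw [abs_mul, abs_pow, abs_neg, abs_one, one_pow, one_mul]
        exact (Complex.abs_re_le_norm _).trans h6
      have := (abs_le.1 h7).1
      linarith
    have hre' : (F (tk k)).re = (-1) ^ (k + 1) := by
      have : (F (tk k)).re = ((-1:ℝ)) ^ k * (((-1:ℝ)) ^ k * (F (tk k)).re) := by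
        rw [← mul_assoc, hsgn, one_mul]
      rw [this, hre, pow_succ]
    have hsq : (F (tk k)).re ^ 2 = 1 := by
      rw [hre', ← pow_mul, mul_comm, pow_mul]; norm_num
    have him : (F (tk k)).im = 0 := by
      have h8 : ‖F (tk k)‖ ^ 2 ≤ 1 := by
        have := norm_nonneg (F (tk k)); nlinarith
      rw [Complex.sq_norm, Complex.normSq_apply] at h8
      nlinarith [sq_nonneg (F (tk k)).im]
    apply Complex.ext
    · rw [hre']
      have : (((-1:ℂ)) ^ (k + 1)) = (((-1:ℝ) ^ (k + 1) : ℝ) : ℂ) := by push_cast; rfl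
      rw [this, Complex.ofReal_re]
    · rw [him]
      have : (((-1:ℂ)) ^ (k + 1)) = (((-1:ℝ) ^ (k + 1) : ℝ) : ℂ) := by push_cast; rfl
      rw [this, Complex.ofReal_im]
  · intro hn
    have hz : ∀ N : ℕ, SN (gg F) a a N - SN (gg F0) a a N = 0 := by
      intro N
      rw [hdS N]
      apply Finset.sum_eq_zero
      intro k _
      by_cases hk : k = 0
      · subst hk; rw [W_zero]; simp
      · rw [hn k.natAbs (by omega), ← cos_natAbs, cos_nat]
        have : ((((-1:ℝ) ^ k.natAbs : ℝ)) : ℂ) * (-1) ^ (k.natAbs + 1) + 1 = 0 := by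
          push_cast
          rw [pow_succ, ← mul_assoc, ← mul_pow]; norm_num
        rw [this, mul_zero]
    have hlim : ‖(a:ℂ) * (U F - U F0) / 2‖ ≤ 0 := by
      refine ge_of_tendsto ht ?_
      filter_upwards [eventually_ge_atTop 1] with N hN
      have := hdiff N hN
      rwa [hz N, zero_add] at this
    have h1 : (a:ℂ) * (U F - U F0) / 2 = 0 := norm_le_zero_iff.1 hlim
    have hac : (a:ℂ) ≠ 0 := by exact_mod_cast a_pos.ne'
    have h2 : U F - U F0 = 0 := by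
      rcases mul_eq_zero.1 ((div_eq_zero_iff.1 h1).resolve_right two_ne_zero) with h | h
      · exact absurd h hac
      · exact h
    rw [sub_eq_zero.1 h2, U_F0]

lemma half_eq {x y c : ℂ} (hc : ‖c‖ = 1) (hx : ‖x‖ ≤ 1) (hy : ‖y‖ ≤ 1) (h : (x + y) / 2 = c) :
    x = c ∧ y = c := by
  have hy' : y = 2 * c - x := by linear_combination 2 * h
  have key : ‖x - c‖ ^ 2 + ‖y - c‖ ^ 2 = ‖x‖ ^ 2 + ‖y‖ ^ 2 - 2 * ‖c‖ ^ 2 := by
    rw [hy']
    simp only [Complex.sq_norm, Complex.normSq_apply, Complex.sub_re, Complex.sub_im, Complex.mul_re,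
      Complex.mul_im, Complex.re_ofNat, Complex.im_ofNat]
    ring
  have h1 := norm_nonneg x
  have h2 := norm_nonneg y
  have h3 : ‖x - c‖ ^ 2 ≤ 0 := by
    rw [hc] at key
    nlinarith [sq_nonneg ‖y - c‖]
  have h4 : ‖x - c‖ = 0 := by
    have := sq_nonneg ‖x - c‖
    exact pow_eq_zero_iff (two_ne_zero) |>.1 (le_antisymm h3 this)
  have h5 : x = c := sub_eq_zero.1 (norm_eq_zero.1 h4)
  refine ⟨h5, ?_⟩
  rw [hy', h5]; ring

/-- the even part -/
noncomputable def evp (F : ℂ → ℂ) (z : ℂ) : ℂ := (F z + F (-z)) / 2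

lemma evp_diff {F : ℂ → ℂ} (hF : Differentiable ℂ F) : Differentiable ℂ (evp F) := by
  have hFn : Differentiable ℂ (fun z => F (-z)) := hF.comp differentiable_neg
  exact (hF.add hFn).div_const 2

lemma evp_even (F : ℂ → ℂ) (s : ℂ) : evp F (-s) = evp F s := by
  simp only [evp, neg_neg]; ring

lemma evp_bound {F : ℂ → ℂ} {M : ℝ} (hb : ∀ z, ‖F z‖ ≤ M * Real.exp |z.im|) (z : ℂ) :
    ‖evp F z‖ ≤ M * Real.exp |z.im| := by
  unfold evp
  rw [norm_div]
  have h1 := norm_add_le (F z) (F (-z))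
  have h2 := hb z
  have h3 := hb (-z)
  rw [Complex.neg_im, abs_neg] at h3
  have h4 : ‖(2:ℂ)‖ = 2 := by simp
  rw [h4, div_le_iff₀ (by norm_num)]
  linarith

lemma U_evp {F : ℂ → ℂ} (hF : Differentiable ℂ F) : U (evp F) = U F := by
  have hE0 : evp F 0 = F 0 := by simp only [evp, neg_zero]; ring
  have hE2 : deriv (deriv (evp F)) 0 = deriv (deriv F) 0 := by
    have h1 : deriv (evp F) = fun z => (deriv F z - deriv F (-z)) / 2 := by
      ext z
      have d1 : HasDerivAt F (deriv F z) z := (hF z).hasDerivAt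
      have d2 : HasDerivAt (fun z => F (-z)) (-deriv F (-z)) z := by
        have d3 : HasDerivAt F (deriv F (-z)) (-z) := (hF (-z)).hasDerivAt
        have h := HasDerivAt.comp z d3 (hasDerivAt_neg z)
        rw [mul_neg_one] at h
        exact h
      have := (d1.add d2).div_const 2
      have e := this.deriv
      have e2 : (fun z => (F + fun z => F (-z)) z / 2) = evp F := by ext z; rfl
      rw [e2] at e
      rw [e]; ring
    rw [h1]
    have hF' : Differentiable ℂ (deriv F) := hF.deriv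
    have d1 : HasDerivAt (deriv F) (deriv (deriv F) 0) 0 := (hF' 0).hasDerivAt
    have d2 : HasDerivAt (fun z => deriv F (-z)) (-deriv (deriv F) 0) 0 := by
      have d3 : HasDerivAt (deriv F) (deriv (deriv F) 0) (-0) := by rw [neg_zero]; exact d1
      have h := HasDerivAt.comp (0:ℂ) d3 (hasDerivAt_neg 0)
      rw [mul_neg_one] at h
      exact h
    have := (d1.sub d2).div_const 2
    have e := this.deriv
    have e2 : (fun z => (deriv F - fun z => deriv F (-z)) z / 2)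
        = fun z => (deriv F z - deriv F (-z)) / 2 := by ext z; rfl
    rw [e2] at e
    rw [e]; ring
  unfold U
  rw [hE0, hE2]

/-- **The case of equality.** -/
theorem nodes_iff {F : ℂ → ℂ} (hF : Differentiable ℂ F) (hb : ∀ z, ‖F z‖ ≤ 1 * Real.exp |z.im|) :
    U F = ((2 / Real.pi : ℝ) : ℂ) ↔
      ∀ k : ℕ, 1 ≤ k → F (tk k) = (-1) ^ (k + 1) ∧ F (-tk k) = (-1) ^ (k + 1) := by
  rw [← U_evp hF, even_nodes (evp_diff hF) (evp_even F) (evp_bound hb)]
  constructor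
  · intro h k hk
    have h1 := h k hk
    unfold evp at h1
    refine half_eq ?_ ?_ ?_ h1
    · rw [norm_pow, norm_neg, norm_one, one_pow]
    · have := hb (tk k); simpa using this
    · have := hb (-tk k); simpa using this
  · intro h k hk
    obtain ⟨h1, h2⟩ := h k hk
    unfold evp
    rw [h1, h2]; ring

end Pool.Agent.L7h30.NE
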