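import Pool.Agent.L7h30.NE.Interp

/-!
# Functions of exponential type one with prescribed values at the nodes `± t_k`
-/

set_option autoImplicit false

open Complex Filter Topology Metric Set
open scoped ComplexConjugate
open Pool.Agent.Helper797.Bs
open Pool.Agent.K7.H38.MD

namespace Pool.Agent.L7h30.NE

/-- an even function of exponential type one vanishing at `k π`, `k ≠ 0`, is a multiple of `sin s / s` -/
theorem even_zeros {g : ℂ → ℂ} (hg : Differentiable ℂ g) (hev : ∀ s, g (-s) = g s) {C : ℝ}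
    (hC : 0 ≤ C) (hgC : ∀ s, ‖g s‖ ≤ C * Real.exp |s.im|)
    (h0 : ∀ k : ℤ, k ≠ 0 → g ((k:ℂ) * Real.pi) = 0) : ∃ c : ℂ, ∀ s, g s = c * snc s := by
  have hSN : ∀ (z w : ℝ) (N : ℕ), SN g z w N = 0 := by
    intro z w N
    unfold SN
    apply Finset.sum_eq_zero
    intro k _
    by_cases hk : k = 0
    · subst hk; simp
    · rw [h0 k hk]; simp
  have hcst : ∀ z : ℝ, 0 < z → z < Real.pi → z ≠ a → hfun g z = hfun g a := by
    intro z hz0 hz1 hza
    have ht : Tendsto (fun N : ℕ => C * (9 / (N:ℝ))) atTop (𝓝 (C * 0)) :=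
      (tendsto_const_div_atTop_nhds_zero_nat 9).const_mul C
    rw [mul_zero] at ht
    have hlim : ‖(hfun g z - hfun g a) / ((z:ℂ) ^ 2 - (a:ℂ) ^ 2)‖ ≤ 0 := by
      refine ge_of_tendsto ht ?_
      filter_upwards [eventually_ge_atTop 1] with N hN
      have := SN_bound hg hev hC hgC hz0 hz1 a_pos a_lt_pi hza hN
      rwa [hSN, zero_add] at this
    have h1 := norm_le_zero_iff.1 hlim
    have h2 : (z:ℂ) ^ 2 - (a:ℂ) ^ 2 ≠ 0 := by
      intro h
      have h2 : (z ^ 2 - a ^ 2 : ℝ) = 0 := by exact_mod_cast h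
      apply hza
      have h3 : (z - a) * (z + a) = 0 := by linear_combination h2
      rcases mul_eq_zero.mp h3 with h4 | h4
      · linarith
      · linarith [a_pos]
    have h3 := (div_eq_zero_iff.1 h1).resolve_right h2
    exact sub_eq_zero.1 h3
  refine ⟨hfun g a, ?_⟩
  have hf : AnalyticOnNhd ℂ g univ := fun z _ => hg.analyticAt z
  have hf2 : AnalyticOnNhd ℂ (fun s => hfun g a * snc s) univ :=
    fun z _ => (snc_diff.const_mul (hfun g a)).analyticAt z
  have hfr : ∃ᶠ z in 𝓝[≠] (a:ℂ), g z = hfun g a * snc z := by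
    have ht : Tendsto (fun x : ℝ => (x:ℂ)) (𝓝[≠] a) (𝓝[≠] (a:ℂ)) := by
      rw [tendsto_nhdsWithin_iff]
      refine ⟨(Complex.continuous_ofReal.tendsto a).mono_left nhdsWithin_le_nhds, ?_⟩
      filter_upwards [self_mem_nhdsWithin] with x hx h
      apply hx
      have h' : (x:ℂ) = (a:ℂ) := h
      exact_mod_cast h'
    apply ht.frequently
    apply Eventually.frequently
    have hev1 : ∀ᶠ x in 𝓝 a, 0 < x ∧ x < Real.pi := by
      have : Ioo (0:ℝ) Real.pi ∈ 𝓝 a := Ioo_mem_nhds a_pos a_lt_pi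
      filter_upwards [this] with x hx
      exact hx
    filter_upwards [hev1.filter_mono nhdsWithin_le_nhds, self_mem_nhdsWithin] with x hx hxa
    have h1 := hcst x hx.1 hx.2 hxa
    have hxc : (x:ℂ) ≠ 0 := by exact_mod_cast hx.1.ne'
    have hs := sin_ne hx.1 hx.2
    rw [← h1, snc_ne hxc]
    unfold hfun
    field_simp
  have := hf.eq_of_frequently_eq hf2 hfr
  exact fun s => congrFun this s

lemma sw_diff' : Differentiable ℂ (fun z : ℂ => sw (z ^ 2)) := sw_diff.comp (by fun_prop)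

lemma sw_node {k : ℕ} (hk : 1 ≤ k) : sw (((tk k : ℝ) : ℂ) ^ 2) = 0 := by
  rw [sw_eq (s := (k:ℂ) * Real.pi) (by rw [tk_sqC hk]; ring)]
  have hk0 : (k:ℂ) ≠ 0 := by exact_mod_cast (by omega : k ≠ 0)
  have hpi : (Real.pi : ℂ) ≠ 0 := by exact_mod_cast Real.pi_ne_zero
  rw [snc_ne (mul_ne_zero hk0 hpi)]
  have : Complex.sin ((k:ℂ) * Real.pi) = 0 := Complex.sin_nat_mul_pi k
  rw [this, zero_div]

lemma sw_node' {k : ℕ} (hk : 1 ≤ k) : sw ((-((tk k : ℝ) : ℂ)) ^ 2) = 0 := by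
  rw [neg_sq]; exact sw_node hk

/-- the derivative of `sw` at `t_1²` -/
lemma sw_deriv_ne : deriv sw (((tk 1 : ℝ) : ℂ) ^ 2) ≠ 0 := by
  have hpi : (Real.pi : ℂ) ≠ 0 := by exact_mod_cast Real.pi_ne_zero
  have h1 : deriv (ev snc) ((Real.pi : ℂ) ^ 2)
      = ((Complex.cos Real.pi * Real.pi - Complex.sin Real.pi) / (Real.pi:ℂ) ^ 2) / (2 * Real.pi) :=
    ev_deriv snc_diff snc_neg hpi (snc_deriv hpi)
  have h2 : deriv sw (((tk 1 : ℝ) : ℂ) ^ 2) = deriv (ev snc) ((Real.pi : ℂ) ^ 2) := by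
    have e : ((tk 1 : ℝ) : ℂ) ^ 2 + (a:ℂ) ^ 2 = (Real.pi : ℂ) ^ 2 := by
      rw [tk_sqC le_rfl]; push_cast; ring
    have h3 : HasDerivAt (ev snc) (deriv (ev snc) ((Real.pi : ℂ) ^ 2))
        (((tk 1 : ℝ) : ℂ) ^ 2 + (a:ℂ) ^ 2) := by
      rw [e]; exact (evsnc_diff _).hasDerivAt
    have h4 : HasDerivAt sw (deriv (ev snc) ((Real.pi : ℂ) ^ 2)) (((tk 1 : ℝ) : ℂ) ^ 2) :=
      h3.comp_add_const _ _
    exact h4.deriv
  rw [h2, h1, Complex.cos_pi, Complex.sin_pi]
  apply div_ne_zero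
  · apply div_ne_zero
    · simp
    · exact pow_ne_zero _ hpi
  · exact mul_ne_zero two_ne_zero hpi

/-- even functions with zeros at the nodes -/
lemma even_form {E : ℂ → ℂ} (hE : Differentiable ℂ E) (hev : ∀ s, E (-s) = E s) {M : ℝ} (hM : 0 ≤ M)
    (hb : ∀ z, ‖E z‖ ≤ M * Real.exp |z.im|) (h0 : ∀ k : ℕ, 1 ≤ k → E (tk k) = 0) :
    ∃ c : ℂ, ∀ z, E z = c * sw (z ^ 2) := by
  obtain ⟨c, hc⟩ := even_zeros (gg_diff hE hev) (gg_even E) (by positivity) (gg_bound hM hb) (by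
    intro k hk
    rw [gg_int hev hk]
    exact h0 _ (by omega))
  refine ⟨c, fun z => ?_⟩
  have h1 : (Complex.sqrt (z ^ 2 + (a:ℂ) ^ 2)) ^ 2 = z ^ 2 + (a:ℂ) ^ 2 := sq_sqrt _
  rw [sw_eq h1, ← hc, gg_eq hev (z := z)]
  rw [h1]; ring

/-- the odd part -/
noncomputable def odp (F : ℂ → ℂ) (z : ℂ) : ℂ := (F z - F (-z)) / 2

lemma odp_diff {F : ℂ → ℂ} (hF : Differentiable ℂ F) : Differentiable ℂ (odp F) := by
  have hFn : Differentiable ℂ (fun z => F (-z)) := hF.comp differentiable_neg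
  exact (hF.sub hFn).div_const 2

lemma odp_bound {F : ℂ → ℂ} {M : ℝ} (hb : ∀ z, ‖F z‖ ≤ M * Real.exp |z.im|) (z : ℂ) :
    ‖odp F z‖ ≤ M * Real.exp |z.im| := by
  unfold odp
  rw [norm_div]
  have h1 := norm_sub_le (F z) (F (-z))
  have h2 := hb z
  have h3 := hb (-z)
  rw [Complex.neg_im, abs_neg] at h3
  have h4 : ‖(2:ℂ)‖ = 2 := by simp
  rw [h4, div_le_iff₀ (by norm_num)]
  linarith

lemma ev_add_od (F : ℂ → ℂ) (z : ℂ) : F z = evp F z + odp F z := by
  unfold evp odp; ring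

/-- odd functions with zeros at the nodes -/
lemma odd_form {O : ℂ → ℂ} (hO : Differentiable ℂ O) (hodd : ∀ s, O (-s) = -O s) {M : ℝ}
    (hM : 0 ≤ M) (hb : ∀ z, ‖O z‖ ≤ M * Real.exp |z.im|) (h0 : ∀ k : ℕ, 1 ≤ k → O (tk k) = 0) :
    ∃ c : ℂ, ∀ z, O z = c * z * sw (z ^ 2) := by
  have hO0 : O 0 = 0 := by
    have := hodd 0
    rw [neg_zero] at this
    have h2 : (2:ℂ) * O 0 = 0 := by linear_combination this
    simpa using h2
  set w : ℂ → ℂ := dslope O 0 with hw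
  have hwd : Differentiable ℂ w := by
    have h : DifferentiableOn ℂ w univ :=
      (Complex.differentiableOn_dslope (by simp)).2 hO.differentiableOn
    exact fun z => (h z (mem_univ z)).differentiableAt (by simp)
  have hwne : ∀ z, z ≠ 0 → w z = O z / z := by
    intro z hz
    rw [hw, dslope_of_ne _ hz, slope_def_field, hO0, sub_zero, sub_zero]
  have hweven : ∀ s, w (-s) = w s := by
    intro s
    by_cases hs : s = 0
    · rw [hs, neg_zero]
    · rw [hwne s hs, hwne (-s) (neg_ne_zero.2 hs), hodd, neg_div_neg_eq]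
  obtain ⟨K, hK⟩ := (isCompact_closedBall (0 : ℂ) 1).exists_bound_of_continuousOn
    hwd.continuous.continuousOn
  have hwb : ∀ z, ‖w z‖ ≤ max M K * Real.exp |z.im| := by
    intro z
    have hexp : 1 ≤ Real.exp |z.im| := Real.one_le_exp (abs_nonneg _)
    have hmax : 0 ≤ max M K := le_max_of_le_left hM
    rcases le_total ‖z‖ 1 with h | h
    · have h1 := hK z (by simpa using h)
      have h2 : K ≤ max M K := le_max_right _ _
      nlinarith
    · have hz : z ≠ 0 := by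
        intro h0; rw [h0, norm_zero] at h; linarith
      rw [hwne z hz, norm_div]
      have h1 : ‖O z‖ / ‖z‖ ≤ ‖O z‖ := div_le_self (norm_nonneg _) h
      have h2 := hb z
      have h3 : M ≤ max M K := le_max_left _ _
      nlinarith
  obtain ⟨c, hc⟩ := even_form hwd hweven (le_max_of_le_left hM) hwb (by
    intro k hk
    have : ((tk k : ℝ) : ℂ) ≠ 0 := by exact_mod_cast (tk_pos hk).ne'
    rw [hwne _ this, h0 k hk, zero_div])
  refine ⟨c, fun z => ?_⟩
  by_cases hz : z = 0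
  · rw [hz, hO0]; ring
  · have h1 := hc z
    rw [hwne z hz, div_eq_iff hz] at h1
    rw [h1]; ring

/-- **functions with zeros at the nodes** -/
theorem zeros_form {J : ℂ → ℂ} (hJ : Differentiable ℂ J) {M : ℝ} (hM : 0 ≤ M)
    (hb : ∀ z, ‖J z‖ ≤ M * Real.exp |z.im|)
    (h0 : ∀ k : ℕ, 1 ≤ k → J (tk k) = 0 ∧ J (-tk k) = 0) :
    ∃ β γ : ℂ, ∀ z, J z = (β + γ * z) * sw (z ^ 2) := by
  obtain ⟨β, hβ⟩ := even_form (evp_diff hJ) (evp_even J) hM (evp_bound hb) (by
    intro k hk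
    obtain ⟨h1, h2⟩ := h0 k hk
    unfold evp
    rw [h1, h2]; ring)
  obtain ⟨γ, hγ⟩ := odd_form (odp_diff hJ) (by intro s; simp only [odp, neg_neg]; ring) hM
    (odp_bound hb) (by
    intro k hk
    obtain ⟨h1, h2⟩ := h0 k hk
    unfold odp
    rw [h1, h2]; ring)
  refine ⟨β, γ, fun z => ?_⟩
  rw [ev_add_od J z, hβ, hγ]; ring

/-- **functions with double zeros at the nodes vanish** -/
theorem zeros_double {J : ℂ → ℂ} (hJ : Differentiable ℂ J) {M : ℝ} (hM : 0 ≤ M)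
    (hb : ∀ z, ‖J z‖ ≤ M * Real.exp |z.im|)
    (h0 : ∀ k : ℕ, 1 ≤ k → J (tk k) = 0 ∧ J (-tk k) = 0)
    (h1 : deriv J (tk 1) = 0) (h2 : deriv J (-tk 1) = 0) (z : ℂ) : J z = 0 := by
  obtain ⟨β, γ, hJf⟩ := zeros_form hJ hM hb h0
  have hsw : ∀ z : ℂ, HasDerivAt (fun z : ℂ => sw (z ^ 2)) (deriv sw (z ^ 2) * (2 * z)) z := by
    intro z
    have h3 : HasDerivAt (fun s : ℂ => s ^ 2) (2 * z) z := by simpa using hasDerivAt_pow 2 z
    have h4 : HasDerivAt sw (deriv sw (z ^ 2)) (z ^ 2) := (sw_diff _).hasDerivAt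
    have h5 := HasDerivAt.comp z h4 h3
    exact h5
  have hd : ∀ z : ℂ, deriv J z = γ * sw (z ^ 2) + (β + γ * z) * (deriv sw (z ^ 2) * (2 * z)) := by
    intro z
    have e : J = fun z => (β + γ * z) * sw (z ^ 2) := funext hJf
    have h5 : HasDerivAt (fun z : ℂ => β + γ * z) γ z := by
      simpa using ((hasDerivAt_id z).const_mul γ).const_add β
    have h6 := h5.mul (hsw z)
    rw [e]
    exact h6.deriv
  have ht : ((tk 1 : ℝ) : ℂ) ≠ 0 := by exact_mod_cast (tk_pos le_rfl).ne'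
  have hn := sw_deriv_ne
  have e1 := hd (tk 1)
  have e2 := hd (-tk 1)
  rw [h1, sw_node le_rfl, mul_zero, zero_add] at e1
  rw [h2, sw_node' le_rfl, mul_zero, zero_add, neg_sq] at e2
  have e3 : β + γ * (tk 1 : ℝ) = 0 := by
    rcases mul_eq_zero.1 e1.symm with h | h
    · exact h
    · exact absurd h (mul_ne_zero hn (mul_ne_zero two_ne_zero ht))
  have e4 : β + γ * (-(tk 1 : ℝ)) = 0 := by
    rcases mul_eq_zero.1 e2.symm with h | h
    · exact h
    · exact absurd h (mul_ne_zero hn (mul_ne_zero two_ne_zero (neg_ne_zero.2 ht)))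
  have hβ : β = 0 := by
    have : (2:ℂ) * β = 0 := by linear_combination e3 + e4
    simpa using this
  have hγ : γ = 0 := by
    have h7 : γ * (tk 1 : ℝ) = 0 := by linear_combination e3 - hβ
    exact (mul_eq_zero.1 h7).resolve_right ht
  rw [hJf, hβ, hγ]; ring

/-! ### real and imaginary parts -/

/-- the conjugate function -/
noncomputable def cj (G : ℂ → ℂ) (z : ℂ) : ℂ := conj (G (conj z))

/-- the real part as an entire function -/
noncomputable def reP (G : ℂ → ℂ) (z : ℂ) : ℂ := (G z + cj G z) / 2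

/-- the imaginary part as an entire function -/
noncomputable def imP (G : ℂ → ℂ) (z : ℂ) : ℂ := (G z - cj G z) / (2 * I)

lemma cj_diff {G : ℂ → ℂ} (hG : Differentiable ℂ G) : Differentiable ℂ (cj G) := by
  intro z
  have h : DifferentiableAt ℂ G (conj z) := hG _
  have h2 := h.conj_conj
  rw [Complex.conj_conj] at h2
  exact h2

lemma cj_bound {G : ℂ → ℂ} {M : ℝ} (hb : ∀ z, ‖G z‖ ≤ M * Real.exp |z.im|) (z : ℂ) :
    ‖cj G z‖ ≤ M * Real.exp |z.im| := by
  unfold cj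
  rw [Complex.norm_conj]
  have := hb (conj z)
  rwa [Complex.conj_im, abs_neg] at this

lemma reP_diff {G : ℂ → ℂ} (hG : Differentiable ℂ G) : Differentiable ℂ (reP G) :=
  (hG.add (cj_diff hG)).div_const 2

lemma imP_diff {G : ℂ → ℂ} (hG : Differentiable ℂ G) : Differentiable ℂ (imP G) :=
  (hG.sub (cj_diff hG)).div_const (2 * I)

lemma reP_bound {G : ℂ → ℂ} {M : ℝ} (hb : ∀ z, ‖G z‖ ≤ M * Real.exp |z.im|) (z : ℂ) :
    ‖reP G z‖ ≤ M * Real.exp |z.im| := by
  unfold reP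
  rw [norm_div]
  have h1 := norm_add_le (G z) (cj G z)
  have h2 := hb z
  have h3 := cj_bound hb z
  have h4 : ‖(2:ℂ)‖ = 2 := by simp
  rw [h4, div_le_iff₀ (by norm_num)]
  linarith

lemma imP_bound {G : ℂ → ℂ} {M : ℝ} (hb : ∀ z, ‖G z‖ ≤ M * Real.exp |z.im|) (z : ℂ) :
    ‖imP G z‖ ≤ M * Real.exp |z.im| := by
  unfold imP
  rw [norm_div]
  have h1 := norm_sub_le (G z) (cj G z)
  have h2 := hb z
  have h3 := cj_bound hb z
  have h4 : ‖(2 * I:ℂ)‖ = 2 := by simp
  rw [h4, div_le_iff₀ (by norm_num)]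
  linarith

lemma reP_add_imP (G : ℂ → ℂ) (z : ℂ) : G z = reP G z + I * imP G z := by
  unfold reP imP
  have := I_ne_zero
  field_simp
  ring

lemma reP_real (G : ℂ → ℂ) (x : ℝ) : reP G x = ((G x).re : ℂ) := by
  unfold reP cj
  rw [Complex.conj_ofReal]
  apply Complex.ext <;> simp

lemma imP_real (G : ℂ → ℂ) (x : ℝ) : imP G x = ((G x).im : ℂ) := by
  unfold imP cj
  rw [Complex.conj_ofReal, Complex.sub_conj]
  have := I_ne_zero
  push_cast
  field_simp

/-- at an extremum of a function real on the reals the derivative vanishes -/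
lemma deriv_zero {G : ℂ → ℂ} (hG : Differentiable ℂ G) (hr : ∀ x : ℝ, (G x).im = 0)
    (hb : ∀ x : ℝ, |(G x).re| ≤ 1) {x0 : ℝ} (h0 : |(G x0).re| = 1) : deriv G (x0 : ℂ) = 0 := by
  have h1 : HasDerivAt G (deriv G (x0:ℂ)) (x0:ℂ) := (hG _).hasDerivAt
  have hre : HasDerivAt (fun x : ℝ => (G x).re) (deriv G (x0:ℂ)).re x0 := h1.real_of_complex
  have him : HasDerivAt (fun x : ℝ => (G x).im) (deriv G (x0:ℂ)).im x0 := by
    have h2 := h1.comp_ofReal
    exact Complex.imCLM.hasFDerivAt.comp_hasDerivAt x0 h2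
  apply Complex.ext
  · rw [Complex.zero_re]
    rcases (abs_eq (zero_le_one)).1 h0 with h | h
    · have hmax : IsLocalMax (fun x : ℝ => (G x).re) x0 := by
        filter_upwards with x
        rw [h]
        exact (abs_le.1 (hb x)).2
      exact hmax.hasDerivAt_eq_zero hre
    · have hmin : IsLocalMin (fun x : ℝ => (G x).re) x0 := by
        filter_upwards with x
        rw [h]
        exact (abs_le.1 (hb x)).1
      exact hmin.hasDerivAt_eq_zero hre
  · have e : (fun x : ℝ => (G x).im) = fun _ => 0 := funext hr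
    rw [e] at him
    exact him.unique (hasDerivAt_const x0 0)

lemma sw_real (x : ℝ) : sw ((x:ℂ) ^ 2)
    = ((Real.sin √(x ^ 2 + a ^ 2) / √(x ^ 2 + a ^ 2) : ℝ) : ℂ) := by
  have hpos : 0 < x ^ 2 + a ^ 2 := by have := a_pos; positivity
  have hs : 0 < √(x ^ 2 + a ^ 2) := Real.sqrt_pos.2 hpos
  have hsq : ((√(x ^ 2 + a ^ 2) : ℝ) : ℂ) ^ 2 = (x:ℂ) ^ 2 + (a:ℂ) ^ 2 := by
    rw [← Complex.ofReal_pow, Real.sq_sqrt hpos.le]; push_cast; rfl
  rw [sw_eq hsq, snc_ne (by exact_mod_cast hs.ne')]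
  push_cast
  rfl

lemma F0_real (x : ℝ) : F0 (x:ℂ) = ((-Real.cos √(x ^ 2 + a ^ 2) : ℝ) : ℂ) := by
  unfold F0
  rw [← Complex.ofReal_pow, cw_real (sq_nonneg x)]
  push_cast; rfl

lemma sw_real_ne0 : Real.sin √((0:ℝ) ^ 2 + a ^ 2) / √((0:ℝ) ^ 2 + a ^ 2) ≠ 0 := by
  have ha := a_pos
  rw [zero_pow two_ne_zero, zero_add, Real.sqrt_sq ha.le]
  have : Real.sin a = 1 := by unfold a; exact Real.sin_pi_div_two
  rw [this]
  positivity

lemma sw_real_nea : Real.sin √(a ^ 2 + a ^ 2) / √(a ^ 2 + a ^ 2) ≠ 0 := by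
  have ha := a_pos
  have h1 : 0 < √(a ^ 2 + a ^ 2) := Real.sqrt_pos.2 (by positivity)
  have h2 : √(a ^ 2 + a ^ 2) < Real.pi := by
    rw [Real.sqrt_lt' Real.pi_pos]
    unfold a
    nlinarith [Real.pi_pos]
  have := Real.sin_pos_of_pos_of_lt_pi h1 h2
  positivity

lemma neg_one_pow_real (k : ℕ) : (((-1:ℂ)) ^ k) = (((-1:ℝ) ^ k : ℝ) : ℂ) := by push_cast; rfl

lemma abs_neg_one_pow (k : ℕ) : |((-1:ℝ)) ^ k| = 1 := by
  rw [abs_pow, abs_neg, abs_one, one_pow]

/-- **The form of an extremal function on the first diagonal.** -/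
theorem line_form {G : ℂ → ℂ} (hG : Differentiable ℂ G) (hb : ∀ z, ‖G z‖ ≤ 1 * Real.exp |z.im|)
    (hn : ∀ k : ℕ, 1 ≤ k → G (tk k) = (-1) ^ (k + 1) ∧ G (-tk k) = (-1) ^ (k + 1)) :
    (∀ z, reP G z = F0 z) ∧ ∃ β γ : ℝ, ∀ z, imP G z = (β + γ * z) * sw (z ^ 2) := by
  have hF0n : ∀ k : ℕ, 1 ≤ k → F0 (tk k) = (-1) ^ (k + 1) := by
    intro k hk
    rw [F0_node (tk_sqC hk)]
    have : Complex.cos ((k:ℂ) * Real.pi) = ((Real.cos ((k:ℝ) * Real.pi) : ℝ) : ℂ) := by
      push_cast; rfl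
    rw [this, cos_nat]
    push_cast
    ring
  have hF0n' : ∀ k : ℕ, 1 ≤ k → F0 (-tk k) = (-1) ^ (k + 1) := by
    intro k hk
    rw [F0_even, hF0n k hk]
  have hneg : ∀ k : ℕ, (-(tk k : ℝ) : ℂ) = ((-tk k : ℝ) : ℂ) := by intro k; push_cast; rfl
  have hRn : ∀ k : ℕ, 1 ≤ k → reP G (tk k) = (-1) ^ (k + 1) := by
    intro k hk
    rw [reP_real, (hn k hk).1, neg_one_pow_real, Complex.ofReal_re]
  have hRn' : ∀ k : ℕ, 1 ≤ k → reP G (-tk k) = (-1) ^ (k + 1) := by
    intro k hk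
    rw [hneg, reP_real, ← hneg, (hn k hk).2, neg_one_pow_real, Complex.ofReal_re]
  constructor
  · set D : ℂ → ℂ := fun z => reP G z - F0 z with hD
    have hDd : Differentiable ℂ D := (reP_diff hG).sub F0_diff
    have hDb : ∀ z, ‖D z‖ ≤ 2 * Real.exp |z.im| := by
      intro z
      have h1 := norm_sub_le (reP G z) (F0 z)
      have h2 := reP_bound hb z
      have h3 := F0_bound z
      simp only [hD]
      linarith
    have hder : ∀ x0 : ℝ, |(reP G x0).re| = 1 → |(F0 x0).re| = 1 → deriv D (x0:ℂ) = 0 := by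
      intro x0 h1 h2
      have e1 : deriv (reP G) (x0:ℂ) = 0 := by
        apply deriv_zero (reP_diff hG) _ _ h1
        · intro x; rw [reP_real, Complex.ofReal_im]
        · intro x
          have := reP_bound hb x
          rw [Complex.ofReal_im, abs_zero, Real.exp_zero, mul_one] at this
          exact (Complex.abs_re_le_norm _).trans this
      have e2 : deriv F0 (x0:ℂ) = 0 := by
        apply deriv_zero F0_diff _ _ h2
        · intro x; rw [F0_real, Complex.ofReal_im]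
        · intro x
          rw [F0_real, Complex.ofReal_re, abs_neg]
          exact Real.abs_cos_le_one _
      have e3 := ((reP_diff hG (x0:ℂ)).hasDerivAt.sub (F0_diff (x0:ℂ)).hasDerivAt).deriv
      rw [e1, e2, sub_zero] at e3
      exact e3
    have hDz := zeros_double hDd (by norm_num) hDb (by
      intro k hk
      refine ⟨?_, ?_⟩
      · simp only [hD]; rw [hRn k hk, hF0n k hk, sub_self]
      · simp only [hD]; rw [hRn' k hk, hF0n' k hk, sub_self]) (by
      apply hder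
      · rw [hRn 1 le_rfl, neg_one_pow_real, Complex.ofReal_re, abs_neg_one_pow]
      · rw [hF0n 1 le_rfl, neg_one_pow_real, Complex.ofReal_re, abs_neg_one_pow]) (by
      rw [hneg]
      apply hder
      · rw [← hneg, hRn' 1 le_rfl, neg_one_pow_real, Complex.ofReal_re, abs_neg_one_pow]
      · rw [← hneg, hF0n' 1 le_rfl, neg_one_pow_real, Complex.ofReal_re, abs_neg_one_pow])
    intro z
    exact sub_eq_zero.1 (hDz z)
  · obtain ⟨β, γ, hJ⟩ := zeros_form (imP_diff hG) zero_le_one (imP_bound hb) (by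
      intro k hk
      refine ⟨?_, ?_⟩
      · rw [imP_real, (hn k hk).1, neg_one_pow_real, Complex.ofReal_im, Complex.ofReal_zero]
      · rw [hneg, imP_real, ← hneg, (hn k hk).2, neg_one_pow_real, Complex.ofReal_im,
          Complex.ofReal_zero])
    have hreal : ∀ x : ℝ, Real.sin √(x ^ 2 + a ^ 2) / √(x ^ 2 + a ^ 2) ≠ 0 → (β + γ * x).im = 0 := by
      intro x hx
      have h1 := hJ x
      rw [imP_real, sw_real] at h1
      have h2 := congrArg Complex.im h1
      rw [Complex.ofReal_im, Complex.im_mul_ofReal] at h2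
      exact (mul_eq_zero.1 h2.symm).resolve_right hx
    have hβ : β.im = 0 := by
      have := hreal 0 sw_real_ne0
      simpa using this
    have hγ : γ.im = 0 := by
      have h1 := hreal a sw_real_nea
      rw [Complex.add_im, hβ, zero_add, Complex.im_mul_ofReal] at h1
      exact (mul_eq_zero.1 h1).resolve_right a_pos.ne'
    refine ⟨β.re, γ.re, fun z => ?_⟩
    have e1 : ((β.re : ℝ) : ℂ) = β := Complex.ext (by simp) (by simp [hβ])
    have e2 : ((γ.re : ℝ) : ℂ) = γ := Complex.ext (by simp) (by simp [hγ])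
    rw [e1, e2]
    exact hJ z

end Pool.Agent.L7h30.NE
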