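import Pool.Agent.L7h30.NE.Normal

/-!
# The structure of the normal extremals of `∂² / ∂x₁ ∂x₂`
-/

set_option autoImplicit false

open Complex Filter Topology Metric Set
open scoped ComplexConjugate
open Pool.Agent.Helper797.Bs
open Pool.Agent.K7.H38.MD

namespace Pool.Agent.L7h30.NE

lemma Cls_Fs : Cls Fs :=
  ⟨fun z => (Fs_an z (mem_univ z)).differentiableAt, Fs_spec.2,
    ⟨1, fun x y => by rw [← fs_eq]; exact fs_le _⟩⟩

/-- `x ↦ sin √(|x|² + π²/4) / √(|x|² + π²/4)` -/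
noncomputable def sgm (p : ℝ × ℝ) : ℝ :=
  Real.sin √(p.1 ^ 2 + p.2 ^ 2 + a ^ 2) / √(p.1 ^ 2 + p.2 ^ 2 + a ^ 2)

lemma sw_real2 (x y : ℝ) : sw ((x:ℂ) ^ 2 + (y:ℂ) ^ 2) = ((sgm (x, y) : ℝ) : ℂ) := by
  have hpos : 0 < x ^ 2 + y ^ 2 + a ^ 2 := by have := a_pos; positivity
  have hs : 0 < √(x ^ 2 + y ^ 2 + a ^ 2) := Real.sqrt_pos.2 hpos
  have hsq : ((√(x ^ 2 + y ^ 2 + a ^ 2) : ℝ) : ℂ) ^ 2 = ((x:ℂ) ^ 2 + (y:ℂ) ^ 2) + (a:ℂ) ^ 2 := by
    rw [← Complex.ofReal_pow, Real.sq_sqrt hpos.le]; push_cast; rfl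
  rw [sw_eq hsq, snc_ne (by exact_mod_cast hs.ne')]
  unfold sgm
  push_cast
  rfl

lemma Cls_lin (b c d : ℝ) :
    Cls (fun z : ℂ × ℂ => ((b:ℂ) + c * z.1 + d * z.2) * sw (z.1 ^ 2 + z.2 ^ 2)) := by
  refine ⟨?_, fun ε hε => ?_, ?_⟩
  · have h1 : Differentiable ℂ (fun z : ℂ × ℂ => sw (z.1 ^ 2 + z.2 ^ 2)) :=
      sw_diff.comp (f := fun z : ℂ × ℂ => z.1 ^ 2 + z.2 ^ 2) (by fun_prop)
    have h2 : Differentiable ℂ (fun z : ℂ × ℂ => (b:ℂ) + c * z.1 + d * z.2) := by fun_prop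
    exact h2.mul h1
  · obtain ⟨K, hK, hb⟩ := sw_growth
    refine ⟨(|b| + (|c| + |d|) * (1 / ε)) * K, fun z => ?_⟩
    have h1 : ‖(b:ℂ) + c * z.1 + d * z.2‖ ≤ |b| + (|c| + |d|) * ‖z‖ := by
      refine (norm_add₃_le).trans ?_
      rw [norm_mul, norm_mul]
      simp only [Complex.norm_real, Real.norm_eq_abs]
      have a1 := norm_fst_le z
      have a2 := norm_snd_le z
      have := mul_le_mul_of_nonneg_left a1 (abs_nonneg c)
      have := mul_le_mul_of_nonneg_left a2 (abs_nonneg d)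
      linarith
    have h2 : ‖z‖ ≤ 1 / ε * Real.exp (ε * ‖z‖) := by
      have := Real.add_one_le_exp (ε * ‖z‖)
      rw [div_mul_eq_mul_div, one_mul, le_div_iff₀ hε]
      linarith
    have h3 : 1 ≤ Real.exp (ε * ‖z‖) := Real.one_le_exp (by positivity)
    have h4 : ‖(b:ℂ) + c * z.1 + d * z.2‖
        ≤ (|b| + (|c| + |d|) * (1 / ε)) * Real.exp (ε * ‖z‖) := by
      refine h1.trans ?_
      have h5 := mul_le_mul_of_nonneg_left h2 (by positivity : 0 ≤ |c| + |d|)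
      have h6 := mul_le_mul_of_nonneg_left h3 (abs_nonneg b)
      linarith
    rw [norm_mul, Real.exp_add]
    calc _ ≤ ((|b| + (|c| + |d|) * (1 / ε)) * Real.exp (ε * ‖z‖)) *
          (K * Real.exp √(z.1.im ^ 2 + z.2.im ^ 2)) := by
            gcongr
            exact hb z.1 z.2
      _ = _ := by ring
  · refine ⟨|b| / a + |c| + |d|, fun x y => ?_⟩
    have ha := a_pos
    simp only
    rw [sw_real2, norm_mul, Complex.norm_real, Real.norm_eq_abs]
    have e : (b:ℂ) + c * (x:ℂ) + d * (y:ℂ) = ((b + c * x + d * y : ℝ) : ℂ) := by push_cast; rfl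
    rw [e, Complex.norm_real, Real.norm_eq_abs]
    have hpos : 0 < x ^ 2 + y ^ 2 + a ^ 2 := by positivity
    set s := √(x ^ 2 + y ^ 2 + a ^ 2) with hs
    have hs0 : 0 < s := Real.sqrt_pos.2 hpos
    have hsa : a ≤ s := Real.le_sqrt_of_sq_le (by nlinarith [sq_nonneg x, sq_nonneg y])
    have hsx : |x| ≤ s := Real.abs_le_sqrt (by nlinarith [sq_nonneg y, sq_nonneg a])
    have hsy : |y| ≤ s := Real.abs_le_sqrt (by nlinarith [sq_nonneg x, sq_nonneg a])
    have h1 : |sgm (x, y)| ≤ 1 / s := by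
      unfold sgm
      rw [abs_div, abs_of_pos hs0]
      exact div_le_div_of_nonneg_right (Real.abs_sin_le_one _) hs0.le
    have h2 : |b + c * x + d * y| ≤ |b| + |c| * s + |d| * s := by
      refine (abs_add_three _ _ _).trans ?_
      rw [abs_mul, abs_mul]
      have := mul_le_mul_of_nonneg_left hsx (abs_nonneg c)
      have := mul_le_mul_of_nonneg_left hsy (abs_nonneg d)
      linarith
    have h3 : |b| ≤ |b| / a * s := by
      rw [div_mul_eq_mul_div, le_div_iff₀ ha]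
      exact mul_le_mul_of_nonneg_left hsa (abs_nonneg b)
    calc |b + c * x + d * y| * |sgm (x, y)| ≤ (|b| + |c| * s + |d| * s) * (1 / s) := by gcongr
      _ ≤ (|b| / a * s + |c| * s + |d| * s) * (1 / s) := by gcongr
      _ = |b| / a + |c| + |d| := by field_simp

/-- the values at the nodes on the two diagonals -/
def Nodes (F : ℂ × ℂ → ℂ) : Prop := ∀ k : ℕ, 1 ≤ k →
  (F (rot ((tk k : ℝ), 0)) = (-1) ^ (k + 1) ∧ F (rot (-(tk k : ℝ), 0)) = (-1) ^ (k + 1)) ∧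
  (F (rot (0, (tk k : ℝ))) = (-1) ^ k ∧ F (rot (0, -(tk k : ℝ))) = (-1) ^ k)

lemma line_rot_p (F : ℂ × ℂ → ℂ) (z : ℂ) : line F (0, 0) vp z = F (rot (z, 0)) := by
  unfold line vp rot
  congr 1
  apply Prod.ext
  · simp [mul_comm]
  · simp [mul_comm]

lemma line_rot_m (F : ℂ × ℂ → ℂ) (z : ℂ) : line F (0, 0) vm z = F (rot (0, z)) := by
  unfold line vm rot
  congr 1
  apply Prod.ext
  · simp [mul_comm]
  · simp [mul_comm]

lemma U_neg {G : ℂ → ℂ} : U (fun z => -G z) = -U G := by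
  unfold U
  have h1 : deriv (fun z => -G z) = fun z => -deriv G z := by
    ext z; exact deriv.fun_neg
  rw [h1, deriv.fun_neg]
  ring

/-- **extremality in terms of the nodes** -/
theorem T_iff {f : ℝ × ℝ → ℂ} {F : ℂ × ℂ → ℂ} (hF : Cls F)
    (hf : ∀ x y : ℝ, f (x, y) = F ((x : ℂ), (y : ℂ))) (hM : ∀ p, ‖f p‖ ≤ 1) :
    T f 0 = ((2 / Real.pi : ℝ) : ℂ) ↔ Nodes F := by
  have hM' : ∀ x y : ℝ, ‖F ((x : ℂ), (y : ℂ))‖ ≤ 1 := fun x y => by rw [← hf]; exact hM _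
  have hpd := line_diff hF.spec.1 (0, 0) vp
  have hmd := line_diff hF.spec.1 (0, 0) vm
  have hpb := growth_p hF.spec hM' 0 0
  have hmb := growth_m hF.spec hM' 0 0
  rw [Complex.ofReal_zero] at hpb hmb
  have hmd' : Differentiable ℂ (fun z => -line F (0, 0) vm z) := hmd.neg
  have hmb' : ∀ z, ‖-line F (0, 0) vm z‖ ≤ 1 * Real.exp |z.im| := fun z => by
    rw [norm_neg]; exact hmb z
  have hT := T_lines hF.spec.1 hf 0
  simp only [Prod.fst_zero, Prod.snd_zero, Complex.ofReal_zero] at hT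
  have hU1 := U_le hpd zero_le_one hpb
  have hU2 := U_le hmd' zero_le_one hmb'
  rw [mul_one] at hU1 hU2
  have hn1 := nodes_iff hpd hpb
  have hn2 := nodes_iff hmd' hmb'
  rw [U_neg] at hU2 hn2
  have key : T f 0 = ((2 / Real.pi : ℝ) : ℂ) ↔
      U (line F (0, 0) vp) = ((2 / Real.pi : ℝ) : ℂ) ∧
      -U (line F (0, 0) vm) = ((2 / Real.pi : ℝ) : ℂ) := by
    rw [hT]
    set c : ℂ := ((2 / Real.pi : ℝ) : ℂ) with hc
    have hpi := Real.pi_pos
    have hcn : ‖c‖ = 2 / Real.pi := by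
      rw [hc, Complex.norm_real, Real.norm_eq_abs, abs_of_pos (by positivity)]
    constructor
    · intro h
      have hc0 : c ≠ 0 := by
        rw [← norm_pos_iff, hcn]; positivity
      have h1 : (U (line F (0, 0) vp) / c + -U (line F (0, 0) vm) / c) / 2 = 1 := by
        rw [← add_div, ← sub_eq_add_neg, div_div, mul_comm c 2, ← div_div, h]
        exact div_self hc0
      obtain ⟨h2, h3⟩ := half_eq norm_one (by
        rw [norm_div, hcn, div_le_one (by positivity)]; exact hU1) (by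
        rw [norm_div, hcn, div_le_one (by positivity)]; exact hU2) h1
      rw [div_eq_one_iff_eq hc0] at h2 h3
      exact ⟨h2, h3⟩
    · rintro ⟨h1, h2⟩
      rw [sub_eq_add_neg, h1, h2]; ring
  rw [key, hn1, hn2]
  unfold Nodes
  simp only [line_rot_p, line_rot_m]
  constructor
  · rintro ⟨h1, h2⟩ k hk
    refine ⟨h1 k hk, ?_⟩
    obtain ⟨h3, h4⟩ := h2 k hk
    rw [pow_succ] at h3 h4
    exact ⟨by linear_combination -h3, by linear_combination -h4⟩
  · intro h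
    refine ⟨fun k hk => (h k hk).1, fun k hk => ?_⟩
    obtain ⟨h3, h4⟩ := (h k hk).2
    rw [h3, h4, pow_succ]
    exact ⟨by ring, by ring⟩

lemma rot_real (x y : ℝ) : rot ((x:ℂ), (y:ℂ)) = (((hs * (x + y) : ℝ) : ℂ), ((hs * (x - y) : ℝ) : ℂ)) := by
  unfold rot; push_cast; rfl

lemma imP_eq (G : ℂ → ℂ) (z : ℂ) : imP G z = (-I / 2) * (G z - cj G z) := by
  unfold imP
  have : (2 * I)⁻¹ = -I / 2 := by
    rw [mul_inv, Complex.inv_I]; ring
  rw [div_eq_mul_inv, this]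
  ring

/-- **The structure theorem.** -/
theorem structure_thm {F : ℂ × ℂ → ℂ} (hF : Cls F) (hM : ∀ x y : ℝ, ‖F ((x : ℂ), (y : ℂ))‖ ≤ 1)
    (hN : Nodes F) :
    ∃ b c d : ℝ, ∃ e k : ℝ × ℝ → ℝ, (fun p => (e p : ℂ)) ∈ B ∧ (fun p => (k p : ℂ)) ∈ B ∧
      ∀ x y : ℝ, F ((x:ℂ), (y:ℂ)) = fs (x, y) + (((x ^ 2 - y ^ 2) ^ 2 * e (x, y) : ℝ) : ℂ) +
        I * (((b + c * x + d * y) * sgm (x, y) + (x ^ 2 - y ^ 2) * k (x, y) : ℝ) : ℂ) := by
  set Φ : ℂ × ℂ → ℂ := fun z => F (rot z) with hΦ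
  have hΦC : Cls Φ := hF.rot
  have hΦM : ∀ x y : ℝ, ‖Φ ((x : ℂ), (y : ℂ))‖ ≤ 1 := by
    intro x y
    simp only [hΦ]
    rw [rot_real]
    exact hM _ _
  set R : ℂ × ℂ → ℂ := fun z => (1 / 2) * (Φ z + cj2 Φ z) with hR
  set J : ℂ × ℂ → ℂ := fun z => (-I / 2) * (Φ z - cj2 Φ z) with hJ
  have hRC : Cls R := (hΦC.add hΦC.cj2).const_mul _
  have hJC : Cls J := (hΦC.sub hΦC.cj2).const_mul _
  have hsum : ∀ z, Φ z = R z + I * J z := by
    intro z
    simp only [hR, hJ]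
    linear_combination (1 / 2) * (Φ z - cj2 Φ z) * I_mul_I
  have hRr : ∀ x y : ℝ, R ((x : ℂ), (y : ℂ)) = (((Φ ((x : ℂ), (y : ℂ))).re : ℝ) : ℂ) := by
    intro x y
    simp only [hR, cj2, Complex.conj_ofReal]
    rw [Complex.add_conj]
    push_cast; ring
  have hJr : ∀ x y : ℝ, J ((x : ℂ), (y : ℂ)) = (((Φ ((x : ℂ), (y : ℂ))).im : ℝ) : ℂ) := by
    intro x y
    simp only [hJ, cj2, Complex.conj_ofReal]
    rw [Complex.sub_conj]
    push_cast
    linear_combination (-(((Φ ((x : ℂ), (y : ℂ))).im : ℝ) : ℂ)) * I_mul_I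
  have hRM : ∀ x y : ℝ, ‖R ((x : ℂ), (y : ℂ))‖ ≤ 1 := by
    intro x y
    rw [hRr, Complex.norm_real]
    exact (Complex.abs_re_le_norm _).trans (hΦM x y)
  have hRim : ∀ x y : ℝ, (R ((x : ℂ), (y : ℂ))).im = 0 := by
    intro x y; rw [hRr, Complex.ofReal_im]
  -- the two diagonals
  set Gp : ℂ → ℂ := fun p => Φ (p, 0) with hGp
  set Gm : ℂ → ℂ := fun q => -Φ (0, q) with hGm
  have hgrow : ∀ z : ℂ × ℂ, ‖Φ z‖ ≤ 1 * Real.exp √(z.1.im ^ 2 + z.2.im ^ 2) := growth2 hΦC hΦM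
  have hGpd : Differentiable ℂ Gp := hΦC.diff.comp (f := fun p : ℂ => (p, (0:ℂ))) (by fun_prop)
  have hGmd : Differentiable ℂ Gm :=
    (hΦC.diff.comp (f := fun p : ℂ => ((0:ℂ), p)) (by fun_prop)).neg
  have hGpb : ∀ z, ‖Gp z‖ ≤ 1 * Real.exp |z.im| := by
    intro z
    have h := hgrow (z, 0)
    simp only [Complex.zero_im, ne_eq, OfNat.ofNat_ne_zero, not_false_eq_true, zero_pow,
      add_zero] at h
    rw [Real.sqrt_sq_eq_abs] at h
    exact h
  have hGmb : ∀ z, ‖Gm z‖ ≤ 1 * Real.exp |z.im| := by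
    intro z
    have h := hgrow (0, z)
    simp only [Complex.zero_im, ne_eq, OfNat.ofNat_ne_zero, not_false_eq_true, zero_pow,
      zero_add] at h
    rw [Real.sqrt_sq_eq_abs] at h
    simp only [hGm]
    rw [norm_neg]
    exact h
  obtain ⟨hp1, β, γ, hp2⟩ := line_form hGpd hGpb (fun k hk => (hN k hk).1)
  obtain ⟨hm1, β', δ', hm2⟩ := line_form hGmd hGmb (fun k hk => by
    obtain ⟨h3, h4⟩ := (hN k hk).2
    simp only [hGm, hΦ]
    rw [h3, h4, pow_succ]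
    exact ⟨by ring, by ring⟩)
  have hRp : ∀ p, R (p, 0) = F0 p := by
    intro p
    rw [← hp1 p]
    simp only [hR, reP, cj, cj2, hGp, map_zero]
    ring
  have hRq : ∀ q, R (0, q) = -F0 q := by
    intro q
    rw [← hm1 q]
    simp only [hR, reP, cj, cj2, hGm, map_zero, map_neg]
    ring
  have hJp : ∀ p, J (p, 0) = (β + γ * p) * sw (p ^ 2) := by
    intro p
    rw [← hp2 p, imP_eq]
    simp only [hJ, cj, cj2, hGp, map_zero]
  have hJq : ∀ q, J (0, q) = -((β' + δ' * q) * sw (q ^ 2)) := by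
    intro q
    rw [← hm2 q, imP_eq]
    simp only [hJ, cj, cj2, hGm, map_zero, map_neg]
    ring
  have hsw0 : sw ((0:ℂ) ^ 2) ≠ 0 := by
    have := sw_real 0
    rw [Complex.ofReal_zero] at this
    rw [this]
    exact_mod_cast sw_real_ne0
  have hββ : (β':ℂ) = -β := by
    have h1 := hJp 0
    have h2 := hJq 0
    rw [h1, mul_zero, mul_zero, add_zero, add_zero] at h2
    have h3 : ((β:ℂ) + β') * sw ((0:ℂ) ^ 2) = 0 := by linear_combination h2
    have := (mul_eq_zero.1 h3).resolve_right hsw0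
    linear_combination this
  -- the real part
  set P : ℂ × ℂ → ℂ := fun z => Fs (rot z) with hP
  have hPC : Cls P := Cls_Fs.rot
  have hPform : ∀ p q : ℂ, P (p, q) = -((p ^ 2 - q ^ 2) * H (p ^ 2 + q ^ 2)) := by
    intro p q
    simp only [hP, Fs, rot]
    have e1 : ((hs:ℂ) * (p + q)) ^ 2 + ((hs:ℂ) * (p - q)) ^ 2 = p ^ 2 + q ^ 2 := by
      linear_combination (2 * (p ^ 2 + q ^ 2)) * hs_sqC
    have e2 : 2 * ((hs:ℂ) * (p + q)) * ((hs:ℂ) * (p - q)) = p ^ 2 - q ^ 2 := by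
      linear_combination (2 * (p ^ 2 - q ^ 2)) * hs_sqC
    rw [e1, e2]
  have hPp : ∀ p, P (p, 0) = F0 p := by
    intro p
    rw [hPform]
    unfold F0
    rw [← H_mul]
    ring_nf
  have hPq : ∀ q, P (0, q) = -F0 q := by
    intro q
    rw [hPform]
    unfold F0
    rw [← H_mul]
    ring_nf
  have hsqd : HasDerivAt (fun s : ℂ => s ^ 2) 0 (0:ℂ) := by simpa using hasDerivAt_pow 2 (0:ℂ)
  have hPd1 : ∀ s, HasDerivAt (fun t => P (s, t)) 0 0 := by
    intro s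
    have hd : Differentiable ℂ (fun w : ℂ => -((s ^ 2 - w) * H (s ^ 2 + w))) := by
      have : Differentiable ℂ (fun w : ℂ => H (s ^ 2 + w)) := H_diff.comp (by fun_prop)
      fun_prop
    have h1 := (hd ((0:ℂ) ^ 2)).hasDerivAt
    have h2 := HasDerivAt.comp (0:ℂ) h1 hsqd
    rw [mul_zero] at h2
    have e : (fun t => P (s, t)) = (fun w : ℂ => -((s ^ 2 - w) * H (s ^ 2 + w))) ∘ fun t => t ^ 2 := by
      ext t; exact hPform s t
    rw [e]; exact h2
  have hPd2 : ∀ s, HasDerivAt (fun t => P (t, s)) 0 0 := by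
    intro s
    have hd : Differentiable ℂ (fun w : ℂ => -((w - s ^ 2) * H (w + s ^ 2))) := by
      have : Differentiable ℂ (fun w : ℂ => H (w + s ^ 2)) := H_diff.comp (by fun_prop)
      fun_prop
    have h1 := (hd ((0:ℂ) ^ 2)).hasDerivAt
    have h2 := HasDerivAt.comp (0:ℂ) h1 hsqd
    rw [mul_zero] at h2
    have e : (fun t => P (t, s)) = (fun w : ℂ => -((w - s ^ 2) * H (w + s ^ 2))) ∘ fun t => t ^ 2 := by
      ext t; exact hPform t s
    rw [e]; exact h2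
  have hn1 := normal_zero hRC hRM hRim hRp hRq
  have hsecd : ∀ s, Differentiable ℂ (fun t => R (s, t)) := fun s =>
    hRC.diff.comp (f := fun t : ℂ => (s, t)) (by fun_prop)
  have hsecd2 : ∀ s, Differentiable ℂ (fun t => R (t, s)) := fun s =>
    hRC.diff.comp (f := fun t : ℂ => (t, s)) (by fun_prop)
  have hn2 : ∀ s, deriv (fun t => R (t, s)) 0 = 0 := by
    intro s
    have hC : Cls (fun z : ℂ × ℂ => -1 * R (z.2, z.1)) := (hRC.swap).const_mul (-1)
    have h := normal_zero hC (fun x y => by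
      rw [neg_one_mul, norm_neg]; exact hRM y x) (fun x y => by
      rw [neg_one_mul, Complex.neg_im, hRim, neg_zero]) (fun p => by
      simp only; rw [hRq]; ring) (fun q => by
      simp only; rw [hRp]; ring) s
    unfold nd at h
    simp only at h
    have h2 : HasDerivAt (fun t => -1 * R (t, s)) (-1 * deriv (fun t => R (t, s)) 0) 0 :=
      (hsecd2 s 0).hasDerivAt.const_mul (-1)
    rw [h2.deriv] at h
    linear_combination -h
  obtain ⟨E, hE, hEf⟩ := div_axes2 (hRC.sub hPC) (fun s => by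
      rw [hRq, hPq, sub_self]) (fun s => by
      rw [hRp, hPp, sub_self]) (fun s => by
      have h1 := (hsecd2 s 0).hasDerivAt
      rw [hn2] at h1
      have h2 := (h1.sub (hPd2 s)).deriv
      rw [sub_zero] at h2
      exact h2) (fun s => by
      have h1 := (hsecd s 0).hasDerivAt
      have h0 := hn1 s
      unfold nd at h0
      rw [h0] at h1
      have h2 := (h1.sub (hPd1 s)).deriv
      rw [sub_zero] at h2
      exact h2)
  -- the imaginary part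
  obtain ⟨K, hK, hKf⟩ := div_axes (hJC.sub (Cls_lin β γ (-δ'))) (fun s => by
      simp only
      rw [hJq, hββ]
      push_cast
      ring_nf) (fun s => by
      simp only
      rw [hJp]
      push_cast
      ring_nf)
  have hkey : ∀ x y : ℝ, (((x ^ 2 - y ^ 2) ^ 2 : ℝ) : ℂ) * ((1 / 4) * E (rot ((x:ℂ), (y:ℂ))))
      = R (rot ((x:ℂ), (y:ℂ))) - fs (x, y) ∧
      (((x ^ 2 - y ^ 2) : ℝ) : ℂ) * ((1 / 2) * K (rot ((x:ℂ), (y:ℂ))))
      = J (rot ((x:ℂ), (y:ℂ))) - (((β + hs * (γ - δ') * x + hs * (γ + δ') * y) * sgm (x, y) : ℝ) : ℂ) := by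
    intro x y
    set w := rot ((x:ℂ), (y:ℂ)) with hw
    have hw1 : w.1 * w.2 = ((x:ℂ) ^ 2 - (y:ℂ) ^ 2) / 2 := by
      rw [hw]; unfold rot; simp only
      linear_combination ((x:ℂ) ^ 2 - (y:ℂ) ^ 2) * hs_sqC
    have hw2 : w.1 ^ 2 + w.2 ^ 2 = (x:ℂ) ^ 2 + (y:ℂ) ^ 2 := by
      rw [hw]; unfold rot; simp only
      linear_combination (2 * ((x:ℂ) ^ 2 + (y:ℂ) ^ 2)) * hs_sqC
    have h1 := hEf w.1 w.2
    have h2 := hKf w.1 w.2
    have h3 : P (w.1, w.2) = fs (x, y) := by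
      rw [fs_eq]
      have : P (w.1, w.2) = Fs (rot (rot ((x:ℂ), (y:ℂ)))) := rfl
      rw [this, rot_rot]
    simp only [Prod.mk.eta] at h1 h2 h3
    have h4 : ((β:ℂ) + γ * w.1 + ((-δ' : ℝ) : ℂ) * w.2) * sw (w.1 ^ 2 + w.2 ^ 2)
        = (((β + hs * (γ - δ') * x + hs * (γ + δ') * y) * sgm (x, y) : ℝ) : ℂ) := by
      rw [hw2, sw_real2, hw]
      unfold rot
      push_cast
      ring
    constructor
    · rw [← h3, h1]
      have : (w.1) ^ 2 * w.2 ^ 2 = (((x:ℂ) ^ 2 - (y:ℂ) ^ 2) / 2) ^ 2 := by rw [← hw1]; ring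
      rw [this]
      push_cast
      ring
    · rw [← h4, h2, hw1]
      push_cast
      ring
  have heB : (fun p : ℝ × ℝ => (1 / 4) * E (rot ((p.1:ℂ), (p.2:ℂ)))) ∈ B :=
    mem_B.2 ⟨fun z => (1 / 4) * E (rot z), hE.rot.const_mul _, fun x y => rfl⟩
  have hkB : (fun p : ℝ × ℝ => (1 / 2) * K (rot ((p.1:ℂ), (p.2:ℂ)))) ∈ B :=
    mem_B.2 ⟨fun z => (1 / 2) * K (rot z), hK.rot.const_mul _, fun x y => rfl⟩
  refine ⟨β, hs * (γ - δ'), hs * (γ + δ'), fun p => ((1 / 4) * E (rot ((p.1:ℂ), (p.2:ℂ)))).re,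
    fun p => ((1 / 2) * K (rot ((p.1:ℂ), (p.2:ℂ)))).re, re_mem heB, re_mem hkB, fun x y => ?_⟩
  obtain ⟨h1, h2⟩ := hkey x y
  have h3 : F ((x:ℂ), (y:ℂ)) = R (rot ((x:ℂ), (y:ℂ))) + I * J (rot ((x:ℂ), (y:ℂ))) := by
    rw [← hsum]; simp only [hΦ]; rw [rot_rot]
  rw [rot_real x y, hRr] at h1
  rw [rot_real x y, hJr] at h2
  rw [rot_real x y, hRr, hJr] at h3
  have h4 := congrArg Complex.re h1
  have h5 := congrArg Complex.re h2
  rw [Complex.re_ofReal_mul, Complex.sub_re, Complex.ofReal_re] at h4 h5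
  rw [Complex.ofReal_re] at h5
  have hfsr : fs (x, y) = (((fs (x, y)).re : ℝ) : ℂ) := by
    unfold fs; rw [Complex.ofReal_re]
  simp only
  rw [rot_real x y, h4, Complex.ofReal_add, h5, h3]
  rw [hfsr]
  simp only [Complex.ofReal_re]
  push_cast
  ring

end Pool.Agent.L7h30.NE
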