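import Pool.Agent.L7h30.NE.Div

/-!
# The normal derivative of the real part of an extremal function vanishes on the diagonals
-/

set_option autoImplicit false

open Complex Filter Topology Metric Set
open scoped ComplexConjugate
open Pool.Agent.Helper797.Bs
open Pool.Agent.K7.H38.MD

namespace Pool.Agent.L7h30.NE

/-- the sharp growth in two variables -/
lemma growth2 {F : ℂ × ℂ → ℂ} (hF : Cls F) {M : ℝ} (hM : ∀ x y : ℝ, ‖F ((x : ℂ), (y : ℂ))‖ ≤ M)
    (z : ℂ × ℂ) : ‖F z‖ ≤ M * Real.exp √(z.1.im ^ 2 + z.2.im ^ 2) := by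
  set n : ℝ := √(z.1.im ^ 2 + z.2.im ^ 2) with hn
  have hn0 : 0 ≤ n := Real.sqrt_nonneg _
  have hn2 : n ^ 2 = z.1.im ^ 2 + z.2.im ^ 2 := Real.sq_sqrt (by positivity)
  by_cases h : n = 0
  · have h1 : z.1.im = 0 := by rw [h] at hn2; nlinarith [sq_nonneg z.1.im, sq_nonneg z.2.im]
    have h2 : z.2.im = 0 := by rw [h] at hn2; nlinarith [sq_nonneg z.1.im, sq_nonneg z.2.im]
    have e : z = (((z.1.re : ℝ) : ℂ), ((z.2.re : ℝ) : ℂ)) :=
      Prod.ext (Complex.ext (by simp) (by simp [h1])) (Complex.ext (by simp) (by simp [h2]))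
    rw [h, Real.exp_zero, mul_one, e]
    exact hM _ _
  · have key := line_growth hF.spec hM z.1.re z.2.re (z.1.im / n) (z.2.im / n) (by
      rw [div_pow, div_pow, ← add_div, ← hn2]
      exact div_self (pow_ne_zero 2 h)) ((n : ℂ) * I)
    have e1 : line F ((z.1.re : ℂ), (z.2.re : ℂ)) (((z.1.im / n : ℝ) : ℂ), ((z.2.im / n : ℝ) : ℂ))
        ((n:ℂ) * I) = F z := by
      unfold line
      congr 1
      have hnc : (n:ℂ) ≠ 0 := by exact_mod_cast h
      apply Prod.ext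
      · simp only [Prod.fst_add, Prod.smul_fst, smul_eq_mul]
        push_cast
        have : (n:ℂ) * I * ((z.1.im : ℂ) / n) = z.1.im * I := by field_simp
        rw [this]
        exact Complex.re_add_im z.1
      · simp only [Prod.snd_add, Prod.smul_snd, smul_eq_mul]
        push_cast
        have : (n:ℂ) * I * ((z.2.im : ℂ) / n) = z.2.im * I := by field_simp
        rw [this]
        exact Complex.re_add_im z.2
    have e2 : |((n:ℂ) * I).im| = n := by
      simp [abs_of_nonneg hn0]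
    rw [e1, e2] at key
    exact key

/-- the normal derivative on the first axis -/
noncomputable def nd (R : ℂ × ℂ → ℂ) (p : ℂ) : ℂ := deriv (fun q : ℂ => R (p, q)) 0

lemma nd_eq {R : ℂ × ℂ → ℂ} (hR : Differentiable ℂ R) (p : ℂ) :
    nd R p = fderiv ℂ R (p, 0) (0, 1) := by
  have h := line_hasDeriv (osgood hR) (p, 0) (0, 1) 0
  have e : line R (p, 0) (0, 1) = fun q : ℂ => R (p, q) := by
    ext q; simp [line]
  rw [e] at h
  unfold nd
  rw [h.deriv]
  simp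

lemma nd_diff {R : ℂ × ℂ → ℂ} (hR : Differentiable ℂ R) : Differentiable ℂ (nd R) := by
  have e : nd R = fun p => fderiv ℂ R (p, 0) (0, 1) := funext (nd_eq hR)
  rw [e]
  have h := diff' (osgood hR)
  have h2 : Differentiable ℂ (fun p : ℂ => fderiv ℂ R (p, 0)) :=
    h.comp (f := fun p : ℂ => (p, (0:ℂ))) (by fun_prop)
  fun_prop

lemma nd_cauchy {R : ℂ × ℂ → ℂ} (hR : Cls R) (hM : ∀ x y : ℝ, ‖R ((x : ℂ), (y : ℂ))‖ ≤ 1)
    {ρ : ℝ} (hρ : 0 < ρ) (p : ℂ) : ‖nd R p‖ ≤ Real.exp √(p.im ^ 2 + ρ ^ 2) / ρ := by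
  unfold nd
  have hd : Differentiable ℂ (fun q : ℂ => R (p, q)) :=
    hR.diff.comp (f := fun q : ℂ => (p, q)) (by fun_prop)
  apply Complex.norm_deriv_le_of_forall_mem_sphere_norm_le hρ hd.diffContOnCl
  intro q hq
  rw [mem_sphere_zero_iff_norm] at hq
  have h1 := growth2 hR hM (p, q)
  rw [one_mul] at h1
  refine h1.trans ?_
  apply Real.exp_le_exp.2
  apply Real.sqrt_le_sqrt
  have : q.im ^ 2 ≤ ρ ^ 2 := by
    rw [← sq_abs q.im, ← hq]
    exact pow_le_pow_left₀ (abs_nonneg _) (Complex.abs_im_le_norm q) 2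
  simp only
  linarith

/-- lower bound for `sw` on the imaginary axis -/
lemma sw_imag {τ : ℝ} (hτ : a + 1 ≤ τ) : Real.exp (τ - a) / 4 ≤ τ * ‖sw (((τ:ℂ) * I) ^ 2)‖ := by
  have ha := a_pos
  have hτ0 : 0 < τ := by linarith
  set σ : ℝ := √(τ ^ 2 - a ^ 2) with hσ
  have hσ2 : σ ^ 2 = τ ^ 2 - a ^ 2 := Real.sq_sqrt (by nlinarith)
  have hσ1 : τ - a ≤ σ := Real.le_sqrt_of_sq_le (by nlinarith)
  have hσ3 : σ ≤ τ := Real.sqrt_le_iff.2 ⟨hτ0.le, by nlinarith⟩
  have hσ0 : 0 < σ := by linarith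
  have hσc : ((σ:ℂ) * I) ≠ 0 := mul_ne_zero (by exact_mod_cast hσ0.ne') I_ne_zero
  have e1 : ((σ:ℂ) * I) ^ 2 = ((τ:ℂ) * I) ^ 2 + (a:ℂ) ^ 2 := by
    have : (σ:ℂ) ^ 2 = (τ:ℂ) ^ 2 - (a:ℂ) ^ 2 := by exact_mod_cast congrArg (fun x : ℝ => (x:ℂ)) hσ2
    rw [mul_pow, mul_pow, this, I_sq]; ring
  rw [sw_eq e1, snc_ne hσc, norm_div, Complex.sin_mul_I, norm_mul, norm_mul, Complex.norm_I,
    mul_one, mul_one, ← Complex.ofReal_sinh, Complex.norm_real, Complex.norm_real,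
    Real.norm_eq_abs, Real.norm_eq_abs, abs_of_pos hσ0, abs_of_pos (Real.sinh_pos_iff.2 hσ0)]
  have h1 : Real.exp (τ - a) / 4 ≤ Real.sinh σ := by
    rw [Real.sinh_eq]
    have h2 : Real.exp (τ - a) ≤ Real.exp σ := Real.exp_le_exp.2 hσ1
    have h3 : Real.exp (-σ) ≤ 1 := by rw [Real.exp_le_one_iff]; linarith
    have h4 : 2 ≤ Real.exp σ := by
      have := Real.add_one_le_exp σ
      linarith
    linarith
  have h5 : Real.sinh σ ≤ τ * (Real.sinh σ / σ) := by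
    rw [mul_div_assoc', le_div_iff₀ hσ0]
    have := (Real.sinh_pos_iff.2 hσ0).le
    nlinarith
  linarith

/-- **The normal derivative of the real part vanishes on the first diagonal.** -/
theorem normal_zero {R : ℂ × ℂ → ℂ} (hR : Cls R) (hM : ∀ x y : ℝ, ‖R ((x : ℂ), (y : ℂ))‖ ≤ 1)
    (hr : ∀ x y : ℝ, (R ((x : ℂ), (y : ℂ))).im = 0) (h1 : ∀ p, R (p, 0) = F0 p)
    (h2 : ∀ q, R (0, q) = -F0 q) (p : ℂ) : nd R p = 0 := by
  have hb : ∀ z : ℂ, ‖nd R z‖ ≤ Real.exp 1 * Real.exp |z.im| := by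
    intro z
    refine (nd_cauchy hR hM one_pos z).trans ?_
    rw [div_one, ← Real.exp_add]
    apply Real.exp_le_exp.2
    rw [one_pow]
    apply Real.sqrt_le_iff.2
    refine ⟨by positivity, ?_⟩
    have := sq_abs z.im
    nlinarith [abs_nonneg z.im]
  have hext : ∀ x0 : ℝ, |(F0 x0).re| = 1 → nd R x0 = 0 := by
    intro x0 h0
    have hd : Differentiable ℂ (fun q : ℂ => R ((x0:ℂ), q)) :=
      hR.diff.comp (f := fun q : ℂ => ((x0:ℂ), q)) (by fun_prop)
    have := deriv_zero hd (fun y => hr x0 y)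
      (fun y => (Complex.abs_re_le_norm _).trans (hM x0 y)) (x0 := 0) (by
        rw [Complex.ofReal_zero, h1]; exact h0)
    rw [Complex.ofReal_zero] at this
    exact this
  have hF0n : ∀ k : ℕ, 1 ≤ k → |(F0 (tk k : ℝ)).re| = 1 := by
    intro k hk
    rw [F0_node (tk_sqC hk)]
    have : -Complex.cos ((k:ℂ) * Real.pi) = ((-Real.cos ((k:ℝ) * Real.pi) : ℝ) : ℂ) := by
      push_cast; rfl
    rw [this, Complex.ofReal_re, abs_neg, cos_nat, abs_neg_one_pow]
  obtain ⟨c0, c1, hform⟩ := zeros_form (nd_diff hR.diff) (Real.exp_pos 1).le hb (by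
    intro k hk
    refine ⟨hext _ (hF0n k hk), ?_⟩
    have e : (-(tk k : ℝ) : ℂ) = ((-tk k : ℝ) : ℂ) := by push_cast; rfl
    rw [e]
    apply hext
    rw [← e, F0_even]
    exact hF0n k hk)
  -- the value at the origin
  have hn0 : nd R 0 = 0 := by
    unfold nd
    have e : (fun q : ℂ => R (0, q)) = fun q => cw (q ^ 2) := by
      ext q; rw [h2]; simp [F0]
    rw [e]
    have h3 : HasDerivAt (fun s : ℂ => s ^ 2) 0 (0:ℂ) := by simpa using hasDerivAt_pow 2 (0:ℂ)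
    have h4 : HasDerivAt cw (deriv cw ((0:ℂ) ^ 2)) ((0:ℂ) ^ 2) := (cw_diff _).hasDerivAt
    have h5 := HasDerivAt.comp (0:ℂ) h4 h3
    rw [mul_zero] at h5
    exact h5.deriv
  have hc0 : c0 = 0 := by
    have h3 := hform 0
    rw [hn0, mul_zero, add_zero] at h3
    have h4 : sw ((0:ℂ) ^ 2) ≠ 0 := by
      have := sw_real 0
      rw [Complex.ofReal_zero] at this
      rw [this]
      exact_mod_cast sw_real_ne0
    exact (mul_eq_zero.1 h3.symm).resolve_right h4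
  have hc1 : c1 = 0 := by
    by_contra hne
    have hpos : 0 < ‖c1‖ := norm_pos_iff.2 hne
    -- choose a large parameter
    obtain ⟨n, hn⟩ := exists_nat_gt (max (a + 1) (4 * Real.exp (a + 1 / 2) / ‖c1‖))
    have hn1 : a + 1 < n := (le_max_left _ _).trans_lt hn
    have hn2 : 4 * Real.exp (a + 1 / 2) / ‖c1‖ < n := (le_max_right _ _).trans_lt hn
    have ha := a_pos
    have hn0' : (1:ℝ) < n := by linarith
    set τ : ℝ := (n:ℝ) ^ 2 with hτ
    have hτa : a + 1 ≤ τ := by rw [hτ]; nlinarith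
    have hτ0 : 0 < τ := by linarith
    have h3 := hform ((τ:ℂ) * I)
    have h4 : ‖nd R ((τ:ℂ) * I)‖ = ‖c1‖ * (τ * ‖sw (((τ:ℂ) * I) ^ 2)‖) := by
      rw [h3, hc0, zero_add, norm_mul, norm_mul, norm_mul, Complex.norm_I, mul_one,
        Complex.norm_real, Real.norm_eq_abs, abs_of_pos hτ0]
      ring
    have h5 := nd_cauchy hR hM (ρ := n) (by linarith) ((τ:ℂ) * I)
    have h6 : √((((τ:ℂ) * I).im) ^ 2 + (n:ℝ) ^ 2) ≤ τ + 1 / 2 := by
      have e : ((τ:ℂ) * I).im = τ := by simp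
      rw [e, ← hτ]
      apply Real.sqrt_le_iff.2
      exact ⟨by positivity, by nlinarith⟩
    have h7 := sw_imag hτa
    have h8 : ‖c1‖ * (Real.exp (τ - a) / 4) ≤ Real.exp (τ + 1 / 2) / n := by
      calc ‖c1‖ * (Real.exp (τ - a) / 4) ≤ ‖c1‖ * (τ * ‖sw (((τ:ℂ) * I) ^ 2)‖) := by gcongr
        _ = ‖nd R ((τ:ℂ) * I)‖ := h4.symm
        _ ≤ _ := h5
        _ ≤ _ := by gcongr
    have h9 : Real.exp (τ + 1 / 2) = Real.exp (τ - a) * Real.exp (a + 1 / 2) := by
      rw [← Real.exp_add]; congr 1; ring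
    rw [h9, le_div_iff₀ (by linarith)] at h8
    have h10 : ‖c1‖ * n ≤ 4 * Real.exp (a + 1 / 2) := by
      have hE := Real.exp_pos (τ - a)
      have : Real.exp (τ - a) * (‖c1‖ * n) ≤ Real.exp (τ - a) * (4 * Real.exp (a + 1 / 2)) := by
        linarith
      exact le_of_mul_le_mul_left this hE
    rw [div_lt_iff₀ hpos] at hn2
    linarith
  rw [hform, hc0, hc1]; ring

end Pool.Agent.L7h30.NE
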