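import Pool.Agent.L7h30.NE.Trig

/-!
# Explicit normal extremals for all admissible parameters: the inequality
-/

set_option autoImplicit false

open Set

namespace Pool.Agent.L7h30.NE

open Pool.Agent.K7.H38.MD (a a_pos)

/-- the algebraic identity behind the estimate -/
lemma corner_id (s m S C : ℝ) :
    s ^ 2 * (s ^ 2 - a ^ 2) * (S ^ 2 + 4 * m ^ 2 * C ^ 2)
      - (s ^ 2 - a ^ 2) * (a * S + 2 * m * s * C / a) ^ 2
      - (1 + 2 * m) * ((1 - m) * (s ^ 2 - a ^ 2) * S - 2 * m * s * C) ^ 2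
    = m ^ 2 * ((1 + 2 * m) * ((s ^ 2 - a ^ 2) ^ 2 * S ^ 2
      + 2 * (1 - 1 / a ^ 2) * s ^ 2 * (s ^ 2 - a ^ 2) * C ^ 2 - 4 * s ^ 2 * C ^ 2)
      + 2 * (1 - 2 * m) * (s ^ 2 - a ^ 2) * ((s ^ 2 - a ^ 2) * S ^ 2 + 2 * s * S * C
      + (1 - 1 / a ^ 2) * s ^ 2 * C ^ 2)) := by
  have ha := a_pos
  field_simp
  ring

lemma cs2 {u v X Y W : ℝ} (h : u ^ 2 + v ^ 2 ≤ 1) (hW : X ^ 2 + Y ^ 2 ≤ W) :
    (u * X + v * Y) ^ 2 ≤ W := by
  have h1 : (u * X + v * Y) ^ 2 ≤ (u ^ 2 + v ^ 2) * (X ^ 2 + Y ^ 2) := by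
    nlinarith [sq_nonneg (u * Y - v * X)]
  have h2 : (u ^ 2 + v ^ 2) * (X ^ 2 + Y ^ 2) ≤ 1 * (X ^ 2 + Y ^ 2) :=
    mul_le_mul_of_nonneg_right h (by positivity)
  linarith

/-- the estimate at the extreme points of the set of parameters -/
lemma corner {x r2 m s b c : ℝ} (hr : 0 < r2) (hs : s ^ 2 = r2 + a ^ 2) (hs0 : 0 < s)
    (hx : 2 * x ^ 2 = r2 * (1 + 2 * m)) (hm1 : -(1 / 2) ≤ m) (hm2 : m ≤ 1 / 2)
    (hbc : b ^ 2 / a ^ 2 + c ^ 2 / 2 ≤ 1) :
    (b * (Real.sin s / s + 2 * m * Real.cos s / a ^ 2)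
      + c * (x * ((1 - m) * (Real.sin s / s) - 2 * m * Real.cos s / r2))) ^ 2
      ≤ Real.sin s ^ 2 + 4 * m ^ 2 * Real.cos s ^ 2 - 1 / 1000 * m ^ 2 * wt r2 := by
  have ha := a_pos
  have has : a ≤ s := by
    by_contra h
    rw [not_le] at h
    nlinarith
  have hEm := Em_low has
  have hEp := Ep_low has
  set S := Real.sin s with hS
  set C := Real.cos s with hC
  have hid := corner_id s m S C
  have hr' : s ^ 2 - a ^ 2 = r2 := by linarith
  have h2 : (0:ℝ) < √2 := by positivity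
  have h22 : √2 ^ 2 = (2:ℝ) := Real.sq_sqrt (by norm_num)
  have e : b * (S / s + 2 * m * C / a ^ 2) + c * (x * ((1 - m) * (S / s) - 2 * m * C / r2))
      = (b / a) * (a * (S / s) + 2 * m * C / a)
        + (c / √2) * (√2 * (x * ((1 - m) * (S / s) - 2 * m * C / r2))) := by
    field_simp
  rw [e]
  apply cs2
  · rw [div_pow, div_pow, h22]; exact hbc
  · have hX1 : a * (S / s) + 2 * m * C / a = (a * S + 2 * m * s * C / a) / s := by
      field_simp
    have hX2 : (√2 * (x * ((1 - m) * (S / s) - 2 * m * C / r2))) ^ 2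
        = (1 + 2 * m) * ((1 - m) * r2 * S - 2 * m * s * C) ^ 2 / (s ^ 2 * r2) := by
      have e1 : (1 - m) * (S / s) - 2 * m * C / r2
          = ((1 - m) * r2 * S - 2 * m * s * C) / (s * r2) := by
        field_simp
      rw [mul_pow, mul_pow, h22, e1, div_pow, ← mul_assoc, hx]
      field_simp
    rw [hX1, hX2, div_pow]
    have h3 : 0 < s ^ 2 * r2 := by positivity
    have e4 : (a * S + 2 * m * s * C / a) ^ 2 / s ^ 2
        + (1 + 2 * m) * ((1 - m) * r2 * S - 2 * m * s * C) ^ 2 / (s ^ 2 * r2)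
        = (r2 * (a * S + 2 * m * s * C / a) ^ 2
          + (1 + 2 * m) * ((1 - m) * r2 * S - 2 * m * s * C) ^ 2) / (s ^ 2 * r2) := by
      field_simp
    rw [e4, div_le_iff₀ h3]
    rw [hr'] at hid hEm hEp
    have hpos : m ^ 2 * (2 * (1 / 2000 * s ^ 2 * r2 * wt r2)) ≤ m ^ 2 * ((1 + 2 * m) * (r2 ^ 2 * S ^ 2
      + 2 * (1 - 1 / a ^ 2) * s ^ 2 * r2 * C ^ 2 - 4 * s ^ 2 * C ^ 2)
      + 2 * (1 - 2 * m) * r2 * (r2 * S ^ 2 + 2 * s * S * C
      + (1 - 1 / a ^ 2) * s ^ 2 * C ^ 2)) := by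
      apply mul_le_mul_of_nonneg_left _ (sq_nonneg m)
      have hw := wt_nonneg r2
      have l1 := mul_le_mul_of_nonneg_left hEp (by linarith : 0 ≤ 1 + 2 * m)
      have l2 := mul_le_mul_of_nonneg_left hEm
        (mul_nonneg (by linarith : 0 ≤ 2 * (1 - 2 * m)) hr.le)
      have l3 : 0 ≤ (1 - 2 * m) * (1 / 2000 * s ^ 2 * r2 * wt r2) :=
        mul_nonneg (by linarith) (by positivity)
      linarith
    rw [← hid] at hpos
    linarith

/-- splitting of the parameters -/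
lemma split {lam c M : ℝ} (hl : 0 ≤ lam) (h : |c| ≤ lam * M) (_ : 0 ≤ M) :
    ∃ c1 : ℝ, c = lam * c1 ∧ c1 ^ 2 ≤ M ^ 2 := by
  rcases hl.eq_or_lt with h0 | h0
  · rw [← h0, zero_mul] at h
    refine ⟨0, ?_, by rw [zero_pow two_ne_zero]; positivity⟩
    rw [mul_zero]
    exact abs_nonpos_iff.1 h
  · refine ⟨c / lam, by field_simp, ?_⟩
    rw [← sq_abs (c / lam)]
    apply pow_le_pow_left₀ (abs_nonneg _)
    rw [abs_div, abs_of_pos h0, div_le_iff₀ h0]
    linarith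

lemma conv2 {lam A B W : ℝ} (h0 : 0 ≤ lam) (h1 : lam ≤ 1) (hA : A ^ 2 ≤ W) (hB : B ^ 2 ≤ W) :
    (lam * A + (1 - lam) * B) ^ 2 ≤ W := by
  nlinarith [mul_nonneg (mul_nonneg h0 (by linarith : 0 ≤ 1 - lam)) (sq_nonneg (A - B)),
    mul_le_mul_of_nonneg_left hA h0, mul_le_mul_of_nonneg_left hB (by linarith : 0 ≤ 1 - lam)]

/-- the estimate for all admissible parameters -/
lemma general {x y r2 m s b c d : ℝ} (hr : 0 < r2) (hs : s ^ 2 = r2 + a ^ 2) (hs0 : 0 < s)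
    (hx : 2 * x ^ 2 = r2 * (1 + 2 * m)) (hy : 2 * y ^ 2 = r2 * (1 - 2 * m))
    (h1 : b ^ 2 / a ^ 2 + (c + d) ^ 2 / 2 ≤ 1) (h2 : b ^ 2 / a ^ 2 + (c - d) ^ 2 / 2 ≤ 1) :
    ((b + c * x + d * y) * (Real.sin s / s) + m * (b * (c ^ 2 - d ^ 2) / (a ^ 2 - b ^ 2) * Real.cos s
      - (c * x - d * y) * (Real.sin s / s + 2 * Real.cos s / r2))) ^ 2
      ≤ Real.sin s ^ 2 + 4 * m ^ 2 * Real.cos s ^ 2 - 1 / 1000 * m ^ 2 * wt r2 := by
  have ha := a_pos
  have hm1 : -(1 / 2) ≤ m := by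
    by_contra h
    rw [not_le] at h
    have : r2 * (1 + 2 * m) < 0 := mul_neg_of_pos_of_neg hr (by linarith)
    nlinarith [sq_nonneg x]
  have hm2 : m ≤ 1 / 2 := by
    by_contra h
    rw [not_le] at h
    have : r2 * (1 - 2 * m) < 0 := mul_neg_of_pos_of_neg hr (by linarith)
    nlinarith [sq_nonneg y]
  set S := Real.sin s with hS
  set C := Real.cos s with hC
  set M2 : ℝ := 2 * (1 - b ^ 2 / a ^ 2) with hM2
  have hM20 : 0 ≤ M2 := by
    have := sq_nonneg (c + d)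
    rw [hM2]; linarith
  set M : ℝ := √M2 with hM
  have hM0 : 0 ≤ M := Real.sqrt_nonneg _
  have hMM : M ^ 2 = M2 := Real.sq_sqrt hM20
  have hcd : |c| + |d| ≤ M := by
    have k1 : (c + d) ^ 2 ≤ M ^ 2 := by rw [hMM, hM2]; linarith
    have k2 : (c - d) ^ 2 ≤ M ^ 2 := by rw [hMM, hM2]; linarith
    have k3 := abs_le_of_sq_le_sq k1 hM0
    have k4 := abs_le_of_sq_le_sq k2 hM0
    rw [abs_le] at k3 k4
    rcases abs_cases c with ⟨hc, _⟩ | ⟨hc, _⟩ <;> rcases abs_cases d with ⟨hd, _⟩ | ⟨hd, _⟩ <;>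
      rw [hc, hd] <;> linarith
  rcases hM0.eq_or_lt with hz | hpos
  · -- degenerate case
    have hc : c = 0 := by
      have := abs_nonneg d
      have h3 : |c| ≤ 0 := by linarith
      exact abs_nonpos_iff.1 h3
    have hd : d = 0 := by
      have := abs_nonneg c
      have h3 : |d| ≤ 0 := by linarith
      exact abs_nonpos_iff.1 h3
    have hb : b ^ 2 / a ^ 2 ≤ 1 := by linarith
    have k1 := corner (b := b) (c := 0) hr hs hs0 hx hm1 hm2 (by linarith)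
    have k2 := corner (x := y) (m := -m) (b := b) (c := 0) hr hs hs0 (by rw [hy]; ring)
      (by linarith) (by linarith) (by linarith)
    rw [neg_sq] at k2
    have := conv2 (lam := 1 / 2) (by norm_num) (by norm_num) k1 k2
    rw [hc, hd]
    refine le_trans (le_of_eq ?_) this
    ring
  · set lam : ℝ := (M ^ 2 + c ^ 2 - d ^ 2) / (2 * M ^ 2) with hlam
    have hMpos : 0 < M ^ 2 := by positivity
    have hac := abs_nonneg c
    have had := abs_nonneg d
    have hc2 := sq_abs c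
    have hd2 := sq_abs d
    have l1 : |c| ≤ lam * M := by
      rw [hlam, div_mul_eq_mul_div, le_div_iff₀ (by positivity)]
      have k1 : |d| ^ 2 ≤ (M - |c|) ^ 2 := pow_le_pow_left₀ had (by linarith) 2
      have k2 : 2 * M * |c| ≤ M ^ 2 + c ^ 2 - d ^ 2 := by rw [← hc2, ← hd2]; linarith
      have k3 := mul_le_mul_of_nonneg_right k2 hpos.le
      linarith
    have l2 : |d| ≤ (1 - lam) * M := by
      have e : 1 - lam = (M ^ 2 - c ^ 2 + d ^ 2) / (2 * M ^ 2) := by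
        rw [hlam]; field_simp; ring
      rw [e, div_mul_eq_mul_div, le_div_iff₀ (by positivity)]
      have k1 : |c| ^ 2 ≤ (M - |d|) ^ 2 := pow_le_pow_left₀ hac (by linarith) 2
      have k2 : 2 * M * |d| ≤ M ^ 2 - c ^ 2 + d ^ 2 := by rw [← hc2, ← hd2]; linarith
      have k3 := mul_le_mul_of_nonneg_right k2 hpos.le
      linarith
    have l3 : 0 ≤ lam := by
      have : 0 ≤ lam * M := hac.trans l1
      exact nonneg_of_mul_nonneg_left this hpos
    have l4 : 0 ≤ 1 - lam := by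
      have : 0 ≤ (1 - lam) * M := had.trans l2
      exact nonneg_of_mul_nonneg_left this hpos
    obtain ⟨c1, hc1, hc1M⟩ := split l3 l1 hM0
    obtain ⟨d1, hd1, hd1M⟩ := split l4 l2 hM0
    have k1 := corner (b := b) (c := c1) hr hs hs0 hx hm1 hm2 (by
      rw [hMM, hM2] at hc1M; linarith)
    have k2 := corner (x := y) (m := -m) (b := b) (c := d1) hr hs hs0 (by rw [hy]; ring)
      (by linarith) (by linarith) (by rw [hMM, hM2] at hd1M; linarith)
    rw [neg_sq] at k2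
    have k3 := conv2 l3 (by linarith) k1 k2
    refine le_trans (le_of_eq ?_) k3
    congr 1
    have hab : a ^ 2 - b ^ 2 ≠ 0 := by
      have : a ^ 2 - b ^ 2 = a ^ 2 * M ^ 2 / 2 := by
        rw [hMM, hM2]; field_simp
      rw [this]
      positivity
    have hcoef : b * (c ^ 2 - d ^ 2) / (a ^ 2 - b ^ 2) = b * (2 * lam - 1) * 2 / a ^ 2 := by
      have e5 : 2 * lam - 1 = (c ^ 2 - d ^ 2) / M ^ 2 := by
        rw [hlam]; field_simp; ring
      have e6 : M ^ 2 = 2 * (a ^ 2 - b ^ 2) / a ^ 2 := by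
        rw [hMM, hM2]; field_simp
      rw [e5, e6]
      field_simp
    rw [hcoef]
    have e7 : c * x = lam * c1 * x := by rw [← hc1]
    have e8 : d * y = (1 - lam) * d1 * y := by rw [← hd1]
    rw [e7, e8]
    ring

end Pool.Agent.L7h30.NE
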