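import Pool.Agent.L7h30.NE.Main

/-!
# Two trigonometric inequalities
-/

set_option autoImplicit false

open Set

namespace Pool.Agent.L7h30.NE

open Pool.Agent.K7.H38.MD (a a_pos)

lemma a_lo : (1.57 : ℝ) < a := by unfold a; have := Real.pi_gt_d2; linarith

lemma a_hi : a < (1.5708 : ℝ) := by unfold a; have := Real.pi_lt_d4; linarith

lemma a_sq_lo : (2.4649 : ℝ) < a ^ 2 := by have := a_lo; nlinarith

lemma K_lo : (0.594 : ℝ) < 1 - 1 / a ^ 2 := by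
  have h := a_sq_lo
  have h2 : 1 / a ^ 2 < 1 / 2.4649 := one_div_lt_one_div_of_lt (by norm_num) h
  have h3 : (1 / 2.4649 : ℝ) < 0.406 := by norm_num
  linarith

lemma sin_shift (δ : ℝ) : Real.sin (a + δ) = Real.cos δ := by
  unfold a
  rw [Real.sin_add, Real.sin_pi_div_two, Real.cos_pi_div_two]; ring

lemma cos_shift (δ : ℝ) : Real.cos (a + δ) = -Real.sin δ := by
  unfold a
  rw [Real.cos_add, Real.sin_pi_div_two, Real.cos_pi_div_two]; ring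

lemma aux1 {c X M : ℝ} (hc0 : 0 ≤ c) (hc1 : c ≤ 1) (hM : 0 ≤ M) (h : -M ≤ X) : -M ≤ c * X := by
  nlinarith

lemma poly1 {δ : ℝ} (h0 : 0 ≤ δ) (h1 : δ ≤ 0.47) :
    2 * (1.5708 + δ) * (δ / 3 + δ ^ 3 / 100) + 1 + 0.4
      ≤ 0.594 * (1.57 + δ) ^ 2 * (1 - δ ^ 2 / 3) := by
  have k1 : 0 ≤ δ * (0.47 - δ) := mul_nonneg h0 (by linarith)
  have k2 : 0 ≤ δ ^ 2 * (0.47 - δ) := mul_nonneg (by positivity) (by linarith)
  have k3 : 0 ≤ δ ^ 3 * (0.47 - δ) := mul_nonneg (by positivity) (by linarith)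
  linarith

lemma poly2 {δ : ℝ} (h0 : 0 ≤ δ) (h1 : δ ≤ 0.85) :
    (1 + (1 - 0.46 * δ ^ 2)) * (2 * (1.5708 + δ) * (δ / 3 + δ ^ 3 / 100)
            + (1 - 0.46 * δ ^ 2)) + 0.85
          ≤ 0.594 * (1.57 + δ) * (2 * 1.57 + δ) * (1 - δ ^ 2 / 3) := by
  have k1 : 0 ≤ δ * (0.85 - δ) := mul_nonneg h0 (by linarith)
  have k2 : 0 ≤ δ ^ 2 * (0.85 - δ) := mul_nonneg (by positivity) (by linarith)
  have k3 : 0 ≤ δ ^ 3 * (0.85 - δ) := mul_nonneg (by positivity) (by linarith)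
  have k4 : 0 ≤ δ ^ 5 := by positivity
  have k5 : 0 ≤ δ ^ 6 := by positivity
  linarith

lemma sq_aux {δ : ℝ} (h1 : δ ^ 2 ≤ 1) : 0 ≤ 1 - δ ^ 2 / 3 ∧ 1 - δ ^ 2 / 3 ≤ (1 - δ ^ 2 / 6) ^ 2 := by
  constructor
  · linarith
  · have : (1 - δ ^ 2 / 6) ^ 2 = 1 - δ ^ 2 / 3 + (δ ^ 2 / 6) ^ 2 := by ring
    have := sq_nonneg (δ ^ 2 / 6)
    linarith

lemma trig_data {δ : ℝ} (h0 : 0 ≤ δ) (h1 : δ ≤ 0.85) :
    0 < Real.cos δ ∧ Real.cos δ ≤ 1 ∧ Real.cos δ ≤ 1 - 0.46 * δ ^ 2 ∧ 0 ≤ Real.sin δ ∧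
    Real.sin δ ≤ δ ∧ -(δ ^ 3 / 3 + δ ^ 5 / 100) ≤ δ * Real.cos δ - Real.sin δ ∧
    (δ * (1 - δ ^ 2 / 6)) ^ 2 ≤ Real.sin δ ^ 2 := by
  have hδ2 : δ ^ 2 ≤ 0.7225 := by nlinarith
  have hc2 : 1 - δ ^ 2 / 2 ≤ Real.cos δ := Real.one_sub_sq_div_two_le_cos
  have hs1 : δ - δ ^ 3 / 6 ≤ Real.sin δ := Real.sin_ge_sub_cube h0
  refine ⟨by linarith, Real.cos_le_one δ, ?_, ?_, Real.sin_le h0, ?_, ?_⟩
  · have := (abs_le.1 (Real.cos_bound (x := δ) (by rw [abs_of_nonneg h0]; linarith))).2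
    rw [abs_of_nonneg h0] at this
    have h4 : δ ^ 4 ≤ 0.7225 * δ ^ 2 := by nlinarith [sq_nonneg δ]
    linarith
  · exact Real.sin_nonneg_of_nonneg_of_le_pi h0 (by linarith [Real.pi_gt_three])
  · have := (abs_le.1 (Real.sin_bound (x := δ) (by rw [abs_of_nonneg h0]; linarith))).2
    rw [abs_of_nonneg h0] at this
    have h2 := mul_le_mul_of_nonneg_left hc2 h0
    linarith
  · have h6 : 0 ≤ 1 - δ ^ 2 / 6 := by linarith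
    have h7 : δ * (1 - δ ^ 2 / 6) ≤ Real.sin δ := by linarith
    exact pow_le_pow_left₀ (by positivity) h7 2

lemma Em_small {δ c σ A K : ℝ} (hδ : 0 ≤ δ) (hc0 : 0 < c) (hc1 : c ≤ 1)
    (h1 : -(δ ^ 3 / 3 + δ ^ 5 / 100) ≤ δ * c - σ) (h5 : (δ * (1 - δ ^ 2 / 6)) ^ 2 ≤ σ ^ 2)
    (hA : 0 < A) (hK : 0 ≤ K)
    (hmain : 2 * (A + δ) * (δ / 3 + δ ^ 3 / 100) + 1 + 0.4
      ≤ K * (A + δ) ^ 2 * (1 - δ ^ 2 / 6) ^ 2) :
    0.4 * δ ^ 2 ≤ ((A + δ) ^ 2 - A ^ 2) * c ^ 2 + 2 * (A + δ) * c * (-σ) + K * (A + δ) ^ 2 * (-σ) ^ 2 := by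
  have hsp : 0 < A + δ := by linarith
  have h2 : -(2 * (A + δ) * (δ ^ 3 / 3 + δ ^ 5 / 100) + δ ^ 2)
      ≤ c * (2 * (A + δ) * (δ * c - σ) - δ ^ 2 * c) := by
    apply aux1 hc0.le hc1 (by positivity)
    have := mul_le_mul_of_nonneg_left h1 (by positivity : 0 ≤ 2 * (A + δ))
    have := mul_le_mul_of_nonneg_left hc1 (sq_nonneg δ)
    linarith
  have h16 := mul_le_mul_of_nonneg_left hmain (sq_nonneg δ)
  have h17 : K * (A + δ) ^ 2 * (δ * (1 - δ ^ 2 / 6)) ^ 2 ≤ K * (A + δ) ^ 2 * σ ^ 2 := by gcongr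
  have e1 : ((A + δ) ^ 2 - A ^ 2) * c ^ 2 + 2 * (A + δ) * c * (-σ) + K * (A + δ) ^ 2 * (-σ) ^ 2
      = c * (2 * (A + δ) * (δ * c - σ) - δ ^ 2 * c) + K * (A + δ) ^ 2 * σ ^ 2 := by ring
  have e2 : δ ^ 2 * (2 * (A + δ) * (δ / 3 + δ ^ 3 / 100) + 1 + 0.4)
      = 2 * (A + δ) * (δ ^ 3 / 3 + δ ^ 5 / 100) + δ ^ 2 + 0.4 * δ ^ 2 := by ring
  have e3 : δ ^ 2 * (K * (A + δ) ^ 2 * (1 - δ ^ 2 / 6) ^ 2)
      = K * (A + δ) ^ 2 * (δ * (1 - δ ^ 2 / 6)) ^ 2 := by ring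
  rw [e1]
  rw [e2, e3] at h16
  linarith

/-- the weight `min (1, r⁴)` -/
noncomputable def wt (r2 : ℝ) : ℝ := min 1 (r2 ^ 2)

lemma wt_nonneg (r2 : ℝ) : 0 ≤ wt r2 := le_min zero_le_one (sq_nonneg _)

lemma wt_le_one (r2 : ℝ) : wt r2 ≤ 1 := min_le_left _ _

lemma wt_le_sq (r2 : ℝ) : wt r2 ≤ r2 ^ 2 := min_le_right _ _

lemma Em_low {s : ℝ} (hs : a ≤ s) :
    1 / 2000 * s ^ 2 * wt (s ^ 2 - a ^ 2) ≤
    (s ^ 2 - a ^ 2) * Real.sin s ^ 2 + 2 * s * Real.sin s * Real.cos s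
      + (1 - 1 / a ^ 2) * s ^ 2 * Real.cos s ^ 2 := by
  have ha := a_pos
  have hlo := a_lo
  have hhi := a_hi
  have hK := K_lo
  obtain ⟨δ, rfl⟩ : ∃ δ, s = a + δ := ⟨s - a, by ring⟩
  have hδ : 0 ≤ δ := by linarith
  rcases le_total δ 0.47 with h | h
  · rw [sin_shift, cos_shift]
    obtain ⟨hc0, hc1, -, hs0, hs3, h1, h5⟩ := trig_data hδ (by linarith)
    obtain ⟨h9, h8⟩ := sq_aux (δ := δ) (by nlinarith)
    have hmain : 2 * (a + δ) * (δ / 3 + δ ^ 3 / 100) + 1 + 0.4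
        ≤ (1 - 1 / a ^ 2) * (a + δ) ^ 2 * (1 - δ ^ 2 / 6) ^ 2 := by
      have h10 : 0.594 * (1.57 + δ) ^ 2 * (1 - δ ^ 2 / 3)
          ≤ (1 - 1 / a ^ 2) * (a + δ) ^ 2 * (1 - δ ^ 2 / 6) ^ 2 := by
        gcongr
      have h11 : 2 * (a + δ) * (δ / 3 + δ ^ 3 / 100) + 1
          ≤ 2 * (1.5708 + δ) * (δ / 3 + δ ^ 3 / 100) + 1 := by
        gcongr
      have h12 := poly1 hδ h
      linarith
    have key := Em_small hδ hc0 hc1 h1 h5 ha (by linarith) hmain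
    refine le_trans ?_ key
    have hw : wt ((a + δ) ^ 2 - a ^ 2) ≤ δ ^ 2 * 14 := by
      refine (wt_le_sq _).trans ?_
      have e : ((a + δ) ^ 2 - a ^ 2) ^ 2 = δ ^ 2 * (2 * a + δ) ^ 2 := by ring
      rw [e]
      have : (2 * a + δ) ^ 2 ≤ 14 := by nlinarith
      gcongr
    have hs2 : (a + δ) ^ 2 ≤ 5 := by nlinarith
    calc 1 / 2000 * (a + δ) ^ 2 * wt ((a + δ) ^ 2 - a ^ 2) ≤ 1 / 2000 * 5 * (δ ^ 2 * 14) := by
          gcongr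
          exact wt_nonneg _
      _ ≤ 0.4 * δ ^ 2 := by have := sq_nonneg δ; linarith
  · -- completing the square
    have hr : 1.69 ≤ (a + δ) ^ 2 - a ^ 2 := by nlinarith
    have hS := Real.sin_sq_add_cos_sq (a + δ)
    have hw := wt_le_one ((a + δ) ^ 2 - a ^ 2)
    have hs2 : (a + δ) ^ 2 ≤ 2.47 * ((a + δ) ^ 2 - a ^ 2) := by nlinarith
    have hsp : 0 < (a + δ) ^ 2 := by positivity
    have hw2 : 1 / 2000 * (a + δ) ^ 2 * wt ((a + δ) ^ 2 - a ^ 2)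
        ≤ 1 / 2000 * (a + δ) ^ 2 * (Real.sin (a + δ) ^ 2 + Real.cos (a + δ) ^ 2) := by
      rw [hS]; gcongr
    refine hw2.trans ?_
    generalize (a + δ) ^ 2 - a ^ 2 = r2 at hr hs2
    generalize Real.sin (a + δ) = S
    generalize Real.cos (a + δ) = C
    generalize hKK : 1 - 1 / a ^ 2 = K at hK
    generalize a + δ = t at hs2 hsp
    set u := r2 - 1 / 2000 * t ^ 2 with hu
    have hu1 : 1.6879 ≤ u := by rw [hu]; linarith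
    have hu0 : 0 < u := by linarith
    have h1 : 1 ≤ u * (K - 1 / 2000) := by nlinarith
    have e : u * (u * S ^ 2 + 2 * t * S * C + (K - 1 / 2000) * t ^ 2 * C ^ 2)
        = (u * S + t * C) ^ 2 + (t * C) ^ 2 * (u * (K - 1 / 2000) - 1) := by ring
    have h2 : 0 ≤ u * (u * S ^ 2 + 2 * t * S * C + (K - 1 / 2000) * t ^ 2 * C ^ 2) := by
      rw [e]
      have : 0 ≤ u * (K - 1 / 2000) - 1 := by linarith
      positivity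
    have h3 := nonneg_of_mul_nonneg_right h2 hu0
    rw [hu] at h3
    linarith

lemma Ep_small {δ c σ A K : ℝ} (hδ : 0 ≤ δ) (hc0 : 0 < c) (hs0 : 0 ≤ σ) (hs3 : σ ≤ δ)
    (h1 : -(δ ^ 3 / 3 + δ ^ 5 / 100) ≤ δ * c - σ) (h5 : (δ * (1 - δ ^ 2 / 6)) ^ 2 ≤ σ ^ 2)
    (hA : 0 < A) (hK : 0 ≤ K)
    (hmain : (1 + c) * (2 * (A + δ) * (δ / 3 + δ ^ 3 / 100) + c) + 0.85
      ≤ K * (A + δ) * (2 * A + δ) * (1 - δ ^ 2 / 6) ^ 2) :
    1.7 * (A + δ) * δ ^ 3 ≤ ((A + δ) ^ 2 - A ^ 2) ^ 2 * c ^ 2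
      + 2 * K * (A + δ) ^ 2 * ((A + δ) ^ 2 - A ^ 2) * (-σ) ^ 2
      - 4 * (A + δ) ^ 2 * (-σ) ^ 2 := by
  have hsp : 0 < A + δ := by linarith
  have hN0 : 0 ≤ 2 * (A + δ) * (δ ^ 3 / 3 + δ ^ 5 / 100) + δ ^ 2 * c := by positivity
  have h2 : -(2 * (A + δ) * (δ ^ 3 / 3 + δ ^ 5 / 100) + δ ^ 2 * c)
      ≤ δ * (2 * A + δ) * c - 2 * (A + δ) * σ := by
    have := mul_le_mul_of_nonneg_left h1 (by positivity : 0 ≤ 2 * (A + δ))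
    linarith
  have h3 : 0 ≤ δ * (2 * A + δ) * c + 2 * (A + δ) * σ := by positivity
  have h4 : δ * (2 * A + δ) * c + 2 * (A + δ) * σ ≤ 2 * (A + δ) * δ * (1 + c) := by
    have h5 : δ * (2 * A + δ) * c ≤ 2 * (A + δ) * δ * c := by
      apply mul_le_mul_of_nonneg_right _ hc0.le
      have := mul_nonneg hδ hδ
      linarith
    have h6 : 2 * (A + δ) * σ ≤ 2 * (A + δ) * δ := by gcongr
    linarith
  have h8 := mul_le_mul_of_nonneg_right h2 h3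
  have h9 := mul_le_mul_of_nonneg_left h4 hN0
  have h16 := mul_le_mul_of_nonneg_left hmain (by positivity : 0 ≤ 2 * (A + δ) * δ ^ 3)
  have h17 : 2 * K * (A + δ) ^ 2 * (δ * (2 * A + δ)) * (δ * (1 - δ ^ 2 / 6)) ^ 2
      ≤ 2 * K * (A + δ) ^ 2 * (δ * (2 * A + δ)) * σ ^ 2 := by gcongr
  have e1 : (2 * (A + δ) * (δ ^ 3 / 3 + δ ^ 5 / 100) + δ ^ 2 * c) * (2 * (A + δ) * δ * (1 + c))
      = 2 * (A + δ) * δ ^ 3 * ((1 + c) * (2 * (A + δ) * (δ / 3 + δ ^ 3 / 100) + c)) := by ring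
  have e2 : 2 * (A + δ) * δ ^ 3 * (K * (A + δ) * (2 * A + δ) * (1 - δ ^ 2 / 6) ^ 2)
      = 2 * K * (A + δ) ^ 2 * (δ * (2 * A + δ)) * (δ * (1 - δ ^ 2 / 6)) ^ 2 := by ring
  have e3 : ((A + δ) ^ 2 - A ^ 2) ^ 2 * c ^ 2
      + 2 * K * (A + δ) ^ 2 * ((A + δ) ^ 2 - A ^ 2) * (-σ) ^ 2 - 4 * (A + δ) ^ 2 * (-σ) ^ 2
      = (δ * (2 * A + δ) * c - 2 * (A + δ) * σ) * (δ * (2 * A + δ) * c + 2 * (A + δ) * σ)
        + 2 * K * (A + δ) ^ 2 * (δ * (2 * A + δ)) * σ ^ 2 := by ring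
  rw [e3]
  rw [e1] at h9
  rw [e2] at h16
  linarith

lemma Ep_low {s : ℝ} (hs : a ≤ s) :
    1 / 2000 * s ^ 2 * (s ^ 2 - a ^ 2) * wt (s ^ 2 - a ^ 2) ≤
    (s ^ 2 - a ^ 2) ^ 2 * Real.sin s ^ 2
      + 2 * (1 - 1 / a ^ 2) * s ^ 2 * (s ^ 2 - a ^ 2) * Real.cos s ^ 2
      - 4 * s ^ 2 * Real.cos s ^ 2 := by
  have ha := a_pos
  have hlo := a_lo
  have hhi := a_hi
  have hK := K_lo
  obtain ⟨δ, rfl⟩ : ∃ δ, s = a + δ := ⟨s - a, by ring⟩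
  have hδ : 0 ≤ δ := by linarith
  rcases le_total δ 0.85 with h | h
  · rw [sin_shift, cos_shift]
    obtain ⟨hc0, hc1, hc3, hs0, hs3, h1, h5⟩ := trig_data hδ h
    have hδ2 : δ ^ 2 ≤ 0.7225 := by nlinarith
    obtain ⟨h12, h11⟩ := sq_aux (δ := δ) (by linarith)
    have hmain : (1 + Real.cos δ) * (2 * (a + δ) * (δ / 3 + δ ^ 3 / 100) + Real.cos δ) + 0.85
        ≤ (1 - 1 / a ^ 2) * (a + δ) * (2 * a + δ) * (1 - δ ^ 2 / 6) ^ 2 := by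
      have h13 : 0.594 * (1.57 + δ) * (2 * 1.57 + δ) * (1 - δ ^ 2 / 3)
          ≤ (1 - 1 / a ^ 2) * (a + δ) * (2 * a + δ) * (1 - δ ^ 2 / 6) ^ 2 := by
        gcongr
      have h0' : 0 ≤ 1 + (1 - 0.46 * δ ^ 2) := by linarith
      have h14 : (1 + Real.cos δ) * (2 * (a + δ) * (δ / 3 + δ ^ 3 / 100) + Real.cos δ)
          ≤ (1 + (1 - 0.46 * δ ^ 2)) * (2 * (1.5708 + δ) * (δ / 3 + δ ^ 3 / 100)
            + (1 - 0.46 * δ ^ 2)) := by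
        gcongr
      have h15 := poly2 hδ h
      linarith
    have key := Ep_small hδ hc0 hs0 hs3 h1 h5 ha (by linarith) hmain
    refine le_trans ?_ key
    have e : (a + δ) ^ 2 - a ^ 2 = δ * (2 * a + δ) := by ring
    have hw : wt ((a + δ) ^ 2 - a ^ 2) ≤ δ ^ 2 * 16 := by
      refine (wt_le_sq _).trans ?_
      have e : ((a + δ) ^ 2 - a ^ 2) ^ 2 = δ ^ 2 * (2 * a + δ) ^ 2 := by ring
      rw [e]
      have : (2 * a + δ) ^ 2 ≤ 16 := by nlinarith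
      gcongr
    have h2 : 2 * a + δ ≤ 4 := by linarith
    have h3 : a + δ ≤ 3 := by linarith
    have hsp : 0 < a + δ := by linarith
    have hw0 := wt_nonneg ((a + δ) ^ 2 - a ^ 2)
    calc 1 / 2000 * (a + δ) ^ 2 * ((a + δ) ^ 2 - a ^ 2) * wt ((a + δ) ^ 2 - a ^ 2)
        = 1 / 2000 * (a + δ) * (a + δ) * (δ * (2 * a + δ)) * wt ((a + δ) ^ 2 - a ^ 2) := by
          rw [← e]; ring
      _ ≤ 1 / 2000 * (a + δ) * 3 * (δ * 4) * (δ ^ 2 * 16) := by gcongr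
      _ ≤ 1.7 * (a + δ) * δ ^ 3 := by
          have : 0 ≤ (a + δ) * δ ^ 3 := by positivity
          linarith
  · have hr : 3.38 ≤ (a + δ) ^ 2 - a ^ 2 := by nlinarith
    have hS := Real.sin_sq_add_cos_sq (a + δ)
    have hw := wt_le_one ((a + δ) ^ 2 - a ^ 2)
    have hs2 : (a + δ) ^ 2 ≤ 2 * ((a + δ) ^ 2 - a ^ 2) := by nlinarith
    have hw2 : 1 / 2000 * (a + δ) ^ 2 * ((a + δ) ^ 2 - a ^ 2) * wt ((a + δ) ^ 2 - a ^ 2)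
        ≤ 1 / 2000 * (a + δ) ^ 2 * ((a + δ) ^ 2 - a ^ 2)
          * (Real.sin (a + δ) ^ 2 + Real.cos (a + δ) ^ 2) := by
      have : 0 ≤ (a + δ) ^ 2 - a ^ 2 := by linarith
      rw [hS]; gcongr
    refine hw2.trans ?_
    generalize hr2 : (a + δ) ^ 2 - a ^ 2 = r2 at hr hs2
    generalize Real.sin (a + δ) = S
    generalize Real.cos (a + δ) = C
    generalize hKK : 1 - 1 / a ^ 2 = K at hK
    generalize a + δ = t at hs2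
    have h1 : 4 ≤ r2 * (2 * K - 1 / 2000) := by nlinarith
    have h2 : 0 ≤ r2 - 1 / 2000 * t ^ 2 := by linarith
    have e : r2 ^ 2 * S ^ 2 + 2 * K * t ^ 2 * r2 * C ^ 2 - 4 * t ^ 2 * C ^ 2
        - 1 / 2000 * t ^ 2 * r2 * (S ^ 2 + C ^ 2)
        = r2 * (r2 - 1 / 2000 * t ^ 2) * S ^ 2 + (t * C) ^ 2 * (r2 * (2 * K - 1 / 2000) - 4) := by
      ring
    have h3 : 0 ≤ r2 * (r2 - 1 / 2000 * t ^ 2) * S ^ 2
        + (t * C) ^ 2 * (r2 * (2 * K - 1 / 2000) - 4) := by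
      have h4 : 0 ≤ r2 * (2 * K - 1 / 2000) - 4 := by linarith
      have h5 : 0 ≤ r2 := by linarith
      positivity
    rw [← e] at h3
    linarith

end Pool.Agent.L7h30.NE
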